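import Pool.Agent.H821.BZ.Fin
import Pool.Agent.H401.BZ.ERR
import Pool.Agent.H236.BZ.Zon

/-! The estimate at a touching point for hard potentials with the endpoint moment `γ + 2s`. -/

set_option autoImplicit false
open MeasureTheory Metric Set
open scoped ENNReal Real InnerProductSpace Pointwise

namespace Pool.Agent.H821.BL

open Pool.Agent.H821.BZ

variable {d : ℕ}

/-- endpoint moment of the angular kernels -/
theorem kk_end (hd : 2 ≤ d) {s K γ : ℝ} (hs0 : 0 < s) (hs1 : s < 1) (hγ : γ ≤ 2) :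
    ∃ C : ℝ≥0∞, C ≠ ⊤ ∧ ∀ β : ℝ → ℝ, IsKer ((d - 1) / 2 + s) K β → ∀ e : V d, ‖e‖ = 1 → ∀ X : ℝ, 0 ≤ X →
      ∫⁻ σ : Sp d, ENNReal.ofReal (kk d γ β ⟪e, (σ : V d)⟫_ℝ * min 1 (X * (2 - 2 * ⟪e, (σ : V d)⟫_ℝ ^ 2))) ∂(sm d) ≤
        ENNReal.ofReal (X ^ (2 * s / 2)) * C := by
  have hd2 : (2:ℝ) ≤ d := by exact_mod_cast hd
  have hp : 0 ≤ ((d:ℝ) - 1) / 2 + s := by linarith
  obtain ⟨C1, hC1, h1⟩ := kk_moment (K := K) (γ := γ) (s := s) (a := 2) hd (by linarith) hγ
  obtain ⟨CE, hCE, hE⟩ := Pool.Agent.H401.BZ.ERR Pool.Agent.H236.BZ.Zon.ZON d hd s hs0 hs1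
  set A : ℝ := 2 * 2 ^ d * |K| * 4 with hA
  have hA0 : 0 ≤ A := by positivity
  refine ⟨C1 + ENNReal.ofReal A * ENNReal.ofReal CE,
    ENNReal.add_ne_top.2 ⟨hC1, ENNReal.mul_ne_top ENNReal.ofReal_ne_top ENNReal.ofReal_ne_top⟩, fun β hβ e he X hX => ?_⟩
  have es : 2 * s / 2 = s := by ring
  rw [es, mul_add]
  rcases le_total X 1 with hX1 | hX1
  · refine le_add_right ?_
    have hkm : Measurable (fun σ : Sp d => ENNReal.ofReal (kk d γ β ⟪e, (σ : V d)⟫_ℝ *
        (2 - 2 * ⟪e, (σ : V d)⟫_ℝ ^ 2) ^ ((2:ℝ) / 2))) := by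
      refine Measurable.ennreal_ofReal (((measurable_kk hβ.meas).comp
        (measurable_const.inner measurable_subtype_coe)).mul ?_)
      have : Measurable (fun σ : Sp d => (σ : V d)) := measurable_subtype_coe
      fun_prop
    calc _ ≤ ∫⁻ σ : Sp d, ENNReal.ofReal X * ENNReal.ofReal (kk d γ β ⟪e, (σ : V d)⟫_ℝ *
            (2 - 2 * ⟪e, (σ : V d)⟫_ℝ ^ 2) ^ ((2:ℝ) / 2)) ∂(sm d) := by
          refine lintegral_mono fun σ => ?_
          rw [← ENNReal.ofReal_mul hX]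
          refine ENNReal.ofReal_le_ofReal ?_
          have hk := kk_nonneg (d := d) (γ := γ) hβ.nonneg ⟪e, (σ : V d)⟫_ℝ
          rw [show (2:ℝ) / 2 = 1 by norm_num, Real.rpow_one]
          calc kk d γ β ⟪e, (σ : V d)⟫_ℝ * min 1 (X * (2 - 2 * ⟪e, (σ : V d)⟫_ℝ ^ 2))
              ≤ kk d γ β ⟪e, (σ : V d)⟫_ℝ * (X * (2 - 2 * ⟪e, (σ : V d)⟫_ℝ ^ 2)) :=
                mul_le_mul_of_nonneg_left (min_le_right _ _) hk
            _ = _ := by ring
      _ = ENNReal.ofReal X * ∫⁻ σ : Sp d, ENNReal.ofReal (kk d γ β ⟪e, (σ : V d)⟫_ℝ *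
            (2 - 2 * ⟪e, (σ : V d)⟫_ℝ ^ 2) ^ ((2:ℝ) / 2)) ∂(sm d) := lintegral_const_mul _ hkm
      _ ≤ ENNReal.ofReal (X ^ s) * C1 := by
          refine mul_le_mul' (ENNReal.ofReal_le_ofReal ?_) (h1 β hβ e he)
          rcases hX.eq_or_lt with h | h
          · rw [← h, Real.zero_rpow hs0.ne']
          · calc X = X ^ (1:ℝ) := (Real.rpow_one X).symm
              _ ≤ X ^ s := Real.rpow_le_rpow_of_exponent_ge h hX1 hs1.le
  · refine le_add_left ?_
    have hL1 : 1 ≤ Real.sqrt X := by rw [Real.one_le_sqrt]; exact hX1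
    have hL2 : Real.sqrt X ^ 2 = X := Real.sq_sqrt hX
    have hLs : Real.sqrt X ^ (2 * s) = X ^ s := by
      rw [Real.sqrt_eq_rpow, ← Real.rpow_mul hX]; congr 1; ring
    have hE' := hE e he (Real.sqrt X) hL1
    rw [hL2, hLs] at hE'
    have hmm : Measurable (fun σ : Sp d => ENNReal.ofReal (((1 - |⟪e, (σ : V d)⟫_ℝ|) / 2) ^ (-(((d : ℝ) - 1) / 2 + s)) *
        min 1 ((1 - |⟪e, (σ : V d)⟫_ℝ|) * X))) := by
      have : Measurable (fun σ : Sp d => (σ : V d)) := measurable_subtype_coe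
      fun_prop
    calc _ ≤ ∫⁻ σ : Sp d, ENNReal.ofReal A * ENNReal.ofReal (((1 - |⟪e, (σ : V d)⟫_ℝ|) / 2) ^ (-(((d : ℝ) - 1) / 2 + s)) *
        min 1 ((1 - |⟪e, (σ : V d)⟫_ℝ|) * X)) ∂(sm d) := by
          refine lintegral_mono fun σ => ?_
          set τ := ⟪e, (σ : V d)⟫_ℝ with hτ
          by_cases h0 : kk d γ β τ = 0
          · simp [h0]
          · obtain ⟨k1, k2, k3, k4⟩ := kk_pos hβ hγ h0
            have hτ1 : τ < 1 := by
              by_contra hlt; push Not at hlt; nlinarith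
            have h1c : 0 < 2 - 2 * τ ^ 2 := by linarith
            have hb0 : β (2 * τ ^ 2 - 1) ≠ 0 := by
              unfold kk at h0; rw [if_pos k1] at h0; exact right_ne_zero_of_mul h0
            have hK := hβ.K_nonneg hb0
            have hb := hβ.bound (2 * τ ^ 2 - 1) (by linarith) (by linarith)
            rw [show 1 - (2 * τ ^ 2 - 1) = 2 - 2 * τ ^ 2 by ring] at hb
            rw [← ENNReal.ofReal_mul hA0]
            refine ENNReal.ofReal_le_ofReal ?_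
            rw [abs_of_pos k1]
            have m1 : (2 - 2 * τ ^ 2) ^ (-(((d : ℝ) - 1) / 2 + s)) ≤ ((1 - τ) / 2) ^ (-(((d : ℝ) - 1) / 2 + s)) :=
              Real.rpow_le_rpow_of_nonpos (by linarith) (by nlinarith) (by linarith)
            have hy : 0 ≤ (1 - τ) * X := mul_nonneg (by linarith) hX
            have m2 : min 1 (X * (2 - 2 * τ ^ 2)) ≤ 4 * min 1 ((1 - τ) * X) := by
              have m3 : X * (2 - 2 * τ ^ 2) ≤ 4 * ((1 - τ) * X) := by
                have : 2 - 2 * τ ^ 2 ≤ 4 * (1 - τ) := by nlinarith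
                nlinarith
              rcases le_total ((1 - τ) * X) 1 with h | h
              · rw [min_eq_right h]
                exact (min_le_right _ _).trans m3
              · rw [min_eq_left h]
                exact (min_le_left _ _).trans (by norm_num)
            have m4 : 0 ≤ min 1 (X * (2 - 2 * τ ^ 2)) := le_min zero_le_one (mul_nonneg hX h1c.le)
            have m5 : 0 ≤ min 1 ((1 - τ) * X) := le_min zero_le_one hy
            have hK' : K ≤ |K| := le_abs_self K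
            have m6 : 0 ≤ ((1 - τ) / 2) ^ (-(((d : ℝ) - 1) / 2 + s)) := Real.rpow_nonneg (by linarith) _
            have m7 : kk d γ β τ ≤ 2 * 2 ^ d * (|K| * ((1 - τ) / 2) ^ (-(((d : ℝ) - 1) / 2 + s))) := by
              refine k4.trans (mul_le_mul_of_nonneg_left (hb.trans ?_) (by positivity))
              exact mul_le_mul hK' m1 (Real.rpow_nonneg h1c.le _) (abs_nonneg K)
            calc kk d γ β τ * min 1 (X * (2 - 2 * τ ^ 2))
                ≤ (2 * 2 ^ d * (|K| * ((1 - τ) / 2) ^ (-(((d : ℝ) - 1) / 2 + s)))) * (4 * min 1 ((1 - τ) * X)) :=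
                  mul_le_mul m7 m2 m4 (by positivity)
              _ = A * (((1 - τ) / 2) ^ (-(((d : ℝ) - 1) / 2 + s)) * min 1 ((1 - τ) * X)) := by rw [hA]; ring
      _ = ENNReal.ofReal A * ∫⁻ σ : Sp d, ENNReal.ofReal (((1 - |⟪e, (σ : V d)⟫_ℝ|) / 2) ^ (-(((d : ℝ) - 1) / 2 + s)) *
        min 1 ((1 - |⟪e, (σ : V d)⟫_ℝ|) * X)) ∂(sm d) := lintegral_const_mul _ hmm
      _ ≤ ENNReal.ofReal A * ENNReal.ofReal (CE * X ^ s) := mul_le_mul' le_rfl hE'
      _ = _ := by rw [ENNReal.ofReal_mul hCE]; ring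

end Pool.Agent.H821.BL
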