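import Pool.Agent.H821.BL.End

/-! The estimate at a touching point for hard potentials with the endpoint moment `γ + 2s`, second part. -/

set_option autoImplicit false
open MeasureTheory Metric Set Filter Topology
open scoped ENNReal Real InnerProductSpace Pointwise

namespace Pool.Agent.H821.BL

open Pool.Agent.H821.BZ

variable {d : ℕ}

lemma inner_end {p K γ a m : ℝ} (hγ : γ ≤ 2) (hm : 0 ≤ m) {N : ℕ} {Cs : ℝ}
    (hCs : 0 ≤ Cs) (hsec : ∀ v h : V d, ψ N v h + ψ N v (-h) ≤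
      φ N v * (2 + Cs * min 1 (‖h‖ ^ 2 / (1 + ‖v‖ ^ 2))))
    {β : ℝ → ℝ} (hβ : IsKer p K β) (v z : V d) (hz : z ≠ 0) {D : ℝ≥0∞}
    (hD : ∀ X : ℝ, 0 ≤ X → ∫⁻ σ : Sp d, ENNReal.ofReal (kk d γ β ⟪‖z‖⁻¹ • z, (σ : V d)⟫_ℝ *
      min 1 (X * (2 - 2 * ⟪‖z‖⁻¹ • z, (σ : V d)⟫_ℝ ^ 2))) ∂(sm d) ≤ ENNReal.ofReal (X ^ (a / 2)) * D) :
    ∫⁻ σ : Sp d, ENNReal.ofReal (kk d γ β (⟪z, (σ : V d)⟫_ℝ / ‖z‖)) * ENNReal.ofReal (m * ψ N v (hh (σ : V d) z)) ∂(sm d)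
      ≤ ENNReal.ofReal (m * φ N v) * (AA d γ β (‖z‖⁻¹ • z) +
        ENNReal.ofReal (Cs * (‖z‖ ^ 2 / (1 + ‖v‖ ^ 2)) ^ (a / 2)) * D) := by
  have hz0 : 0 < ‖z‖ := norm_pos_iff.2 hz
  have hφ := φ_pos N v
  have hcoe : Measurable (fun σ : Sp d => (σ : V d)) := measurable_subtype_coe
  have hkm : Measurable (fun σ : Sp d => ENNReal.ofReal (kk d γ β (⟪z, (σ : V d)⟫_ℝ / ‖z‖))) :=
    ((measurable_kk hβ.meas).comp ((measurable_const.inner hcoe).div_const _)).ennreal_ofReal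
  have hhm : Measurable (fun σ : Sp d => hh (σ : V d) z) :=
    measurable_hh.comp (measurable_const.prodMk hcoe)
  have hpm : Measurable (fun σ : Sp d => ENNReal.ofReal (m * ψ N v (hh (σ : V d) z))) :=
    (((measurable_ψ N v).comp hhm).const_mul m).ennreal_ofReal
  have hkpm : Measurable (fun σ : Sp d => ENNReal.ofReal (kk d γ β (⟪z, (σ : V d)⟫_ℝ / ‖z‖)) *
      ENNReal.ofReal (m * ψ N v (hh (σ : V d) z))) := hkm.mul hpm
  set I := ∫⁻ σ : Sp d, ENNReal.ofReal (kk d γ β (⟪z, (σ : V d)⟫_ℝ / ‖z‖)) *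
    ENNReal.ofReal (m * ψ N v (hh (σ : V d) z)) ∂(sm d) with hI
  have hI' : I = ∫⁻ σ : Sp d, ENNReal.ofReal (kk d γ β (⟪z, (σ : V d)⟫_ℝ / ‖z‖)) *
    ENNReal.ofReal (m * ψ N v (-(hh (σ : V d) z))) ∂(sm d) := by
    rw [hI, ← lintegral_rot ((ℝ ∙ z).reflection) hkpm]
    refine lintegral_congr fun σ => ?_
    rw [rot_coe]
    by_cases hs : ⟪z, (σ : V d)⟫_ℝ = 0
    · have h1 : ⟪z, (ℝ ∙ z).reflection (σ : V d)⟫_ℝ = 0 := by
        have h0 : (ℝ ∙ z).reflection (σ : V d) = (2 * ⟪z, (σ : V d)⟫_ℝ / ‖z‖ ^ 2) • z - (σ : V d) := by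
          rw [Submodule.reflection_singleton_apply, ← Nat.cast_smul_eq_nsmul ℝ, smul_smul]
          congr 2
          simp; ring
        rw [h0, hs]; simp [hs]
      rw [h1, hs]; simp [kk]
    · obtain ⟨h1, h2⟩ := hh_reflect hz hs
      rw [h2, h1]
  have h2I : 2 * I ≤ 2 * (ENNReal.ofReal (m * φ N v) * (AA d γ β (‖z‖⁻¹ • z) +
        ENNReal.ofReal (Cs * (‖z‖ ^ 2 / (1 + ‖v‖ ^ 2)) ^ (a / 2)) * D)) := by
    calc 2 * I = I + I := two_mul I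
      _ = ∫⁻ σ : Sp d, (ENNReal.ofReal (kk d γ β (⟪z, (σ : V d)⟫_ℝ / ‖z‖)) * ENNReal.ofReal (m * ψ N v (hh (σ : V d) z)) +
            ENNReal.ofReal (kk d γ β (⟪z, (σ : V d)⟫_ℝ / ‖z‖)) * ENNReal.ofReal (m * ψ N v (-(hh (σ : V d) z)))) ∂(sm d) := by
          rw [lintegral_add_left hkpm, ← hI, ← hI']
      _ ≤ ∫⁻ σ : Sp d, (ENNReal.ofReal (m * φ N v) * (2 * ENNReal.ofReal (kk d γ β ⟪‖z‖⁻¹ • z, (σ : V d)⟫_ℝ) +
            ENNReal.ofReal Cs *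
            ENNReal.ofReal (kk d γ β ⟪‖z‖⁻¹ • z, (σ : V d)⟫_ℝ *
              min 1 ((‖z‖ ^ 2 / (1 + ‖v‖ ^ 2)) * (2 - 2 * ⟪‖z‖⁻¹ • z, (σ : V d)⟫_ℝ ^ 2))))) ∂(sm d) := by
          refine lintegral_mono fun σ => ?_
          rw [cos_eq]
          set τ := ⟪‖z‖⁻¹ • z, (σ : V d)⟫_ℝ with hτ
          by_cases h0 : kk d γ β τ = 0
          · simp [h0]
          · obtain ⟨h1, h2, h3, h4⟩ := kk_pos hβ hγ h0
            have hk0 : 0 ≤ kk d γ β τ := kk_nonneg hβ.nonneg _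
            have h5 : 0 < 2 - 2 * τ ^ 2 := by linarith
            have e2 : 2 * ENNReal.ofReal (kk d γ β τ) = ENNReal.ofReal (2 * kk d γ β τ) := by
              rw [ENNReal.ofReal_mul (by norm_num)]; simp
            rw [← mul_add, ← ENNReal.ofReal_add (mul_nonneg hm (ψ_nonneg _ _ _)) (mul_nonneg hm (ψ_nonneg _ _ _)),
              ← ENNReal.ofReal_mul hk0, ← ENNReal.ofReal_mul (by positivity), e2,
              ← ENNReal.ofReal_add (by positivity) (by positivity), ← ENNReal.ofReal_mul (by positivity)]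
            refine ENNReal.ofReal_le_ofReal ?_
            have hs := hsec v (hh (σ : V d) z)
            have hzs : 0 < ⟪z, (σ : V d)⟫_ℝ := by
              rw [hτ, ← cos_eq] at h1
              rwa [lt_div_iff₀ hz0, zero_mul] at h1
            have hn : ‖hh (σ : V d) z‖ ^ 2 ≤ ‖z‖ ^ 2 * (2 - 2 * τ ^ 2) := by
              rw [norm_hh_sq (by simp) hzs, cos_eq, ← hτ, div_le_iff₀ (by positivity)]
              have : 0 ≤ ‖z‖ ^ 2 * (1 - τ ^ 2) := by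
                have : 0 ≤ 1 - τ ^ 2 := by linarith
                positivity
              nlinarith
            have h7 : 0 ≤ min 1 ((‖z‖ ^ 2 / (1 + ‖v‖ ^ 2)) * (2 - 2 * τ ^ 2)) :=
              le_min zero_le_one (mul_nonneg (by positivity) h5.le)
            have hmin : min 1 (‖hh (σ : V d) z‖ ^ 2 / (1 + ‖v‖ ^ 2)) ≤
                min 1 ((‖z‖ ^ 2 / (1 + ‖v‖ ^ 2)) * (2 - 2 * τ ^ 2)) := by
              refine min_le_min_left 1 ?_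
              rw [div_mul_eq_mul_div]; gcongr
            calc kk d γ β τ * (m * ψ N v (hh (σ : V d) z) + m * ψ N v (-hh (σ : V d) z))
                = kk d γ β τ * m * (ψ N v (hh (σ : V d) z) + ψ N v (-hh (σ : V d) z)) := by ring
              _ ≤ kk d γ β τ * m * (φ N v * (2 + Cs * min 1 ((‖z‖ ^ 2 / (1 + ‖v‖ ^ 2)) * (2 - 2 * τ ^ 2)))) := by
                  refine mul_le_mul_of_nonneg_left (hs.trans ?_) (by positivity)
                  gcongr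
              _ = _ := by ring
      _ = ENNReal.ofReal (m * φ N v) * (2 * AA d γ β (‖z‖⁻¹ • z) +
            ENNReal.ofReal Cs *
            ∫⁻ σ : Sp d, ENNReal.ofReal (kk d γ β ⟪‖z‖⁻¹ • z, (σ : V d)⟫_ℝ *
              min 1 ((‖z‖ ^ 2 / (1 + ‖v‖ ^ 2)) * (2 - 2 * ⟪‖z‖⁻¹ • z, (σ : V d)⟫_ℝ ^ 2))) ∂(sm d)) := by
          have hm1 : Measurable (fun σ : Sp d => ENNReal.ofReal (kk d γ β ⟪‖z‖⁻¹ • z, (σ : V d)⟫_ℝ)) :=
            ((measurable_kk hβ.meas).comp (measurable_const.inner hcoe)).ennreal_ofReal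
          have hm2 : Measurable (fun σ : Sp d => ENNReal.ofReal (kk d γ β ⟪‖z‖⁻¹ • z, (σ : V d)⟫_ℝ *
              min 1 ((‖z‖ ^ 2 / (1 + ‖v‖ ^ 2)) * (2 - 2 * ⟪‖z‖⁻¹ • z, (σ : V d)⟫_ℝ ^ 2)))) := by
            refine Measurable.ennreal_ofReal (((measurable_kk hβ.meas).comp (measurable_const.inner hcoe)).mul ?_)
            fun_prop
          have hm3 : Measurable (fun σ : Sp d => (2 * ENNReal.ofReal (kk d γ β ⟪‖z‖⁻¹ • z, (σ : V d)⟫_ℝ) +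
              ENNReal.ofReal Cs *
              ENNReal.ofReal (kk d γ β ⟪‖z‖⁻¹ • z, (σ : V d)⟫_ℝ *
                min 1 ((‖z‖ ^ 2 / (1 + ‖v‖ ^ 2)) * (2 - 2 * ⟪‖z‖⁻¹ • z, (σ : V d)⟫_ℝ ^ 2))))) :=
            (hm1.const_mul 2).add (hm2.const_mul _)
          rw [lintegral_const_mul _ hm3, lintegral_add_left (hm1.const_mul 2), lintegral_const_mul _ hm1, lintegral_const_mul _ hm2]
          rfl
      _ ≤ ENNReal.ofReal (m * φ N v) * (2 * AA d γ β (‖z‖⁻¹ • z) +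
            2 * (ENNReal.ofReal (Cs * (‖z‖ ^ 2 / (1 + ‖v‖ ^ 2)) ^ (a / 2)) * D)) := by
          refine mul_le_mul' le_rfl (add_le_add le_rfl
            ((mul_le_mul' le_rfl (hD (‖z‖ ^ 2 / (1 + ‖v‖ ^ 2)) (by positivity))).trans ?_))
          rw [← mul_assoc, ← ENNReal.ofReal_mul hCs, two_mul]; exact le_add_self
      _ = _ := by rw [← mul_add, mul_left_comm]
  exact (ENNReal.mul_le_mul_iff_right (by norm_num) (by norm_num)).1 h2I

/-- the estimate for one relative position -/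
lemma per_z_end (hd : 2 ≤ d) {p K γ a m δ Cs : ℝ} {n : ℕ} {β : ℝ → ℝ} (hβ : IsKer p K β)
    (hγ0 : 0 ≤ γ) (hγ2 : γ ≤ 2) (hn : d + γ < 2 * n) (hp : p + 2 ≤ n + 2) (ha0 : 0 < a) (ha2 : a ≤ 2) (hm : 0 ≤ m) (hCs : 0 ≤ Cs)
    (hδ : 0 < δ)
    (hb1 : ∀ v z h : V d, ⟪z, h⟫_ℝ = 0 → 1 / δ ≤ ‖v‖ → ‖v + z‖ ≤ δ * ‖v‖ →
      ψ (n + 1 + 1) v h + ψ (n + 1 + 1) v (-h) ≤ 2 * φ (n + 1 + 1) v * (‖z‖ ^ 2 / (‖z‖ ^ 2 + ‖h‖ ^ 2)) ^ (n + 1))
    (hb2 : ∀ v z h : V d, ⟪z, h⟫_ℝ = 0 → 1 / δ ≤ ‖v‖ → ‖v + h‖ ≤ δ * ‖v‖ → ‖h‖ ≤ ‖z‖ →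
      φ (n + 1 + 1) (v + z) ≤ φ (n + 1 + 1) v * (‖h‖ ^ 2 / (‖z‖ ^ 2 + ‖h‖ ^ 2)) ^ (n + 1))
    (hsec : ∀ v h : V d, ψ (n + 1 + 1) v h + ψ (n + 1 + 1) v (-h) ≤
      φ (n + 1 + 1) v * (2 + Cs * min 1 (‖h‖ ^ 2 / (1 + ‖v‖ ^ 2))))
    {C0 D : ℝ≥0∞} {e : V d} (he : ‖e‖ = 1)
    (hA : ∀ e : V d, ‖e‖ = 1 → AA d γ β e ≤ BB d β e + C0)
    (hD : ∀ e : V d, ‖e‖ = 1 → ∀ X : ℝ, 0 ≤ X → ∫⁻ σ : Sp d, ENNReal.ofReal (kk d γ β ⟪e, (σ : V d)⟫_ℝ *
      min 1 (X * (2 - 2 * ⟪e, (σ : V d)⟫_ℝ ^ 2))) ∂(sm d) ≤ ENNReal.ofReal (X ^ (a / 2)) * D)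
    (v z : V d) (hz : z ≠ 0) {F : ℝ} (hF : 0 ≤ F) :
    ENNReal.ofReal (‖z‖ ^ γ) * ENNReal.ofReal F * (I1 γ β (n + 1 + 1) m v z + I2 γ β (n + 1 + 1) m v z) ≤
      ENNReal.ofReal (m * φ (n + 1 + 1) v) * BB d β e * (ENNReal.ofReal (‖z‖ ^ γ) * ENNReal.ofReal F) +
      ENNReal.ofReal (m * φ (n + 1 + 1) v) * (ENNReal.ofReal ((1 + 1 / δ) ^ 4) *
        (C0 + ENNReal.ofReal Cs * D + ENNReal.ofReal (2 * 2 ^ d * K * 256 ^ (n + 1 + 1)) * (sm d) univ)) *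
        ENNReal.ofReal (F * (1 + ‖v + z‖) ^ (γ + a)) := by
  have hn1 : ‖(‖z‖⁻¹ • z)‖ = 1 := by
    rw [norm_smul, norm_inv, norm_norm, inv_mul_cancel₀ (norm_ne_zero_iff.2 hz)]
  have hBe : BB d β (‖z‖⁻¹ • z) = BB d β e := zonal_eq _ e hn1 he hβ.meas.ennreal_ofReal
  by_cases hbk : 1 / δ ≤ ‖v‖ ∧ ‖v + z‖ ≤ δ * ‖v‖
  · obtain ⟨hv, hw⟩ := hbk
    have h1 := I1_bulk (γ := γ) hβ hm v z hz (hb1 v z) hv hw
    have h2 := I2_bulk (γ := γ) hβ hm v z (fun y => hb2 v y z) hv hw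
    have h3 := povz hd hβ hγ0 hn (‖z‖⁻¹ • z) hn1
    refine le_add_right ?_
    calc ENNReal.ofReal (‖z‖ ^ γ) * ENNReal.ofReal F * (I1 γ β (n + 1 + 1) m v z + I2 γ β (n + 1 + 1) m v z)
        ≤ ENNReal.ofReal (‖z‖ ^ γ) * ENNReal.ofReal F * (ENNReal.ofReal (m * φ (n + 1 + 1) v) * BB d β e) := by
          refine mul_le_mul' le_rfl ((add_le_add h1 h2).trans ?_)
          rw [← mul_add, ← hBe]
          exact mul_le_mul' le_rfl h3
      _ = _ := by ring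
  · set L : ℝ := 1 + 1 / δ with hL
    have hL1 : 1 ≤ L := by rw [hL]; have : 0 < 1 / δ := by positivity
                           linarith
    have hw0 : 0 ≤ ‖v + z‖ := norm_nonneg _
    have hzL : ‖z‖ ≤ L * (1 + ‖v + z‖) := by
      have h1 : ‖z‖ ≤ ‖v + z‖ + ‖v‖ := by
        have := norm_sub_le (v + z) v; rwa [add_sub_cancel_left] at this
      have h2 : ‖v‖ ≤ 1 / δ * (1 + ‖v + z‖) := by
        rw [not_and_or] at hbk
        rcases hbk with h | h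
        · push Not at h
          have : 0 < 1 / δ := by positivity
          nlinarith [mul_nonneg this.le hw0]
        · push Not at h
          have : ‖v‖ ≤ 1 / δ * ‖v + z‖ := by
            rw [one_div, ← div_eq_inv_mul, le_div_iff₀ hδ]; linarith
          have h3 : 0 < 1 / δ := by positivity
          linarith
      rw [hL]; nlinarith
    have hz0 : 0 ≤ ‖z‖ := norm_nonneg z
    have hpow : ∀ x : ℝ, 0 ≤ x → x ≤ 2 → ‖z‖ ^ x ≤ L ^ 2 * (1 + ‖v + z‖) ^ x := by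
      intro x hx0 hx2
      calc ‖z‖ ^ x ≤ (L * (1 + ‖v + z‖)) ^ x := Real.rpow_le_rpow hz0 hzL hx0
        _ = L ^ x * (1 + ‖v + z‖) ^ x := Real.mul_rpow (by positivity) (by positivity)
        _ ≤ L ^ (2:ℝ) * (1 + ‖v + z‖) ^ x := by
            refine mul_le_mul_of_nonneg_right ?_ (by positivity)
            exact Real.rpow_le_rpow_of_exponent_le hL1 hx2
        _ = L ^ 2 * (1 + ‖v + z‖) ^ x := by norm_cast
    have hg := hpow γ hγ0 hγ2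
    have hga := hpow a ha0.le ha2
    have hratio : (‖z‖ ^ 2 / (1 + ‖v‖ ^ 2)) ^ (a / 2) ≤ L ^ 2 * (1 + ‖v + z‖) ^ a := by
      refine le_trans ?_ hga
      calc (‖z‖ ^ 2 / (1 + ‖v‖ ^ 2)) ^ (a / 2) ≤ (‖z‖ ^ 2) ^ (a / 2) := by
            refine Real.rpow_le_rpow (by positivity) ?_ (by positivity)
            exact div_le_self (by positivity) (by nlinarith [sq_nonneg ‖v‖])
        _ = ‖z‖ ^ a := by
            rw [← Real.rpow_natCast ‖z‖ 2, ← Real.rpow_mul hz0]; congr 1; push_cast; ring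
    have h1w : 1 ≤ 1 + ‖v + z‖ := by linarith
    have ha1 : 1 ≤ (1 + ‖v + z‖) ^ a := Real.one_le_rpow h1w ha0.le
    have hL4 : L ^ 2 ≤ L ^ 4 := pow_le_pow_right₀ hL1 (by norm_num)
    have hwγ : 0 ≤ (1 + ‖v + z‖) ^ γ := by positivity
    -- real inequalities
    have r1 : ‖z‖ ^ γ * F ≤ L ^ 4 * (F * (1 + ‖v + z‖) ^ (γ + a)) := by
      rw [Real.rpow_add (by linarith)]
      calc ‖z‖ ^ γ * F ≤ L ^ 2 * (1 + ‖v + z‖) ^ γ * F := mul_le_mul_of_nonneg_right hg hF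
        _ ≤ L ^ 4 * (1 + ‖v + z‖) ^ γ * F := by gcongr
        _ = L ^ 4 * (F * ((1 + ‖v + z‖) ^ γ * 1)) := by ring
        _ ≤ L ^ 4 * (F * ((1 + ‖v + z‖) ^ γ * (1 + ‖v + z‖) ^ a)) := by gcongr
    have r2 : ‖z‖ ^ γ * F * (Cs * (‖z‖ ^ 2 / (1 + ‖v‖ ^ 2)) ^ (a / 2)) ≤ Cs * (L ^ 4 * (F * (1 + ‖v + z‖) ^ (γ + a))) := by
      rw [Real.rpow_add (by linarith)]
      calc ‖z‖ ^ γ * F * (Cs * (‖z‖ ^ 2 / (1 + ‖v‖ ^ 2)) ^ (a / 2))
          ≤ (L ^ 2 * (1 + ‖v + z‖) ^ γ) * F * (Cs * (L ^ 2 * (1 + ‖v + z‖) ^ a)) := by gcongr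
        _ = _ := by ring
    set Y := ENNReal.ofReal (F * (1 + ‖v + z‖) ^ (γ + a)) with hY
    have s1 : ENNReal.ofReal (‖z‖ ^ γ) * ENNReal.ofReal F ≤ ENNReal.ofReal (L ^ 4) * Y := by
      rw [hY, ← ENNReal.ofReal_mul (by positivity), ← ENNReal.ofReal_mul (by positivity)]
      exact ENNReal.ofReal_le_ofReal r1
    have s2 : ENNReal.ofReal (‖z‖ ^ γ) * ENNReal.ofReal F * ENNReal.ofReal (Cs * (‖z‖ ^ 2 / (1 + ‖v‖ ^ 2)) ^ (a / 2)) ≤
        ENNReal.ofReal Cs * (ENNReal.ofReal (L ^ 4) * Y) := by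
      rw [hY, ← ENNReal.ofReal_mul (by positivity), ← ENNReal.ofReal_mul (by positivity), ← ENNReal.ofReal_mul (by positivity),
        ← ENNReal.ofReal_mul (by positivity)]
      exact ENNReal.ofReal_le_ofReal r2
    have hib : I1 γ β (n + 1 + 1) m v z ≤ ENNReal.ofReal (m * φ (n + 1 + 1) v) * (AA d γ β (‖z‖⁻¹ • z) +
        ENNReal.ofReal (Cs * (‖z‖ ^ 2 / (1 + ‖v‖ ^ 2)) ^ (a / 2)) * D) :=
      inner_end hγ2 hm hCs hsec hβ v z hz (hD _ hn1)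
    have hic := I2_crude (γ := γ) hβ hm hγ2 (N := n + 1 + 1) (by push_cast; linarith) v z
    have hAe : AA d γ β (‖z‖⁻¹ • z) ≤ BB d β e + C0 := (hA _ hn1).trans (by rw [hBe])
    set Φ := ENNReal.ofReal (m * φ (n + 1 + 1) v) with hΦ
    set C2 := ENNReal.ofReal (2 * 2 ^ d * K * 256 ^ (n + 1 + 1)) * (sm d) univ with hC2
    set G := ENNReal.ofReal (‖z‖ ^ γ) * ENNReal.ofReal F with hG
    calc G * (I1 γ β (n + 1 + 1) m v z + I2 γ β (n + 1 + 1) m v z)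
        ≤ G * (Φ * ((BB d β e + C0) + ENNReal.ofReal (Cs * (‖z‖ ^ 2 / (1 + ‖v‖ ^ 2)) ^ (a / 2)) * D) + Φ * C2) := by
          refine mul_le_mul' le_rfl (add_le_add (hib.trans ?_) hic)
          gcongr
      _ = Φ * BB d β e * G + Φ * (C0 * G + (G * ENNReal.ofReal (Cs * (‖z‖ ^ 2 / (1 + ‖v‖ ^ 2)) ^ (a / 2))) * D + C2 * G) := by ring
      _ ≤ Φ * BB d β e * G + Φ * (C0 * (ENNReal.ofReal (L ^ 4) * Y) + (ENNReal.ofReal Cs * (ENNReal.ofReal (L ^ 4) * Y)) * D +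
            C2 * (ENNReal.ofReal (L ^ 4) * Y)) := by gcongr
      _ = _ := by ring

/-- the collision operator at a point where `f` touches `m (1+|v|²)^{-N}` from below, hard potentials -/
theorem est_end (hd : 2 ≤ d) {s K γ : ℝ} (hs0 : 0 < s) (hs1 : s < 1)
    (hγ0 : 0 ≤ γ) (hγ2 : γ < 2) {N : ℕ} (hN : (d:ℝ) + 6 ≤ 2 * N) :
    ∃ C : ℝ, 0 ≤ C ∧ ∀ β : ℝ → ℝ, IsKer ((d - 1) / 2 + s) K β → ∀ f : V d → ℝ, Measurable f →
      (∀ w, 0 ≤ f w) → ∀ (m : ℝ) (v : V d), (∀ w, f w ≤ m * φ N w) → f v = m * φ N v →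
      gain γ β f v ≤ loss γ β f v + ENNReal.ofReal (C * f v) * mom 0 (γ + 2 * s) f v := by
  obtain ⟨a, ha⟩ : ∃ a, a = 2 * s := ⟨_, rfl⟩
  rw [← ha]
  have ha0 : 0 < a := by linarith
  have ha2 : a ≤ 2 := by linarith
  have : Nontrivial (Fin d) := Fin.nontrivial_iff_two_le.2 hd
  have : Nonempty (Fin d) := inferInstance
  have : Nontrivial (V d) := inferInstance
  obtain ⟨i0⟩ : Nonempty (Fin d) := inferInstance
  have hd0 : (0:ℝ) ≤ d := by positivity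
  obtain ⟨n, rfl⟩ : ∃ n, N = n + 1 + 1 := by
    rcases N with _ | _ | n
    · exfalso; push_cast at hN; linarith
    · exfalso; push_cast at hN; linarith
    · exact ⟨n, rfl⟩
  have hn : d + γ < 2 * n := by push_cast at hN; linarith
  set e : V d := EuclideanSpace.single i0 1 with he
  have hen : ‖e‖ = 1 := by simp [he]
  have hd2 : (2:ℝ) ≤ d := by exact_mod_cast hd
  obtain ⟨C0, hC0, hA⟩ := cancel (K := K) (γ := γ) hd hs1 (by linarith)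
  obtain ⟨D, hD, hDD⟩ := kk_end (K := K) (γ := γ) hd hs0 hs1 (by linarith)
  rw [← ha] at hDD
  obtain ⟨Cs, hCs, hsec⟩ := secdiff (d := d) (n + 1 + 1)
  obtain ⟨δ, hδ, hδ2, hb1, hb2⟩ := bulk (d := d) (n + 1)
  set Ct : ℝ≥0∞ := ENNReal.ofReal ((1 + 1 / δ) ^ 4) *
        (C0 + ENNReal.ofReal Cs * D + ENNReal.ofReal (2 * 2 ^ d * K * 256 ^ (n + 1 + 1)) * (sm d) univ) with hCt
  have hCtop : Ct ≠ ⊤ := by
    rw [hCt]
    exact ENNReal.mul_ne_top ENNReal.ofReal_ne_top (ENNReal.add_ne_top.2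
      ⟨ENNReal.add_ne_top.2 ⟨hC0, ENNReal.mul_ne_top ENNReal.ofReal_ne_top hD⟩,
      ENNReal.mul_ne_top ENNReal.ofReal_ne_top (measure_ne_top _ _)⟩)
  refine ⟨Ct.toReal, ENNReal.toReal_nonneg, fun β hβ f hf hf0 m v hle hv => ?_⟩
  have hφv := φ_pos (n + 1 + 1) v
  have hm : 0 ≤ m := by
    have := hf0 v; rw [hv] at this
    exact nonneg_of_mul_nonneg_left this hφv
  have hae0 : ∀ᵐ u : V d, u ≠ 0 := by
    rw [ae_iff]; simp
  have hGm : Measurable (fun z : V d => ENNReal.ofReal (‖z‖ ^ γ) * ENNReal.ofReal (f (v + z))) :=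
    (measurable_norm.pow_const γ).ennreal_ofReal.mul ((hf.comp (measurable_const.add measurable_id)).ennreal_ofReal)
  have hfz : Measurable (fun z : V d => f (v + z)) := hf.comp (measurable_const.add measurable_id)
  have hYm : Measurable (fun z : V d => ENNReal.ofReal (f (v + z) * (1 + ‖v + z‖) ^ (γ + a))) := by
    refine (hfz.mul ?_).ennreal_ofReal
    fun_prop
  have hsec' : ∀ v h : V d, ψ (n + 1 + 1) v h + ψ (n + 1 + 1) v (-h) ≤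
      φ (n + 1 + 1) v * (2 + Cs * min 1 (‖h‖ ^ 2 / (1 + ‖v‖ ^ 2))) := fun v h => by
    have := hsec v h
    unfold ψ; convert this using 2
  calc gain γ β f v ≤ ∫⁻ z : V d, ENNReal.ofReal (‖z‖ ^ γ) * ENNReal.ofReal (f (v + z)) *
        (I1 γ β (n + 1 + 1) m v z + I2 γ β (n + 1 + 1) m v z) := gain_le hβ hf v hle
    _ ≤ ∫⁻ z : V d, (ENNReal.ofReal (m * φ (n + 1 + 1) v) * BB d β e * (ENNReal.ofReal (‖z‖ ^ γ) * ENNReal.ofReal (f (v + z))) +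
          ENNReal.ofReal (m * φ (n + 1 + 1) v) * Ct * ENNReal.ofReal (f (v + z) * (1 + ‖v + z‖) ^ (γ + a))) := by
        refine lintegral_mono_ae (hae0.mono fun z hz => ?_)
        exact per_z_end hd hβ hγ0 hγ2.le hn (by push_cast at hN; linarith) ha0 ha2 hm hCs hδ hb1 hb2 hsec' hen
          (hA β hβ) (hDD β hβ) v z hz (hf0 _)
    _ = ENNReal.ofReal (m * φ (n + 1 + 1) v) * BB d β e * (∫⁻ z : V d, ENNReal.ofReal (‖z‖ ^ γ) * ENNReal.ofReal (f (v + z))) +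
          ENNReal.ofReal (m * φ (n + 1 + 1) v) * Ct * ∫⁻ z : V d, ENNReal.ofReal (f (v + z) * (1 + ‖v + z‖) ^ (γ + a)) := by
        rw [lintegral_add_left (hGm.const_mul _), lintegral_const_mul _ hGm, lintegral_const_mul _ hYm]
    _ ≤ ENNReal.ofReal (m * φ (n + 1 + 1) v) * BB d β e * (∫⁻ z : V d, ENNReal.ofReal (‖z‖ ^ γ) * ENNReal.ofReal (f (v + z))) +
          ENNReal.ofReal (m * φ (n + 1 + 1) v) * Ct * mom 0 (γ + a) f v := by
        refine add_le_add le_rfl (mul_le_mul' le_rfl ?_)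
        rw [mom_shift]
        refine lintegral_mono fun z => ENNReal.ofReal_le_ofReal ?_
        have h1 := hf0 (v + z)
        rw [Real.rpow_zero]; nlinarith
    _ = _ := by
        rw [loss_eq hβ.meas hf v e hen, ← hv, ENNReal.ofReal_mul ENNReal.toReal_nonneg, ENNReal.ofReal_toReal hCtop]
        ring

/-- the equation at a touching point, all potentials and scales -/
theorem touchE (hd : 2 ≤ d) {s K γ a : ℝ} (hs0 : 0 < s) (hs1 : s < 1) (hsa : 2 * s ≤ a) (ha2 : a ≤ 2)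
    (hγ0 : 0 ≤ γ) (hγ2 : γ < 2) {N : ℕ} (hN : (d:ℝ) + 6 ≤ 2 * N) :
    ∃ C : ℝ, 0 ≤ C ∧ ∀ b : ℝ → ℝ, IsAng ((d - 1) / 2 + s) K b → ∀ (T : ℝ) (f : ℝ → V d → V d → ℝ),
      IsSol γ b T f → ∀ t ∈ Ioo 0 T, ∀ (x v : V d) (m μ : ℝ), 1 ≤ μ → (∀ w, f t x w ≤ m * φs N μ w) →
      f t x v = m * φs N μ v →
      fderiv ℝ (fun p : ℝ × V d => f p.1 p.2 v) (t, x) (1, v) ≤
        C * f t x v * (momS γ (min γ 0) (max γ 0 + a) μ (f t x) v).toReal := by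
  have hd2 : (2:ℝ) ≤ d := by exact_mod_cast hd
  have hp : 0 ≤ ((d:ℝ) - 1) / 2 + s := by linarith
  have ha0 : 0 < a := by linarith
  have hγd : 0 < d + γ := by linarith
  obtain ⟨C, hC, hest⟩ : ∃ C : ℝ, 0 ≤ C ∧ ∀ β : ℝ → ℝ, IsKer ((d - 1) / 2 + s) (2 * (|K| * 2 ^ (((d:ℝ) - 1) / 2 + s))) β →
      ∀ f : V d → ℝ, Measurable f →
      (∀ w, 0 ≤ f w) → ∀ (m : ℝ) (v : V d), (∀ w, f w ≤ m * φ N w) → f v = m * φ N v →
      gain γ β f v ≤ loss γ β f v + ENNReal.ofReal (C * f v) * mom (min γ 0) (max γ 0 + a) f v := by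
    rcases hsa.eq_or_lt with h | h
    · rw [min_eq_right hγ0, max_eq_left hγ0, ← h]
      exact est_end hd hs0 hs1 hγ0 hγ2 hN
    · exact est_all hd hs1 h ha0 ha2 hγd hγ2 hN
  have hMB : MomB d (min γ 0) (max γ 0 + a) N := momB_all hd (min_le_right _ _)
    (by rcases le_total γ 0 with h | h
        · rw [min_eq_left h]; exact hγd
        · rw [min_eq_right h]; linarith)
    (by have : max γ 0 ≤ 2 := max_le hγ2.le (by norm_num)
        linarith) hN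
  obtain ⟨K1, hK1, hmom⟩ := hMB
  refine ⟨C, hC, fun b hb T f hf t ht x v m μ hμ hle hv => ?_⟩
  have hμ0 : 0 < μ := by linarith
  have htI : t ∈ Ico 0 T := ⟨ht.1.le, ht.2⟩
  have hfm := hf.measurable htI x
  have hf0 : ∀ w, 0 ≤ f t x w := hf.nonneg t htI x
  obtain ⟨m', hm', hmle⟩ := hf.decayφ htI N
  have hmt : mom (min γ 0) (max γ 0 + a) (f t x) v ≠ ⊤ :=
    ne_top_of_le_ne_top ENNReal.ofReal_ne_top (hmom (f t x) m' hm' (hmle t ⟨htI.1, le_rfl⟩ x) v)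
  have ha' : 0 ≤ max γ 0 + a := by have := le_max_right γ 0; linarith
  have hmS : momS γ (min γ 0) (max γ 0 + a) μ (f t x) v ≠ ⊤ :=
    ne_top_of_le_ne_top (ENNReal.mul_ne_top ENNReal.ofReal_ne_top hmt) (momS_le (min_le_right _ _) ha' hμ hf0 v)
  have hR : ENNReal.ofReal (C * f t x v) * momS γ (min γ 0) (max γ 0 + a) μ (f t x) v ≠ ⊤ :=
    ENNReal.mul_ne_top ENNReal.ofReal_ne_top hmS
  have hval : (ENNReal.ofReal (C * f t x v) * momS γ (min γ 0) (max γ 0 + a) μ (f t x) v).toReal =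
      C * f t x v * (momS γ (min γ 0) (max γ 0 + a) μ (f t x) v).toReal := by
    rw [ENNReal.toReal_mul, ENNReal.toReal_ofReal (mul_nonneg hC (hf0 v))]
  rw [← hval]
  refine le_of_tendsto (hf.eqn t ht x v) ?_
  filter_upwards [self_mem_nhdsWithin] with ε hε
  exact Qcut_le hd hp hb hε hfm hf0 v hR (est_scaled hest (isKer_βs hp hb hε) hfm hf0 hμ0 v hle hv)
    (rel_fin ha0.le hf0 v hmt)

end Pool.Agent.H821.BL
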