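import Pool.Agent.H821.BL.Soft2

/-! Soft potentials: localised rates theorem; Boltzmann. -/

set_option autoImplicit false
open MeasureTheory Metric Set Filter Topology
open scoped ENNReal Real InnerProductSpace Pointwise

namespace Pool.Agent.H821.BL

open Pool.Agent.H821.BZ

variable {d : ℕ}

/-- bounds on a compact time interval -/
lemma IsReg.bdd {T : ℝ} {f : ℝ → V d → V d → ℝ} (h : IsReg T f) {t₂ : ℝ} (ht₂ : t₂ ∈ Ico 0 T) :
    ∃ M, 0 ≤ M ∧ ∀ t ∈ Icc 0 t₂, ∀ x, rho f t x ≤ M ∧ ener f t x ≤ M ∧ ∀ v, f t x v ≤ M := by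
  obtain ⟨P, hP, hPb⟩ := hydro_le (d := d) (N := d + 3) (by push_cast; linarith [(by positivity : (0:ℝ) ≤ d)])
  obtain ⟨C, hC, hCb⟩ := h.decayφ ht₂ (d + 3)
  refine ⟨P * C + C, by positivity, fun t ht x => ?_⟩
  have h1 := hPb (f t x) C hC (h.nonneg t ⟨ht.1, ht.2.trans_lt ht₂.2⟩ x) (hCb t ht x)
  refine ⟨h1.1.trans (by linarith), h1.2.trans (by linarith), fun v => ?_⟩
  have h2 := (hCb t ht x v).trans (mul_le_mul_of_nonneg_left (φ_le_one _ v) hC)
  have : 0 ≤ P * C := by positivity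
  linarith

/-- weighted bounds give hydrodynamic bounds -/
lemma reg_hydro {T : ℝ} {f : ℝ → V d → V d → ℝ} (h : IsReg T f) (hT : 0 < T) (hr : Reg T f) : HB T f := by
  obtain ⟨M, hM⟩ := hr (d + 3)
  obtain ⟨P, hP, hPb⟩ := hydro_le (d := d) (N := d + 3) (by push_cast; linarith [(by positivity : (0:ℝ) ≤ d)])
  have h1 := (h.nonneg 0 ⟨le_rfl, hT⟩ 0 0).trans (hM 0 ⟨le_rfl, hT⟩ 0 0)
  have hM0 : 0 ≤ M := nonneg_of_mul_nonneg_left h1 (φ_pos _ 0)
  exact ⟨P * M, fun t ht x => hPb (f t x) M hM0 (h.nonneg t ht x) (hM t ht x)⟩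

/-- localised rates theorem for soft potentials: outside of `U` the densities are bounded -/
theorem rates_soft_loc (hd : 2 ≤ d) {γ : ℝ} (hγ : γ < 0) (hγd : 0 < d + γ) {T : ℝ} (hT : 0 < T)
    {f : ℝ → V d → V d → ℝ} (h : IsReg T f) (htouch : TouchEv γ T f) {α β' ω A : ℝ} (hα : 0 ≤ α) (hω : 0 ≤ ω)
    (hrate : (1 + γ / d) * α - γ / d * ω < 1)
    {U : V d → Prop} {B : ℝ} (hU : ∀ t ∈ Ico 0 T, ∀ x, ¬ U x → rho f t x ≤ B ∧ ener f t x ≤ B)
    {T' : ℝ} (hT' : T' ∈ Ico 0 T)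
    (hF : ∀ t ∈ Ico T' T, ∀ x v, f t x v ≤ A * (T - t) ^ (-ω))
    (hb' : ∀ t ∈ Ico T' T, ∀ x, U x → rho f t x ≤ A * (T - t) ^ (-α) ∧ ener f t x ≤ A * (T - t) ^ (-β')) :
    Reg T f := by
  obtain ⟨M, hM, hMb⟩ := h.bdd hT'
  set q := max 0 β' with hq
  have hq0 : 0 ≤ q := le_max_left _ _
  have hq2 : β' ≤ q := le_max_right _ _
  set B' := max |B| M with hB'
  have hB'0 : 0 ≤ B' := le_max_of_le_right hM
  set C0 := |A| + |A| * T ^ (q - β') + B' * T ^ α + B' * T ^ q + B' * T ^ ω with hC0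
  have c1 : 0 ≤ |A| := abs_nonneg A
  have c2 : 0 ≤ |A| * T ^ (q - β') := by positivity
  have c3 : 0 ≤ B' * T ^ α := by positivity
  have c4 : 0 ≤ B' * T ^ q := by positivity
  have c5 : 0 ≤ B' * T ^ ω := by positivity
  have k : ∀ e : ℝ, 0 ≤ e → B' * T ^ e ≤ C0 → ∀ t ∈ Ico 0 T, ∀ z : ℝ, z ≤ B' → z ≤ C0 * (T - t) ^ (-e) :=
    fun e he hC t ht z hz => by
      have hy : 0 < T - t := by linarith [ht.2]
      have h1 := const_le (B := B') (q := e) hy (by linarith [ht.1] : T - t ≤ T) he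
      rw [abs_of_nonneg hB'0] at h1
      exact (hz.trans h1).trans (mul_le_mul_of_nonneg_right hC (by positivity))
  have key : ∀ t ∈ Ico 0 T, ∀ x, (rho f t x ≤ B' ∧ ener f t x ≤ B') ∨
      (rho f t x ≤ A * (T - t) ^ (-α) ∧ ener f t x ≤ A * (T - t) ^ (-β')) := fun t ht x => by
    rcases le_total t T' with h1 | h1
    · left
      have := hMb t ⟨ht.1, h1⟩ x
      exact ⟨this.1.trans (le_max_right _ _), this.2.1.trans (le_max_right _ _)⟩
    · by_cases hx : U x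
      · right; exact hb' t ⟨h1, ht.2⟩ x hx
      · left
        have := hU t ht x hx
        exact ⟨this.1.trans ((le_abs_self B).trans (le_max_left _ _)),
          this.2.trans ((le_abs_self B).trans (le_max_left _ _))⟩
  have hAC : A ≤ C0 := by linarith [le_abs_self A]
  refine rates_soft hd hγ hγd hT h htouch (α := α) (β' := q) (ω := ω) (C0 := C0) hα hω hrate ?_ ?_ ?_
  · intro t ht x v
    have hy : 0 < T - t := by linarith [ht.2]
    rcases le_total t T' with h1 | h1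
    · exact k ω hω (by linarith) t ht _ (((hMb t ⟨ht.1, h1⟩ x).2.2 v).trans (le_max_right _ _))
    · exact (hF t ⟨h1, ht.2⟩ x v).trans (mul_le_mul_of_nonneg_right hAC (by positivity))
  · intro t ht x
    have hy : 0 < T - t := by linarith [ht.2]
    rcases key t ht x with h1 | h1
    · exact k α hα (by linarith) t ht _ h1.1
    · exact h1.1.trans (mul_le_mul_of_nonneg_right hAC (by positivity))
  · intro t ht x
    have hy : 0 < T - t := by linarith [ht.2]
    rcases key t ht x with h1 | h1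
    · exact k q hq0 (by linarith) t ht _ h1.2
    · refine (h1.2.trans (rpow_exp_le (T := T) hy (by linarith [ht.1]) hq2)).trans
        (mul_le_mul_of_nonneg_right (by linarith) (by positivity))

/-- the Boltzmann equation: regularity -/
lemma _root_.Pool.Agent.H821.BZ.IsSol.isReg {γ T : ℝ} {b : ℝ → ℝ} {f : ℝ → V d → V d → ℝ} (h : IsSol γ b T f) :
    IsReg T f := ⟨h.nonneg, h.periodic, h.cont, h.decay, h.diff⟩

/-- the Boltzmann equation: touching estimate -/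
lemma touchEv_boltz (hd : 2 ≤ d) {s K γ : ℝ} (hs0 : 0 < s) (hs1 : s < 1) (hγ : γ < 0) (hγd : 0 < d + γ)
    {b : ℝ → ℝ} (hb : IsAng (((d:ℝ) - 1) / 2 + s) K b) {T : ℝ} {f : ℝ → V d → V d → ℝ} (h : IsSol γ b T f) :
    TouchEv γ T f := by
  intro N hN
  obtain ⟨C, hC, hCt⟩ := touchS (K := K) hd hs0 hs1 (a := 2) (by linarith) le_rfl hγd (by linarith) hN
  exact ⟨C, hC, hCt b hb T f h⟩

end Pool.Agent.H821.BL
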