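import Pool.Agent.H821.BL.Rate

/-! The localised criterion if the moment of order `p` is bounded away from the point. -/

set_option autoImplicit false
open MeasureTheory Metric Set Filter Topology
open scoped ENNReal Real InnerProductSpace Pointwise

namespace Pool.Agent.H821.BL

open Pool.Agent.H821.BZ

variable {d : ℕ}

/-- the moments are bounded locally uniformly in time -/
lemma Mp_bdd {γ T : ℝ} {b : ℝ → ℝ} {f : ℝ → V d → V d → ℝ} (h : IsSol γ b T f) {t₂ : ℝ} (ht₂ : t₂ ∈ Ico 0 T)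
    {p : ℝ} (hp0 : 0 ≤ p) : ∃ M, 0 ≤ M ∧ ∀ t ∈ Icc 0 t₂, ∀ x, Mp p f t x ≤ M := by
  have hn : (d:ℝ) < 2 * ((d + 1 : ℕ) : ℝ) := by push_cast; linarith [(by positivity : (0:ℝ) ≤ d)]
  have hφi := integrable_φ (d := d) hn
  obtain ⟨k, hk⟩ := exists_nat_ge p
  have hk0 : (0:ℝ) ≤ k := by positivity
  obtain ⟨m, hm, hmle⟩ := h.decayφ ht₂ (d + 1 + k)
  have hP0 : 0 ≤ ∫ w : V d, φ (d + 1) w := integral_nonneg fun w => (φ_pos _ w).le
  refine ⟨m * ∫ w : V d, φ (d + 1) w, mul_nonneg hm hP0, fun t ht x => ?_⟩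
  have htI : t ∈ Ico 0 T := ⟨ht.1, ht.2.trans_lt ht₂.2⟩
  have hf0 := h.nonneg t htI x
  unfold Mp
  rw [← integral_const_mul]
  refine integral_mono (integrable_pp h htI x hp0) (hφi.const_mul m) fun w => ?_
  have e : φ (d + 1 + k) w * (1 + ‖w‖ ^ 2) ^ k = φ (d + 1) w := by
    unfold φ
    have : (0:ℝ) < 1 + ‖w‖ ^ 2 := by positivity
    rw [pow_add (1 + ‖w‖ ^ 2) (d + 1) k]; field_simp
  calc f t x w * ‖w‖ ^ p ≤ f t x w * (1 + ‖w‖ ^ 2) ^ k :=
        mul_le_mul_of_nonneg_left (rpow_le_nat hp0 (by linarith) (norm_nonneg w)) (hf0 w)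
    _ ≤ (m * φ (d + 1 + k) w) * (1 + ‖w‖ ^ 2) ^ k :=
        mul_le_mul_of_nonneg_right (hmle t ht x w) (by positivity)
    _ = m * φ (d + 1) w := by rw [mul_assoc, e]

/-- the localised criterion, with the moment of order `p` bounded away from the point -/
theorem critG_loc' (hd : 2 ≤ d) {s K γ p : ℝ} (hs0 : 0 < s) (hs1 : s < 1) (hγ0 : 0 ≤ γ) (hγ2 : γ < 2)
    (hp : γ + 2 * s ≤ p)
    {b : ℝ → ℝ} (hb : IsAng (((d:ℝ) - 1) / 2 + s) K b) {T : ℝ} (hT : 0 < T) {f : ℝ → V d → V d → ℝ} (h : IsSol γ b T f)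
    {r θ : ℝ → ℝ} (hθc : ContinuousOn θ (Ico 0 T)) (hθm : MonotoneOn θ (Ico 0 T)) (hθ1 : ∀ t ∈ Ico 0 T, 1 ≤ θ t)
    {c g : ℝ} (hc : 0 < c) (hr0 : ∀ t ∈ Ico 0 T, c ≤ r t) (hg : 0 ≤ g)
    (hg' : 0 < g ∨ ∀ t ∈ Ico 0 T, c * θ t ^ d ≤ r t)
    (hint : IntegrableOn (fun t => r t * θ t ^ (γ + g)) (Ico 0 T))
    {U : V d → Prop} {B : ℝ} (hU : ∀ t ∈ Ico 0 T, ∀ x, ¬ U x → rho f t x ≤ B ∧ Mp p f t x ≤ B)
    {T' : ℝ} (hT' : T' ∈ Ico 0 T)
    (hb' : ∀ t ∈ Ico T' T, ∀ x, U x → rho f t x ≤ r t ∧ Mp p f t x ≤ r t * θ t ^ p) :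
    Reg T f := by
  have hp0 : 0 < p := by linarith
  obtain ⟨M, hM, hMb⟩ := h.bdd hT'
  obtain ⟨M2, hM2, hMb2⟩ := Mp_bdd h hT' hp0.le
  set B' := max |B| (max M M2) with hB'
  have hB'0 : 0 ≤ B' := le_max_of_le_left (abs_nonneg B)
  have hMB : M ≤ B' := (le_max_left _ _).trans (le_max_right _ _)
  have hMB2 : M2 ≤ B' := (le_max_right _ _).trans (le_max_right _ _)
  have hBB : B ≤ B' := (le_abs_self B).trans (le_max_left _ _)
  have key : ∀ t ∈ Ico 0 T, ∀ x, (rho f t x ≤ B' ∧ Mp p f t x ≤ B') ∨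
      (rho f t x ≤ r t ∧ Mp p f t x ≤ r t * θ t ^ p) := fun t ht x => by
    rcases le_total t T' with h1 | h1
    · left
      exact ⟨((hMb t ⟨ht.1, h1⟩ x).1).trans hMB, (hMb2 t ⟨ht.1, h1⟩ x).trans hMB2⟩
    · by_cases hx : U x
      · right; exact hb' t ⟨h1, ht.2⟩ x hx
      · left
        have := hU t ht x hx
        exact ⟨this.1.trans hBB, this.2.trans hBB⟩
  set L : ℝ := 1 + B' / c with hL
  have hBc : 0 ≤ B' / c := by positivity
  have hL1 : 1 ≤ L := by linarith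
  have hint' : IntegrableOn (fun t => L * r t * θ t ^ (γ + g)) (Ico 0 T) := by
    have h9 : IntegrableOn (fun t => L * (r t * θ t ^ (γ + g))) (Ico 0 T) := hint.const_mul L
    simpa only [mul_assoc] using h9
  have hrr : ∀ t ∈ Ico 0 T, r t ≤ L * r t ∧ B' ≤ L * r t := fun t ht => by
    have h1 := hr0 t ht
    have h2 : B' ≤ B' / c * r t := by
      rw [div_mul_eq_mul_div, le_div_iff₀ hc]
      exact mul_le_mul_of_nonneg_left h1 hB'0
    have h3 : 0 ≤ B' / c * r t := mul_nonneg hBc (by linarith)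
    have h4 : L * r t = r t + B' / c * r t := by rw [hL]; ring
    constructor
    · linarith
    · linarith
  refine critG hd hs0 hs1 hγ0 hγ2 hp hb hT h (r := fun t => L * r t) hθc hθm hθ1 hc
    (fun t ht => (hr0 t ht).trans (hrr t ht).1) hg
    (hg'.imp_right fun h1 t ht => (h1 t ht).trans (hrr t ht).1) hint' ?_ ?_
  · intro t ht x
    have h0 := hrr t ht
    rcases key t ht x with h1 | h1
    · exact h1.1.trans h0.2
    · exact h1.1.trans h0.1
  · intro t ht x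
    have h0 := hrr t ht
    have h2 : 1 ≤ θ t ^ p := Real.one_le_rpow (hθ1 t ht) hp0.le
    have h3 := hr0 t ht
    rcases key t ht x with h1 | h1
    · refine (h1.2.trans h0.2).trans ?_
      exact le_mul_of_one_le_right (by linarith) h2
    · refine h1.2.trans ?_
      exact mul_le_mul_of_nonneg_right h0.1 (by linarith)

end Pool.Agent.H821.BL
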