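import Pool.Agent.H821.BL.End2

/-! Hard potentials: integral criterion with the moment of order `p`, `γ + 2s ≤ p ≤ γ + 2`. -/

set_option autoImplicit false
open MeasureTheory Metric Set Filter Topology
open scoped ENNReal Real InnerProductSpace Pointwise

namespace Pool.Agent.H821.BL

open Pool.Agent.H821.BZ

variable {d : ℕ}

/-- the moment of order `p` -/
noncomputable def Mp (p : ℝ) (f : ℝ → V d → V d → ℝ) (t : ℝ) (x : V d) : ℝ := ∫ v, f t x v * ‖v‖ ^ p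

lemma rpow_le_four {p y : ℝ} (hp0 : 0 ≤ p) (hp4 : p ≤ 4) (hy : 0 ≤ y) : y ^ p ≤ (1 + y ^ 2) ^ 2 := by
  rcases le_total y 1 with h | h
  · calc y ^ p ≤ 1 := Real.rpow_le_one hy h hp0
      _ ≤ _ := by nlinarith [sq_nonneg y, sq_nonneg (y ^ 2)]
  · calc y ^ p ≤ y ^ (4:ℝ) := Real.rpow_le_rpow_of_exponent_le h hp4
      _ = y ^ 4 := by norm_cast
      _ ≤ _ := by nlinarith [sq_nonneg y, sq_nonneg (y ^ 2)]

lemma integrable_p {γ T : ℝ} {b : ℝ → ℝ} {f : ℝ → V d → V d → ℝ} (h : IsSol γ b T f) {t : ℝ} (ht : t ∈ Ico 0 T)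
    (x : V d) {p : ℝ} (hp0 : 0 ≤ p) (hp4 : p ≤ 4) : Integrable (fun w => f t x w * ‖w‖ ^ p) := by
  have hn : (d:ℝ) < 2 * ((d + 1 : ℕ) : ℝ) := by push_cast; linarith [(by positivity : (0:ℝ) ≤ d)]
  have hφi := integrable_φ (d := d) hn
  obtain ⟨m, hm, hmle⟩ := h.decayφ ht (d + 1 + 2)
  have hfm := h.measurable ht x
  have hf0 := h.nonneg t ht x
  have key : ∀ w, f t x w * (1 + ‖w‖ ^ 2) ^ 2 ≤ m * φ (d + 1) w := fun w => by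
    have e : φ (d + 1 + 2) w * (1 + ‖w‖ ^ 2) ^ 2 = φ (d + 1) w := by
      unfold φ
      have : (0:ℝ) < 1 + ‖w‖ ^ 2 := by positivity
      rw [pow_add (1 + ‖w‖ ^ 2) (d + 1) 2]; field_simp
    rw [← e, ← mul_assoc]
    exact mul_le_mul_of_nonneg_right (hmle t ⟨ht.1, le_rfl⟩ x w) (by positivity)
  refine Integrable.mono' (hφi.const_mul m) ?_ (Eventually.of_forall fun w => ?_)
  · exact (hfm.mul (measurable_norm.pow_const p)).aestronglyMeasurable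
  · have h1 := mul_nonneg (hf0 w) (Real.rpow_nonneg (norm_nonneg w) p)
    rw [Real.norm_eq_abs, abs_of_nonneg h1]
    exact (mul_le_mul_of_nonneg_left (rpow_le_four hp0 hp4 (norm_nonneg w)) (hf0 w)).trans (key w)

/-- the scaled moment of order `p` -/
lemma momS_p {γ p μ : ℝ} (hp0 : 0 ≤ p) (hμ : 0 < μ) {f : V d → ℝ} (hf0 : ∀ w, 0 ≤ f w) (hf1 : Integrable f)
    (hf2 : Integrable (fun w => f w * ‖w‖ ^ p)) (v : V d) :
    momS γ 0 p μ f v ≤ ENNReal.ofReal (μ ^ γ * ((1 + 2 ^ p) * ∫ w, f w) +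
      2 ^ p * (μ ^ γ * (μ ^ p)⁻¹) * ∫ w, f w * ‖w‖ ^ p) := by
  have hint : Integrable (fun w : V d => (1 + 2 ^ p) * μ ^ γ * f w + 2 ^ p * (μ ^ γ * (μ ^ p)⁻¹) * (f w * ‖w‖ ^ p)) :=
    (hf1.const_mul _).add (hf2.const_mul _)
  have hval : ∫ w : V d, ((1 + 2 ^ p) * μ ^ γ * f w + 2 ^ p * (μ ^ γ * (μ ^ p)⁻¹) * (f w * ‖w‖ ^ p)) =
      μ ^ γ * ((1 + 2 ^ p) * ∫ w, f w) + 2 ^ p * (μ ^ γ * (μ ^ p)⁻¹) * ∫ w, f w * ‖w‖ ^ p := by
    rw [integral_add (hf1.const_mul _) (hf2.const_mul _), integral_const_mul, integral_const_mul]; ring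
  rw [← hval, ofReal_integral_eq_lintegral_ofReal hint (Filter.Eventually.of_forall fun w => by
    have := hf0 w
    simp only [Pi.zero_apply]; positivity)]
  unfold momS
  refine lintegral_mono fun w => ENNReal.ofReal_le_ofReal ?_
  have hw := norm_nonneg w
  have h0 := hf0 w
  have hy : 0 ≤ ‖w‖ / μ := by positivity
  have h1 : (1 + ‖w‖ / μ) ^ p ≤ 2 ^ p + 2 ^ p * ((μ ^ p)⁻¹ * ‖w‖ ^ p) := by
    have e2 : (μ ^ p)⁻¹ * ‖w‖ ^ p = (‖w‖ / μ) ^ p := by rw [Real.div_rpow hw hμ.le]; ring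
    rw [e2]
    have p2 : (0:ℝ) ≤ 2 ^ p := by positivity
    have py : 0 ≤ (‖w‖ / μ) ^ p := by positivity
    have ppy := mul_nonneg p2 py
    rcases le_total (‖w‖ / μ) 1 with h | h
    · calc (1 + ‖w‖ / μ) ^ p ≤ 2 ^ p := Real.rpow_le_rpow (by positivity) (by linarith) hp0
        _ ≤ _ := by linarith
    · calc (1 + ‖w‖ / μ) ^ p ≤ (2 * (‖w‖ / μ)) ^ p := Real.rpow_le_rpow (by positivity) (by linarith) hp0
        _ = 2 ^ p * (‖w‖ / μ) ^ p := Real.mul_rpow (by norm_num) hy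
        _ ≤ _ := by linarith
  rw [Real.rpow_zero]
  have h2 : 0 ≤ f w * μ ^ γ := by positivity
  have h3 := mul_le_mul_of_nonneg_left h1 h2
  linarith

/-- bound of the moment from a scaled weight -/
lemma tail_p {n N' : ℕ} (hn : (d:ℝ) < 2 * n) {p : ℝ} (hp0 : 0 ≤ p) (hp4 : p ≤ 4) {f : V d → ℝ}
    (hf0 : ∀ w, 0 ≤ f w) (hf1 : Integrable f)
    {R μ Kf : ℝ} (hR : 1 ≤ R) (hμ : 0 < μ) (hK : 0 ≤ Kf) (hle : ∀ w, f w ≤ Kf * φs (n + 2 + N') μ w) :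
    ∫ w, f w * ‖w‖ ^ p ≤ R ^ p * (∫ w, f w) + Kf * 2 ^ n * (μ ^ 2) ^ (n + 2 + N') * ((R ^ 2) ^ N')⁻¹ *
      ∫ w : V d, φ n w := by
  have hφi := integrable_φ (d := d) hn
  have hint : Integrable (fun w : V d => R ^ p * f w + Kf * 2 ^ n * (μ ^ 2) ^ (n + 2 + N') * ((R ^ 2) ^ N')⁻¹ * φ n w) :=
    (hf1.const_mul _).add (hφi.const_mul _)
  have hval : ∫ w : V d, (R ^ p * f w + Kf * 2 ^ n * (μ ^ 2) ^ (n + 2 + N') * ((R ^ 2) ^ N')⁻¹ * φ n w) =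
      R ^ p * (∫ w, f w) + Kf * 2 ^ n * (μ ^ 2) ^ (n + 2 + N') * ((R ^ 2) ^ N')⁻¹ * ∫ w : V d, φ n w := by
    rw [integral_add (hf1.const_mul _) (hφi.const_mul _), integral_const_mul, integral_const_mul]
  rw [← hval]
  refine integral_mono_of_nonneg (Filter.Eventually.of_forall fun w =>
    mul_nonneg (hf0 w) (Real.rpow_nonneg (norm_nonneg w) p)) hint (Filter.Eventually.of_forall fun w => ?_)
  simp only
  have hR0 : 0 < R := by linarith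
  have hφ := φ_pos n w
  have hw := norm_nonneg w
  rcases le_total ‖w‖ R with h | h
  · have h1 : ‖w‖ ^ p ≤ R ^ p := Real.rpow_le_rpow hw h hp0
    have h2 := mul_le_mul_of_nonneg_left h1 (hf0 w)
    have h3 : 0 ≤ Kf * 2 ^ n * (μ ^ 2) ^ (n + 2 + N') * ((R ^ 2) ^ N')⁻¹ * φ n w := by positivity
    linarith
  · have hw1 : 1 ≤ ‖w‖ := hR.trans h
    have hw0 : 0 < ‖w‖ := by linarith
    have h0 : 0 ≤ R ^ p * f w := mul_nonneg (by positivity) (hf0 w)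
    have hp : ‖w‖ ^ p ≤ (‖w‖ ^ 2) ^ 2 := by
      calc ‖w‖ ^ p ≤ ‖w‖ ^ (4:ℝ) := Real.rpow_le_rpow_of_exponent_le hw1 hp4
        _ = ‖w‖ ^ 4 := by norm_cast
        _ = _ := by ring
    have h1 : φs (n + 2 + N') μ w ≤ (μ ^ 2) ^ (n + 2 + N') * ((‖w‖ ^ 2) ^ (n + 2 + N'))⁻¹ := by
      rw [φs_eq _ hμ]
      calc ((1 + ‖w‖ ^ 2 / μ ^ 2) ^ (n + 2 + N'))⁻¹ ≤ ((‖w‖ ^ 2 / μ ^ 2) ^ (n + 2 + N'))⁻¹ := by
            gcongr; linarith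
        _ = _ := by rw [div_pow, inv_div]; rfl
    have h2 : ((‖w‖ ^ 2) ^ (n + 2 + N'))⁻¹ * (‖w‖ ^ 2) ^ 2 = ((‖w‖ ^ 2) ^ n)⁻¹ * ((‖w‖ ^ 2) ^ N')⁻¹ := by
      rw [pow_add, pow_add]; field_simp
    have h3 : ((‖w‖ ^ 2) ^ n)⁻¹ ≤ 2 ^ n * φ n w := by
      unfold φ
      have h4 : (1 + ‖w‖ ^ 2) / 2 ≤ ‖w‖ ^ 2 := by nlinarith
      calc ((‖w‖ ^ 2) ^ n)⁻¹ ≤ (((1 + ‖w‖ ^ 2) / 2) ^ n)⁻¹ := by gcongr
        _ = 2 ^ n * ((1 + ‖w‖ ^ 2) ^ n)⁻¹ := by rw [div_pow, inv_div]; rfl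
    have h5 : ((‖w‖ ^ 2) ^ N')⁻¹ ≤ ((R ^ 2) ^ N')⁻¹ := by gcongr
    have h6 : f w * ‖w‖ ^ p ≤ Kf * 2 ^ n * (μ ^ 2) ^ (n + 2 + N') * ((R ^ 2) ^ N')⁻¹ * φ n w := by
      calc f w * ‖w‖ ^ p ≤ (Kf * ((μ ^ 2) ^ (n + 2 + N') * ((‖w‖ ^ 2) ^ (n + 2 + N'))⁻¹)) * (‖w‖ ^ 2) ^ 2 := by
            refine mul_le_mul ((hle w).trans (mul_le_mul_of_nonneg_left h1 hK)) hp (Real.rpow_nonneg hw p) ?_
            positivity
        _ = Kf * (μ ^ 2) ^ (n + 2 + N') * (((‖w‖ ^ 2) ^ (n + 2 + N'))⁻¹ * (‖w‖ ^ 2) ^ 2) := by ring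
        _ = Kf * (μ ^ 2) ^ (n + 2 + N') * (((‖w‖ ^ 2) ^ n)⁻¹ * ((‖w‖ ^ 2) ^ N')⁻¹) := by rw [h2]
        _ ≤ Kf * (μ ^ 2) ^ (n + 2 + N') * ((2 ^ n * φ n w) * ((R ^ 2) ^ N')⁻¹) := by gcongr
        _ = _ := by ring
    linarith

/-- one step: bound by a weight of scale `θ ^ ε` -/
theorem stepP (hd : 2 ≤ d) {s K γ p : ℝ} (hs0 : 0 < s) (hs1 : s < 1) (hγ0 : 0 ≤ γ) (hγ2 : γ < 2)
    (hp : γ + 2 * s ≤ p) (hpγ : p ≤ γ + 2)
    {b : ℝ → ℝ} (hb : IsAng (((d:ℝ) - 1) / 2 + s) K b) {T : ℝ} (hT : 0 < T) {f : ℝ → V d → V d → ℝ} (h : IsSol γ b T f)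
    {r θ : ℝ → ℝ} (hθc : ContinuousOn θ (Ico 0 T)) (hθm : MonotoneOn θ (Ico 0 T)) (hθ1 : ∀ t ∈ Ico 0 T, 1 ≤ θ t)
    (hr0 : ∀ t ∈ Ico 0 T, 0 ≤ r t) {κ ℓ ε C1 : ℝ}
    (hε : 0 ≤ ε) (h1 : γ * ε ≤ κ) (h2 : p * ℓ - (p - γ) * ε ≤ κ) (hC1 : 0 ≤ C1)
    (hint : IntegrableOn (fun t => r t * θ t ^ κ) (Ico 0 T))
    (hρ : ∀ t ∈ Ico 0 T, ∀ x, rho f t x ≤ r t)
    (hE : ∀ t ∈ Ico 0 T, ∀ x, Mp p f t x ≤ C1 * (r t * θ t ^ (p * ℓ)))
    {N : ℕ} (hN : (d:ℝ) + 6 ≤ 2 * N) :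
    ∃ K', 0 ≤ K' ∧ ∀ t ∈ Ico 0 T, ∀ x v, f t x v ≤ K' * φs N (θ t ^ ε) v := by
  have : Nontrivial (Fin d) := Fin.nontrivial_iff_two_le.2 hd
  have : Nonempty (Fin d) := inferInstance
  have : Nontrivial (V d) := inferInstance
  have hd2 : (2:ℝ) ≤ d := by exact_mod_cast hd
  have hp0 : 0 ≤ p := by linarith
  have hmin : min γ 0 = 0 := min_eq_right hγ0
  have hmax : max γ 0 + (p - γ) = p := by rw [max_eq_left hγ0]; ring
  obtain ⟨C, hC, htouch⟩ := touchE (K := K) hd hs0 hs1 (a := p - γ) (by linarith) (by linarith) hγ0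
    hγ2 hN
  have hTo := htouch b hb T f h
  have hMB : MomB d (min γ 0) (max γ 0 + (p - γ)) N := by
    rw [hmin, hmax]
    exact momB_all hd le_rfl (by linarith) (by linarith) hN
  have h0T : (0:ℝ) ∈ Ico 0 T := ⟨le_rfl, hT⟩
  set μ : ℝ → ℝ := fun t => θ t ^ ε with hμ
  have hμc : ContinuousOn μ (Ico 0 T) := by
    rw [hμ]
    exact hθc.rpow_const fun t ht => Or.inl (by have := hθ1 t ht; linarith : θ t ≠ 0)
  have hμm : MonotoneOn μ (Ico 0 T) := by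
    intro t ht t' ht' htt
    simp only [hμ]
    exact Real.rpow_le_rpow (by have := hθ1 t ht; linarith) (hθm ht ht' htt) hε
  have hμ1 : ∀ t ∈ Ico 0 T, 1 ≤ μ t := fun t ht => Real.one_le_rpow (hθ1 t ht) hε
  obtain ⟨A, hA, hAb⟩ := h.decayφ h0T N
  have hA' : ∀ x v, f 0 x v ≤ A * φs N (μ 0) v := fun x v => by
    refine (hAb 0 ⟨le_rfl, le_rfl⟩ x v).trans (mul_le_mul_of_nonneg_left ?_ hA)
    rw [← φs_one]
    exact φs_mono N one_pos (hμ1 0 h0T) v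
  have hg := growth_LS (by linarith : 0 ≤ p - γ) hMB h hC hTo h0T hμc hμm hμ1 hA'
  have hQ : (0:ℝ) ≤ 2 ^ p := by positivity
  have hLS : ∀ t ∈ Ico 0 T, LS γ (p - γ) μ f t ≤
      ENNReal.ofReal ((1 + 2 ^ p + 2 ^ p * C1) * (r t * θ t ^ κ)) := by
    intro t ht
    refine iSup_le fun x => iSup_le fun v => ?_
    rw [hmin, hmax]
    obtain ⟨i1, -⟩ := h.integrable ht x
    have i2 := integrable_p h ht x hp0 (by linarith : p ≤ 4)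
    have hθt := hθ1 t ht
    have hθ0 : 0 < θ t := by linarith
    have hμt : 0 < μ t := lt_of_lt_of_le one_pos (hμ1 t ht)
    refine (momS_p hp0 hμt (h.nonneg t ht x) i1 i2 v).trans (ENNReal.ofReal_le_ofReal ?_)
    have e1 : μ t ^ γ = θ t ^ (γ * ε) := by
      simp only [hμ]; rw [← Real.rpow_mul hθ0.le]; congr 1; ring
    have e2 : (μ t ^ p)⁻¹ = θ t ^ (-(p * ε)) := by
      simp only [hμ]
      rw [← Real.rpow_mul hθ0.le, ← Real.rpow_neg hθ0.le]; congr 1; ring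
    have hr := hρ t ht x
    have he := hE t ht x
    unfold rho at hr
    unfold Mp at he
    rw [e1, e2]
    have hrt := hr0 t ht
    have p1 : 0 ≤ θ t ^ (γ * ε) := by positivity
    have p2 : 0 ≤ θ t ^ (-(p * ε)) := by positivity
    have b1 : θ t ^ (γ * ε) ≤ θ t ^ κ := Real.rpow_le_rpow_of_exponent_le hθt h1
    have b2 : (θ t ^ (γ * ε) * θ t ^ (-(p * ε))) * θ t ^ (p * ℓ) ≤ θ t ^ κ := by
      rw [← Real.rpow_add hθ0, ← Real.rpow_add hθ0]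
      exact Real.rpow_le_rpow_of_exponent_le hθt (by linarith)
    calc θ t ^ (γ * ε) * ((1 + 2 ^ p) * ∫ w, f t x w) +
          2 ^ p * (θ t ^ (γ * ε) * θ t ^ (-(p * ε))) * ∫ w, f t x w * ‖w‖ ^ p
        ≤ θ t ^ (γ * ε) * ((1 + 2 ^ p) * r t) +
          2 ^ p * (θ t ^ (γ * ε) * θ t ^ (-(p * ε))) * (C1 * (r t * θ t ^ (p * ℓ))) := by gcongr
      _ = (1 + 2 ^ p) * r t * θ t ^ (γ * ε) +
          2 ^ p * C1 * r t * ((θ t ^ (γ * ε) * θ t ^ (-(p * ε))) * θ t ^ (p * ℓ)) := by ring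
      _ ≤ (1 + 2 ^ p) * r t * θ t ^ κ + 2 ^ p * C1 * r t * θ t ^ κ := by gcongr
      _ = (1 + 2 ^ p + 2 ^ p * C1) * (r t * θ t ^ κ) := by ring
  set Tot := ∫⁻ τ in Ico 0 T, ENNReal.ofReal ((1 + 2 ^ p + 2 ^ p * C1) * (r τ * θ τ ^ κ)) with hTot
  have hTtop : Tot ≠ ⊤ := (hint.const_mul (1 + 2 ^ p + 2 ^ p * C1)).lintegral_lt_top.ne
  refine ⟨A * Real.exp (C * Tot.toReal), by positivity, fun t ht x v => (hg t ht x v).trans ?_⟩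
  have hle : (∫⁻ τ in Ico 0 t, LS γ (p - γ) μ f τ).toReal ≤ Tot.toReal := by
    refine ENNReal.toReal_mono hTtop ?_
    calc ∫⁻ τ in Ico 0 t, LS γ (p - γ) μ f τ ≤ ∫⁻ τ in Ico 0 T, LS γ (p - γ) μ f τ :=
          lintegral_mono_set (Ico_subset_Ico_right ht.2.le)
      _ ≤ Tot := setLIntegral_mono' measurableSet_Ico hLS
  have hφ := (φs_pos N (μ t) v).le
  gcongr

/-- one step: improved moment -/
theorem stepP2 (hd : 2 ≤ d) {s K γ p : ℝ} (hs0 : 0 < s) (hs1 : s < 1) (hγ0 : 0 ≤ γ) (hγ2 : γ < 2)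
    (hp : γ + 2 * s ≤ p) (hpγ : p ≤ γ + 2)
    {b : ℝ → ℝ} (hb : IsAng (((d:ℝ) - 1) / 2 + s) K b) {T : ℝ} (hT : 0 < T) {f : ℝ → V d → V d → ℝ} (h : IsSol γ b T f)
    {r θ : ℝ → ℝ} (hθc : ContinuousOn θ (Ico 0 T)) (hθm : MonotoneOn θ (Ico 0 T)) (hθ1 : ∀ t ∈ Ico 0 T, 1 ≤ θ t)
    {c : ℝ} (hc : 0 < c) (hr0 : ∀ t ∈ Ico 0 T, c ≤ r t) {κ ℓ ε η C1 : ℝ}
    (hε : 0 ≤ ε) (hη : 0 < η) (h1 : γ * ε ≤ κ) (h2 : p * ℓ - (p - γ) * ε ≤ κ) (hC1 : 0 ≤ C1)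
    (hint : IntegrableOn (fun t => r t * θ t ^ κ) (Ico 0 T))
    (hρ : ∀ t ∈ Ico 0 T, ∀ x, rho f t x ≤ r t)
    (hE : ∀ t ∈ Ico 0 T, ∀ x, Mp p f t x ≤ C1 * (r t * θ t ^ (p * ℓ))) :
    ∃ C2, 0 ≤ C2 ∧ ∀ t ∈ Ico 0 T, ∀ x, Mp p f t x ≤ C2 * (r t * θ t ^ (p * (ε + η))) := by
  have hd0 : (0:ℝ) ≤ d := by positivity
  have hp0 : 0 ≤ p := by linarith
  set n := d + 3 with hn
  have hn2 : (d:ℝ) < 2 * (n : ℝ) := by rw [hn]; push_cast; linarith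
  obtain ⟨N', hN'⟩ := exists_nat_ge ((n + 2) * ε / η)
  have hN'η : ((n:ℝ) + 2) * ε ≤ N' * η := by rwa [div_le_iff₀ hη] at hN'
  have hNN : (d:ℝ) + 6 ≤ 2 * ((n + 2 + N' : ℕ) : ℝ) := by
    have : (0:ℝ) ≤ N' := by positivity
    rw [hn]; push_cast; linarith
  obtain ⟨K', hK', hb'⟩ := stepP hd hs0 hs1 hγ0 hγ2 hp hpγ hb hT h hθc hθm hθ1
    (fun t ht => hc.le.trans (hr0 t ht)) hε h1 h2 hC1 hint hρ hE hNN
  set P := ∫ w : V d, φ n w with hP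
  have hP0 : 0 ≤ P := integral_nonneg fun w => (φ_pos n w).le
  refine ⟨1 + K' * 2 ^ n * P / c, by positivity, fun t ht x => ?_⟩
  have hθt := hθ1 t ht
  have hθ0 : 0 < θ t := by linarith
  obtain ⟨i1, i2⟩ := h.integrable ht x
  have hR1 : 1 ≤ θ t ^ (ε + η) := Real.one_le_rpow hθt (by linarith)
  have htl := tail_p (n := n) (N' := N') hn2 hp0 (by linarith : p ≤ 4) (h.nonneg t ht x) i1 hR1
    (by positivity : 0 < θ t ^ ε) hK' (hb' t ht x)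
  have hr := hρ t ht x
  unfold rho at hr
  unfold Mp
  refine htl.trans ?_
  have e1 : (θ t ^ (ε + η)) ^ p = θ t ^ (p * (ε + η)) := by
    rw [← Real.rpow_mul hθ0.le]; congr 1; ring
  have e2 : ((θ t ^ ε) ^ 2) ^ (n + 2 + N') * (((θ t ^ (ε + η)) ^ 2) ^ N')⁻¹ ≤ 1 := by
    rw [← pow_mul, ← pow_mul, pow_rpow hθ0, pow_rpow hθ0, ← Real.rpow_neg hθ0.le, ← Real.rpow_add hθ0]
    refine Real.rpow_le_one_of_one_le_of_nonpos hθt ?_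
    push_cast; nlinarith
  have e3 : 1 ≤ θ t ^ (p * (ε + η)) := Real.one_le_rpow hθt (mul_nonneg hp0 (by linarith))
  have hrc := hr0 t ht
  have hrt : 0 < r t := hc.trans_le hrc
  have e5 : K' * 2 ^ n * P ≤ K' * 2 ^ n * P / c * (r t * θ t ^ (p * (ε + η))) := by
    rw [div_mul_eq_mul_div, le_div_iff₀ hc]
    have h0 : 0 ≤ K' * 2 ^ n * P := by positivity
    refine mul_le_mul_of_nonneg_left ?_ h0
    calc c ≤ r t := hrc
      _ = r t * 1 := (mul_one _).symm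
      _ ≤ _ := mul_le_mul_of_nonneg_left e3 hrt.le
  calc (θ t ^ (ε + η)) ^ p * (∫ w, f t x w) + K' * 2 ^ n * ((θ t ^ ε) ^ 2) ^ (n + 2 + N') *
        (((θ t ^ (ε + η)) ^ 2) ^ N')⁻¹ * P
      = θ t ^ (p * (ε + η)) * (∫ w, f t x w) + K' * 2 ^ n * P * (((θ t ^ ε) ^ 2) ^ (n + 2 + N') *
        (((θ t ^ (ε + η)) ^ 2) ^ N')⁻¹) := by rw [e1]; ring
    _ ≤ θ t ^ (p * (ε + η)) * r t + K' * 2 ^ n * P * 1 := by gcongr
    _ ≤ (1 + K' * 2 ^ n * P / c) * (r t * θ t ^ (p * (ε + η))) := by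
        rw [mul_one, add_mul, one_mul, mul_comm (θ t ^ (p * (ε + η)))]
        linarith

/-- the integral criterion -/
theorem critP (hd : 2 ≤ d) {s K γ p : ℝ} (hs0 : 0 < s) (hs1 : s < 1) (hγ0 : 0 ≤ γ) (hγ2 : γ < 2)
    (hp : γ + 2 * s ≤ p) (hpγ : p ≤ γ + 2)
    {b : ℝ → ℝ} (hb : IsAng (((d:ℝ) - 1) / 2 + s) K b) {T : ℝ} (hT : 0 < T) {f : ℝ → V d → V d → ℝ} (h : IsSol γ b T f)
    {r θ : ℝ → ℝ} (hθc : ContinuousOn θ (Ico 0 T)) (hθm : MonotoneOn θ (Ico 0 T)) (hθ1 : ∀ t ∈ Ico 0 T, 1 ≤ θ t)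
    {c g : ℝ} (hc : 0 < c) (hr0 : ∀ t ∈ Ico 0 T, c ≤ r t) (hg : 0 < g)
    (hint : IntegrableOn (fun t => r t * θ t ^ (γ + g)) (Ico 0 T))
    (hρ : ∀ t ∈ Ico 0 T, ∀ x, rho f t x ≤ r t)
    (hE : ∀ t ∈ Ico 0 T, ∀ x, Mp p f t x ≤ r t * θ t ^ p) : Reg T f := by
  have hp0 : 0 < p := by linarith
  set δ := g / p with hδ
  have hδ0 : 0 < δ := by positivity
  have hδp : p * δ = g := by rw [hδ]; field_simp
  have hδp' : (p - γ) * δ ≤ g := by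
    rw [← hδp]; exact mul_le_mul_of_nonneg_right (by linarith) hδ0.le
  have base : ∀ ℓ : ℝ, 0 ≤ ℓ → ℓ ≤ δ →
      (∃ C1, 0 ≤ C1 ∧ ∀ t ∈ Ico 0 T, ∀ x, Mp p f t x ≤ C1 * (r t * θ t ^ (p * ℓ))) → Reg T f := by
    intro ℓ hℓ h2 hE N
    obtain ⟨C1, hC1, hE⟩ := hE
    have hN : (d:ℝ) + 6 ≤ 2 * ((N + (d + 6) : ℕ) : ℝ) := by
      push_cast; linarith [(by positivity : (0:ℝ) ≤ d), (by positivity : (0:ℝ) ≤ N)]
    have hpl : p * ℓ ≤ p * δ := mul_le_mul_of_nonneg_left h2 hp0.le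
    obtain ⟨K', hK', hb'⟩ := stepP hd hs0 hs1 hγ0 hγ2 hp hpγ hb hT h hθc hθm hθ1
      (fun t ht => hc.le.trans (hr0 t ht))
      (ε := 0) (ℓ := ℓ) (κ := γ + g) le_rfl (by linarith) (by linarith) hC1 hint hρ hE hN
    refine ⟨K', fun t ht x v => ?_⟩
    have h4 := hb' t ht x v
    rw [Real.rpow_zero, φs_one] at h4
    exact h4.trans (mul_le_mul_of_nonneg_left (φ_anti N (d + 6) v) hK')
  have ind : ∀ k : ℕ, ∀ ℓ : ℝ, 0 ≤ ℓ → ℓ ≤ 1 → ℓ ≤ δ + k * (δ / 2) →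
      (∃ C1, 0 ≤ C1 ∧ ∀ t ∈ Ico 0 T, ∀ x, Mp p f t x ≤ C1 * (r t * θ t ^ (p * ℓ))) → Reg T f := by
    intro k
    induction k with
    | zero => intro ℓ hℓ _ h2; exact base ℓ hℓ (by simpa using h2)
    | succ k ih =>
      intro ℓ hℓ hℓ2 h2 hE
      by_cases hcc : ℓ ≤ δ
      · exact base ℓ hℓ hcc hE
      · push Not at hcc
        obtain ⟨C1, hC1, hE⟩ := hE
        have k1 : γ * (ℓ - δ) ≤ γ * ℓ := mul_le_mul_of_nonneg_left (by linarith) hγ0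
        have k2 : γ * ℓ ≤ γ * 1 := mul_le_mul_of_nonneg_left hℓ2 hγ0
        have k3 : p * ℓ - (p - γ) * (ℓ - δ) = γ * ℓ + (p - γ) * δ := by ring
        obtain ⟨C2, hC2, hE2⟩ := stepP2 hd hs0 hs1 hγ0 hγ2 hp hpγ hb hT h hθc hθm hθ1 hc hr0
          (ε := ℓ - δ) (η := δ / 2) (ℓ := ℓ) (κ := γ + g) (by linarith) (by positivity)
          (by linarith) (by rw [k3]; linarith) hC1 hint hρ hE
        refine ih (ℓ - δ / 2) (by linarith) (by linarith) (by push_cast at h2; linarith) ⟨C2, hC2, ?_⟩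
        intro t ht x
        have := hE2 t ht x
        rwa [show ℓ - δ + δ / 2 = ℓ - δ / 2 by ring] at this
  obtain ⟨k, hk⟩ := exists_nat_ge ((1 - δ) / (δ / 2))
  rw [div_le_iff₀ (by positivity)] at hk
  refine ind k 1 zero_le_one le_rfl (by linarith) ⟨1, zero_le_one, fun t ht x => ?_⟩
  rw [mul_one, one_mul]
  exact hE t ht x

lemma Mp_le {p : ℝ} (hp0 : 0 ≤ p) (hp2 : p ≤ 2) {γ T : ℝ} {b : ℝ → ℝ} {f : ℝ → V d → V d → ℝ} (h : IsSol γ b T f)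
    {t : ℝ} (ht : t ∈ Ico 0 T) (x : V d) : Mp p f t x ≤ rho f t x + ener f t x := by
  obtain ⟨i1, i2⟩ := h.integrable ht x
  unfold Mp rho ener
  rw [← integral_add i1 i2]
  refine integral_mono (integrable_p h ht x hp0 (by linarith)) (i1.add i2) fun w => ?_
  have hw := norm_nonneg w
  have h1 : ‖w‖ ^ p ≤ 1 + ‖w‖ ^ 2 := by
    rcases le_total ‖w‖ 1 with h | h
    · have := Real.rpow_le_one hw h hp0
      have := sq_nonneg ‖w‖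
      linarith
    · have h3 : ‖w‖ ^ p ≤ ‖w‖ ^ (2:ℝ) := Real.rpow_le_rpow_of_exponent_le h hp2
      rw [Real.rpow_two] at h3
      linarith
  have h2 := mul_le_mul_of_nonneg_left h1 (h.nonneg t ht x w)
  change f t x w * ‖w‖ ^ p ≤ f t x w + f t x w * ‖w‖ ^ 2
  linarith

/-- the localised integral criterion -/
theorem critP_loc (hd : 2 ≤ d) {s K γ p : ℝ} (hs0 : 0 < s) (hs1 : s < 1) (hγ0 : 0 ≤ γ) (hγ2 : γ < 2)
    (hp : γ + 2 * s ≤ p) (hpγ : p ≤ γ + 2) (hp2 : p ≤ 2)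
    {b : ℝ → ℝ} (hb : IsAng (((d:ℝ) - 1) / 2 + s) K b) {T : ℝ} (hT : 0 < T) {f : ℝ → V d → V d → ℝ} (h : IsSol γ b T f)
    {r θ : ℝ → ℝ} (hθc : ContinuousOn θ (Ico 0 T)) (hθm : MonotoneOn θ (Ico 0 T)) (hθ1 : ∀ t ∈ Ico 0 T, 1 ≤ θ t)
    {c g : ℝ} (hc : 0 < c) (hr0 : ∀ t ∈ Ico 0 T, c ≤ r t) (hg : 0 < g)
    (hint : IntegrableOn (fun t => r t * θ t ^ (γ + g)) (Ico 0 T))
    {U : V d → Prop} {B : ℝ} (hU : ∀ t ∈ Ico 0 T, ∀ x, ¬ U x → rho f t x ≤ B ∧ ener f t x ≤ B)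
    {T' : ℝ} (hT' : T' ∈ Ico 0 T)
    (hb' : ∀ t ∈ Ico T' T, ∀ x, U x → rho f t x ≤ r t ∧ Mp p f t x ≤ r t * θ t ^ p) :
    Reg T f := by
  have hp0 : 0 < p := by linarith
  obtain ⟨M, hM, hMb⟩ := h.bdd hT'
  set B' := max |B| M with hB'
  have hB'0 : 0 ≤ B' := le_max_of_le_right hM
  have hMB : M ≤ B' := le_max_right _ _
  have hBB : B ≤ B' := (le_abs_self B).trans (le_max_left _ _)
  have key : ∀ t ∈ Ico 0 T, ∀ x, (rho f t x ≤ 2 * B' ∧ Mp p f t x ≤ 2 * B') ∨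
      (rho f t x ≤ r t ∧ Mp p f t x ≤ r t * θ t ^ p) := fun t ht x => by
    have hle := Mp_le hp0.le hp2 h ht x
    rcases le_total t T' with h1 | h1
    · left
      have := hMb t ⟨ht.1, h1⟩ x
      exact ⟨by linarith [this.1], by linarith [this.1, this.2]⟩
    · by_cases hx : U x
      · right; exact hb' t ⟨h1, ht.2⟩ x hx
      · left
        have := hU t ht x hx
        exact ⟨by linarith [this.1], by linarith [this.1, this.2]⟩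
  have hint' : IntegrableOn (fun t => (1 + 2 * B' / c) * r t * θ t ^ (γ + g)) (Ico 0 T) := by
    have h9 : IntegrableOn (fun t => (1 + 2 * B' / c) * (r t * θ t ^ (γ + g))) (Ico 0 T) :=
      hint.const_mul (1 + 2 * B' / c)
    simpa only [mul_assoc] using h9
  have hBc : 0 ≤ 2 * B' / c := by positivity
  have hrr : ∀ t ∈ Ico 0 T, r t ≤ (1 + 2 * B' / c) * r t ∧ 2 * B' ≤ (1 + 2 * B' / c) * r t := fun t ht => by
    have h1 := hr0 t ht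
    have h2 : 2 * B' ≤ 2 * B' / c * r t := by
      rw [div_mul_eq_mul_div, le_div_iff₀ hc]
      exact mul_le_mul_of_nonneg_left h1 (by linarith)
    have h3 : 0 ≤ 2 * B' / c * r t := mul_nonneg hBc (by linarith)
    constructor <;> linarith
  refine critP hd hs0 hs1 hγ0 hγ2 hp hpγ hb hT h (r := fun t => (1 + 2 * B' / c) * r t) hθc hθm hθ1 hc
    (fun t ht => (hr0 t ht).trans (hrr t ht).1) hg hint' ?_ ?_
  · intro t ht x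
    rcases key t ht x with h1 | h1
    · exact h1.1.trans (hrr t ht).2
    · exact h1.1.trans (hrr t ht).1
  · intro t ht x
    have h0 := hrr t ht
    have h2 : 1 ≤ θ t ^ p := Real.one_le_rpow (hθ1 t ht) hp0.le
    have h3 := hr0 t ht
    rcases key t ht x with h1 | h1
    · refine (h1.2.trans h0.2).trans ?_
      exact le_mul_of_one_le_right (by linarith) h2
    · refine h1.2.trans ?_
      exact mul_le_mul_of_nonneg_right h0.1 (by linarith)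

end Pool.Agent.H821.BL
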