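import Pool.Agent.H821.BL.MomP

/-! The integral criterion for all `p ≥ γ + 2s`, by interpolation. -/

set_option autoImplicit false
open MeasureTheory Metric Set Filter Topology
open scoped ENNReal Real InnerProductSpace Pointwise

namespace Pool.Agent.H821.BL

open Pool.Agent.H821.BZ

variable {d : ℕ}

lemma rpow_le_nat {p y : ℝ} {m : ℕ} (hp0 : 0 ≤ p) (hpm : p ≤ 2 * m) (hy : 0 ≤ y) : y ^ p ≤ (1 + y ^ 2) ^ m := by
  rcases le_total y 1 with h | h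
  · calc y ^ p ≤ 1 := Real.rpow_le_one hy h hp0
      _ ≤ _ := one_le_pow₀ (by nlinarith [sq_nonneg y])
  · calc y ^ p ≤ y ^ ((2 * m : ℕ) : ℝ) := Real.rpow_le_rpow_of_exponent_le h (by push_cast; exact hpm)
      _ = (y ^ 2) ^ m := by rw [Real.rpow_natCast, pow_mul]
      _ ≤ _ := pow_le_pow_left₀ (by positivity) (by linarith) m

lemma integrable_pp {γ T : ℝ} {b : ℝ → ℝ} {f : ℝ → V d → V d → ℝ} (h : IsSol γ b T f) {t : ℝ} (ht : t ∈ Ico 0 T)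
    (x : V d) {p : ℝ} (hp0 : 0 ≤ p) : Integrable (fun w => f t x w * ‖w‖ ^ p) := by
  have hn : (d:ℝ) < 2 * ((d + 1 : ℕ) : ℝ) := by push_cast; linarith [(by positivity : (0:ℝ) ≤ d)]
  have hφi := integrable_φ (d := d) hn
  obtain ⟨k, hk⟩ := exists_nat_ge p
  have hk0 : (0:ℝ) ≤ k := by positivity
  obtain ⟨m, hm, hmle⟩ := h.decayφ ht (d + 1 + k)
  have hfm := h.measurable ht x
  have hf0 := h.nonneg t ht x
  have key : ∀ w, f t x w * (1 + ‖w‖ ^ 2) ^ k ≤ m * φ (d + 1) w := fun w => by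
    have e : φ (d + 1 + k) w * (1 + ‖w‖ ^ 2) ^ k = φ (d + 1) w := by
      unfold φ
      have : (0:ℝ) < 1 + ‖w‖ ^ 2 := by positivity
      rw [pow_add (1 + ‖w‖ ^ 2) (d + 1) k]; field_simp
    rw [← e, ← mul_assoc]
    exact mul_le_mul_of_nonneg_right (hmle t ⟨ht.1, le_rfl⟩ x w) (by positivity)
  refine Integrable.mono' (hφi.const_mul m) ?_ (Eventually.of_forall fun w => ?_)
  · exact (hfm.mul (measurable_norm.pow_const p)).aestronglyMeasurable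
  · have h1 := mul_nonneg (hf0 w) (Real.rpow_nonneg (norm_nonneg w) p)
    rw [Real.norm_eq_abs, abs_of_nonneg h1]
    exact (mul_le_mul_of_nonneg_left (rpow_le_nat hp0 (by linarith) (norm_nonneg w)) (hf0 w)).trans (key w)

/-- interpolation of the moments -/
lemma Mp_interp {q p m : ℝ} (hq0 : 0 ≤ q) (hqp : q ≤ p) (hm : 0 < m) {γ T : ℝ} {b : ℝ → ℝ} {f : ℝ → V d → V d → ℝ}
    (h : IsSol γ b T f) {t : ℝ} (ht : t ∈ Ico 0 T) (x : V d) :
    Mp q f t x ≤ m ^ q * rho f t x + m ^ (q - p) * Mp p f t x := by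
  obtain ⟨i1, -⟩ := h.integrable ht x
  have ip := integrable_pp h ht x (hq0.trans hqp)
  unfold Mp rho
  rw [← integral_const_mul, ← integral_const_mul, ← integral_add (i1.const_mul _) (ip.const_mul _)]
  refine integral_mono (integrable_pp h ht x hq0) ((i1.const_mul _).add (ip.const_mul _)) fun w => ?_
  have hw := norm_nonneg w
  have h0 := h.nonneg t ht x w
  have h1 : ‖w‖ ^ q ≤ m ^ q + m ^ (q - p) * ‖w‖ ^ p := by
    rcases le_total ‖w‖ m with hl | hl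
    · have h2 : ‖w‖ ^ q ≤ m ^ q := Real.rpow_le_rpow hw hl hq0
      have h3 : 0 ≤ m ^ (q - p) * ‖w‖ ^ p := by positivity
      linarith
    · have hw0 : 0 < ‖w‖ := hm.trans_le hl
      have h2 : ‖w‖ ^ (q - p) ≤ m ^ (q - p) := Real.rpow_le_rpow_of_nonpos hm hl (by linarith)
      have h3 : ‖w‖ ^ q = ‖w‖ ^ (q - p) * ‖w‖ ^ p := by rw [← Real.rpow_add hw0]; congr 1; ring
      have h4 : ‖w‖ ^ (q - p) * ‖w‖ ^ p ≤ m ^ (q - p) * ‖w‖ ^ p :=
        mul_le_mul_of_nonneg_right h2 (by positivity)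
      have h5 : 0 ≤ m ^ q := by positivity
      linarith
  have h2 := mul_le_mul_of_nonneg_left h1 h0
  change f t x w * ‖w‖ ^ q ≤ m ^ q * f t x w + m ^ (q - p) * (f t x w * ‖w‖ ^ p)
  linarith

lemma Mp_down {q p r m : ℝ} (hq0 : 0 ≤ q) (hqp : q ≤ p) (hm : 0 < m) {γ T : ℝ} {b : ℝ → ℝ}
    {f : ℝ → V d → V d → ℝ} (h : IsSol γ b T f) {t : ℝ} (ht : t ∈ Ico 0 T) (x : V d)
    (h1 : rho f t x ≤ r) (h2 : Mp p f t x ≤ r * m ^ p) : Mp q f t x ≤ 2 * r * m ^ q := by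
  refine (Mp_interp hq0 hqp hm h ht x).trans ?_
  have a1 : 0 ≤ m ^ q := by positivity
  have a2 : 0 ≤ m ^ (q - p) := by positivity
  have a3 : m ^ (q - p) * m ^ p = m ^ q := by rw [← Real.rpow_add hm]; congr 1; ring
  calc m ^ q * rho f t x + m ^ (q - p) * Mp p f t x ≤ m ^ q * r + m ^ (q - p) * (r * m ^ p) := by gcongr
    _ = m ^ q * r + r * (m ^ (q - p) * m ^ p) := by ring
    _ = 2 * r * m ^ q := by rw [a3]; ring

/-- the integral criterion -/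
theorem critA (hd : 2 ≤ d) {s K γ p : ℝ} (hs0 : 0 < s) (hs1 : s < 1) (hγ0 : 0 ≤ γ) (hγ2 : γ < 2)
    (hp : γ + 2 * s ≤ p)
    {b : ℝ → ℝ} (hb : IsAng (((d:ℝ) - 1) / 2 + s) K b) {T : ℝ} (hT : 0 < T) {f : ℝ → V d → V d → ℝ} (h : IsSol γ b T f)
    {r θ : ℝ → ℝ} (hθc : ContinuousOn θ (Ico 0 T)) (hθm : MonotoneOn θ (Ico 0 T)) (hθ1 : ∀ t ∈ Ico 0 T, 1 ≤ θ t)
    {c g : ℝ} (hc : 0 < c) (hr0 : ∀ t ∈ Ico 0 T, c ≤ r t) (hg : 0 < g)
    (hint : IntegrableOn (fun t => r t * θ t ^ (γ + g)) (Ico 0 T))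
    (hρ : ∀ t ∈ Ico 0 T, ∀ x, rho f t x ≤ r t)
    (hE : ∀ t ∈ Ico 0 T, ∀ x, Mp p f t x ≤ r t * θ t ^ p) : Reg T f := by
  rcases le_total p (γ + 2) with hle | hle
  · exact critP hd hs0 hs1 hγ0 hγ2 hp hle hb hT h hθc hθm hθ1 hc hr0 hg hint hρ hE
  · have hint' : IntegrableOn (fun t => 2 * r t * θ t ^ (γ + g)) (Ico 0 T) := by
      have h9 : IntegrableOn (fun t => 2 * (r t * θ t ^ (γ + g))) (Ico 0 T) := hint.const_mul 2
      simpa only [mul_assoc] using h9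
    refine critP hd hs0 hs1 hγ0 hγ2 (p := γ + 2) (by linarith) le_rfl hb hT h (r := fun t => 2 * r t) hθc hθm hθ1 hc
      (fun t ht => by have := hr0 t ht; linarith) hg hint' ?_ ?_
    · intro t ht x
      have := hr0 t ht
      exact (hρ t ht x).trans (by linarith)
    · intro t ht x
      exact Mp_down (by linarith) hle (by linarith [hθ1 t ht]) h ht x (hρ t ht x) (hE t ht x)

/-- the localised integral criterion -/
theorem critA_loc (hd : 2 ≤ d) {s K γ p : ℝ} (hs0 : 0 < s) (hs1 : s < 1) (hγ0 : 0 ≤ γ) (hγs : γ + 2 * s ≤ 2)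
    (hp : γ + 2 * s ≤ p)
    {b : ℝ → ℝ} (hb : IsAng (((d:ℝ) - 1) / 2 + s) K b) {T : ℝ} (hT : 0 < T) {f : ℝ → V d → V d → ℝ} (h : IsSol γ b T f)
    {r θ : ℝ → ℝ} (hθc : ContinuousOn θ (Ico 0 T)) (hθm : MonotoneOn θ (Ico 0 T)) (hθ1 : ∀ t ∈ Ico 0 T, 1 ≤ θ t)
    {c g : ℝ} (hc : 0 < c) (hr0 : ∀ t ∈ Ico 0 T, c ≤ r t) (hg : 0 < g)
    (hint : IntegrableOn (fun t => r t * θ t ^ (γ + g)) (Ico 0 T))
    {U : V d → Prop} {B : ℝ} (hU : ∀ t ∈ Ico 0 T, ∀ x, ¬ U x → rho f t x ≤ B ∧ ener f t x ≤ B)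
    {T' : ℝ} (hT' : T' ∈ Ico 0 T)
    (hb' : ∀ t ∈ Ico T' T, ∀ x, U x → rho f t x ≤ r t ∧ Mp p f t x ≤ r t * θ t ^ p) :
    Reg T f := by
  have hγ2 : γ < 2 := by linarith
  rcases le_total p 2 with hle | hle
  · exact critP_loc hd hs0 hs1 hγ0 hγ2 hp (by linarith) hle hb hT h hθc hθm hθ1 hc hr0 hg hint hU hT' hb'
  · have hint' : IntegrableOn (fun t => 2 * r t * θ t ^ (γ + g)) (Ico 0 T) := by
      have h9 : IntegrableOn (fun t => 2 * (r t * θ t ^ (γ + g))) (Ico 0 T) := hint.const_mul 2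
      simpa only [mul_assoc] using h9
    refine critP_loc hd hs0 hs1 hγ0 hγ2 (p := 2) hγs (by linarith) le_rfl hb hT h (r := fun t => 2 * r t)
      hθc hθm hθ1 hc (fun t ht => by have := hr0 t ht; linarith) hg hint' hU hT' ?_
    intro t ht x hx
    have htI : t ∈ Ico 0 T := ⟨hT'.1.trans ht.1, ht.2⟩
    have h1 := hb' t ht x hx
    have h2 := hr0 t htI
    exact ⟨h1.1.trans (by linarith), Mp_down (by norm_num) hle (by linarith [hθ1 t htI]) h htI x h1.1 h1.2⟩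

end Pool.Agent.H821.BL
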