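import Pool.Agent.H821.BL.MomP2
import Pool.Agent.H43.KS.Crit

/-! Hard potentials: the critical case `g = 0` of the integral criterion, if `r ≥ c m^d`. -/

set_option autoImplicit false
open MeasureTheory Metric Set Filter Topology
open scoped ENNReal Real InnerProductSpace Pointwise

namespace Pool.Agent.H821.BL

open Pool.Agent.H821.BZ

variable {d : ℕ}

/-- moments at the scale `μ` -/
lemma momS_bddH (hd : 2 ≤ d) {γ p : ℝ} (hp4 : p ≤ 4) {N : ℕ}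
    (hN : (d : ℝ) + 6 ≤ 2 * N) : ∃ K1 : ℝ, 0 ≤ K1 ∧ ∀ f : V d → ℝ, Measurable f → ∀ m μ : ℝ,
      0 ≤ m → 0 < μ → (∀ w, f w ≤ m * φs N μ w) → ∀ v : V d,
      momS γ 0 p μ f v ≤ ENNReal.ofReal (K1 * m * μ ^ (γ + d)) := by
  have hd2 : (2:ℝ) ≤ d := by exact_mod_cast hd
  obtain ⟨K1, hK1, hb⟩ := momB_all (a := p) hd le_rfl (by linarith) hp4 hN
  refine ⟨K1, hK1, fun f hf m μ hm hμ hle v => ?_⟩
  have h1 := hb (fun w => f (μ • w)) m hm (fun w => by
    have := hle (μ • w)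
    unfold φs at this
    rwa [inv_smul_smul₀ hμ.ne'] at this) (μ⁻¹ • v)
  rw [momS_eq hμ γ 0 p hf v, ← ENNReal.ofReal_mul (by positivity)]
  calc ENNReal.ofReal (μ ^ γ * μ ^ d) * mom 0 p (fun w => f (μ • w)) (μ⁻¹ • v)
      ≤ ENNReal.ofReal (μ ^ γ * μ ^ d) * ENNReal.ofReal (K1 * m) := mul_le_mul' le_rfl h1
    _ = ENNReal.ofReal (K1 * m * μ ^ (γ + d)) := by
        rw [← ENNReal.ofReal_mul (by positivity), Real.rpow_add hμ, Real.rpow_natCast]
        congr 1; ring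

/-- minimal rate of blow-up at the scale `μ` (proof of `Pool.Agent.H43.KS.rateS`, hard potentials) -/
theorem rateH (hd : 2 ≤ d) {γ p : ℝ} (hγ0 : 0 ≤ γ) (hp4 : p ≤ 4) {T : ℝ} {b : ℝ → ℝ}
    {f : ℝ → V d → V d → ℝ} (h : IsSol γ b T f) {N : ℕ} (hN : (d : ℝ) + 6 ≤ 2 * N)
    {C : ℝ} (hC : 0 ≤ C) (ht : TouchAll C γ (p - γ) N T f) :
    ∃ c : ℝ, 0 < c ∧ ∀ t₁ ∈ Ico 0 T, ∀ A μ : ℝ, 1 ≤ μ → (∀ x v, f t₁ x v ≤ A * φs N μ v) →
      A * μ ^ (γ + d) * (T - t₁) ≤ c →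
      ∃ B : ℝ, 0 ≤ B ∧ ∀ t ∈ Ico t₁ T, ∀ x v, f t x v ≤ B * φs N μ v := by
  have hmin : min γ 0 = 0 := min_eq_right hγ0
  have hmax : max γ 0 + (p - γ) = p := by rw [max_eq_left hγ0]; ring
  unfold TouchAll at ht
  rw [hmin, hmax] at ht
  obtain ⟨K1, hK1, hmom⟩ := momS_bddH (γ := γ) hd hp4 hN
  set K2 : ℝ := C * K1 + 1 with hK2
  have hK20 : 0 < K2 := by positivity
  refine ⟨1 / (4 * K2), by positivity, fun t₁ ht₁ A μ hμ hA hsmall => ?_⟩
  have hμ0 : 0 < μ := by linarith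
  set P : ℝ := μ ^ (γ + d) with hP
  have hP0 : 0 < P := by positivity
  have hTt : 0 < T - t₁ := by linarith [ht₁.2]
  have hA0 : 0 ≤ A := by
    have h1 := (h.nonneg t₁ ht₁ 0 0).trans (hA 0 0)
    exact nonneg_of_mul_nonneg_left h1 (φs_pos N _ 0)
  set A1 : ℝ := A + 1 / (4 * K2 * P * (T - t₁)) with hA1
  have hA10 : 0 < A1 := by positivity
  have hA1s : K2 * P * (T - t₁) * A1 ≤ 1 / 2 := by
    have e1 : K2 * P * (T - t₁) * A1 = K2 * (A * P * (T - t₁)) + 1 / 4 := by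
      rw [hA1, mul_add]
      have : K2 * P * (T - t₁) * (1 / (4 * K2 * P * (T - t₁))) = 1 / 4 := by field_simp
      rw [this]; ring
    have e2 : K2 * (A * P * (T - t₁)) ≤ K2 * (1 / (4 * K2)) := mul_le_mul_of_nonneg_left hsmall hK20.le
    have e3 : K2 * (1 / (4 * K2)) = 1 / 4 := by field_simp
    rw [e1]; linarith
  set D : ℝ → ℝ := fun t => 1 / A1 - K2 * P * (t - t₁) with hD
  have hDlow : ∀ t, t ≤ T → 1 / (2 * A1) ≤ D t := fun t ht => by
    simp only [hD]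
    have g1 : K2 * P * (t - t₁) ≤ K2 * P * (T - t₁) :=
      mul_le_mul_of_nonneg_left (by linarith) (by positivity)
    have g2 : K2 * P * (T - t₁) ≤ 1 / (2 * A1) := by
      rw [le_div_iff₀ (by positivity)]; linarith
    have g3 : 1 / A1 = 1 / (2 * A1) + 1 / (2 * A1) := by field_simp; ring
    linarith
  have hDpos : ∀ t, t ≤ T → 0 < D t := fun t ht => lt_of_lt_of_le (by positivity) (hDlow t ht)
  have hDd : ∀ t, HasDerivAt D (-(K2 * P)) t := fun t => by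
    have g1 : HasDerivAt (fun t : ℝ => K2 * P * (t - t₁)) (K2 * P * 1) t :=
      ((hasDerivAt_id t).sub_const t₁).const_mul (K2 * P)
    have g2 := g1.const_sub (1 / A1)
    rw [mul_one] at g2
    exact g2
  have hDc : Continuous D := by rw [hD]; fun_prop
  have hbar := Pool.Agent.H878.KS.BARR d T t₁ f N (fun t => (D t)⁻¹) (fun t => K2 * P / D t ^ 2) (fun _ => μ)
    h.periodic h.cont h.decay h.diff ht₁ continuousOn_const (fun _ _ _ _ _ => le_rfl) (fun _ _ => hμ)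
    (hDc.continuousOn.inv₀ fun t ht => (hDpos t ht.2.le).ne')
    (by
      intro t ht t' ht' htt
      have g1 := hDpos t' ht'.2.le
      refine inv_anti₀ g1 ?_
      simp only [hD]
      have := mul_le_mul_of_nonneg_left (by linarith : t - t₁ ≤ t' - t₁) (by positivity : 0 ≤ K2 * P)
      linarith)
    (inv_pos.2 (hDpos t₁ ht₁.2.le))
    (by
      intro t ht
      have g1 := (hDd t).inv (hDpos t ht.2.le).ne'
      refine g1.congr_deriv ?_
      rw [neg_neg])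
    (by
      intro x v
      have e0 : (D t₁)⁻¹ = A1 := by simp [hD]
      simp only [e0]
      have g1 := hA x v
      have g2 := φs_pos N μ v
      have g3 : A < A1 := by rw [hA1]; have : 0 < 1 / (4 * K2 * P * (T - t₁)) := by positivity
                             linarith
      exact g1.trans_lt (mul_lt_mul_of_pos_right g3 g2))
    (by
      intro t htI x v hle hv
      have ht0 : t ∈ Ioo 0 T := ⟨ht₁.1.trans_lt htI.1, htI.2⟩
      have ht0' : t ∈ Ico 0 T := ⟨ht0.1.le, ht0.2⟩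
      have hDt := hDpos t htI.2.le
      have hDf := ht t ht0 x v (D t)⁻¹ μ hμ hle hv
      have hq := hmom (f t x) (h.measurable ht0' x) (D t)⁻¹ μ (inv_pos.2 hDt).le hμ0 hle v
      have hq2 : (momS γ 0 p μ (f t x) v).toReal ≤ K1 * (D t)⁻¹ * P :=
        ENNReal.toReal_le_of_le_ofReal (by positivity) hq
      have hφ := φs_pos N μ v
      refine hDf.trans_lt ?_
      rw [hv]
      have g1 : C * ((D t)⁻¹ * φs N μ v) * (momS γ 0 p μ (f t x) v).toReal ≤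
          C * ((D t)⁻¹ * φs N μ v) * (K1 * (D t)⁻¹ * P) :=
        mul_le_mul_of_nonneg_left hq2 (by positivity)
      refine g1.trans_lt ?_
      have e : K2 * P / D t ^ 2 * φs N μ v =
          C * ((D t)⁻¹ * φs N μ v) * (K1 * (D t)⁻¹ * P) + (D t)⁻¹ ^ 2 * P * φs N μ v := by
        rw [hK2, div_eq_mul_inv, ← inv_pow]; ring
      rw [e]
      have : 0 < (D t)⁻¹ ^ 2 * P * φs N μ v := by positivity
      linarith)
  refine ⟨2 * A1, by positivity, fun t ht x v => (hbar t ht x v).le.trans ?_⟩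
  refine mul_le_mul_of_nonneg_right ?_ (φs_pos N μ v).le
  have g1 := hDlow t ht.2.le
  calc (D t)⁻¹ ≤ (1 / (2 * A1))⁻¹ := inv_anti₀ (by positivity) g1
    _ = 2 * A1 := by rw [one_div, inv_inv]

/-- the critical integral criterion -/
theorem critZ (hd : 2 ≤ d) {s K γ p : ℝ} (hs0 : 0 < s) (hs1 : s < 1) (hγ0 : 0 ≤ γ) (hγ2 : γ < 2)
    (hp : γ + 2 * s ≤ p) (hpγ : p ≤ γ + 2)
    {b : ℝ → ℝ} (hb : IsAng (((d:ℝ) - 1) / 2 + s) K b) {T : ℝ} (hT : 0 < T) {f : ℝ → V d → V d → ℝ} (h : IsSol γ b T f)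
    {r θ : ℝ → ℝ} (hθc : ContinuousOn θ (Ico 0 T)) (hθm : MonotoneOn θ (Ico 0 T)) (hθ1 : ∀ t ∈ Ico 0 T, 1 ≤ θ t)
    {c : ℝ} (hc : 0 < c) (hr0 : ∀ t ∈ Ico 0 T, 0 ≤ r t) (hrm : ∀ t ∈ Ico 0 T, c * θ t ^ d ≤ r t)
    (hint : IntegrableOn (fun t => r t * θ t ^ γ) (Ico 0 T))
    (hρ : ∀ t ∈ Ico 0 T, ∀ x, rho f t x ≤ r t)
    (hE : ∀ t ∈ Ico 0 T, ∀ x, Mp p f t x ≤ r t * θ t ^ p) : Reg T f := by
  intro N₀
  have hd0 : (0:ℝ) ≤ d := by positivity
  obtain ⟨N, hNdef⟩ : ∃ N, N = N₀ + (d + 6) := ⟨_, rfl⟩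
  have hN : (d:ℝ) + 6 ≤ 2 * (N : ℝ) := by
    rw [hNdef]; push_cast; linarith [(by positivity : (0:ℝ) ≤ N₀)]
  obtain ⟨K', hK', hb'⟩ := stepP hd hs0 hs1 hγ0 hγ2 hp hpγ hb hT h hθc hθm hθ1 hr0
    (κ := γ) (ℓ := 1) (ε := 1) (C1 := 1) zero_le_one (by linarith) (by linarith) zero_le_one hint hρ
    (fun t ht x => by rw [one_mul, mul_one]; exact hE t ht x) hN
  obtain ⟨C, hC, htouch⟩ := touchE (K := K) hd hs0 hs1 (a := p - γ) (by linarith) (by linarith) hγ0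
    hγ2 hN
  obtain ⟨c', hc', hrate⟩ := rateH hd hγ0 (by linarith : p ≤ 4) h hN hC (htouch b hb T f h)
  obtain ⟨t₁, ht₁, hsm⟩ := Pool.Agent.H43.KS.exists_small hT hint (δ := c * c' / (K' + 1)) (by positivity)
  have hθ := hθ1 t₁ ht₁
  have hθ0 : 0 < θ t₁ := by linarith
  have hTt : 0 < T - t₁ := by linarith [ht₁.2]
  set μ : ℝ := θ t₁ with hμ
  have eμ : μ ^ (γ + d) = μ ^ d * μ ^ γ := by
    rw [Real.rpow_add hθ0, Real.rpow_natCast]; ring
  have hrw : c * (μ ^ (γ + d) * (T - t₁)) ≤ c * c' / (K' + 1) := by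
    refine le_trans ?_ hsm
    rw [eμ, ← mul_assoc, ← mul_assoc]
    refine mul_le_mul_of_nonneg_right (mul_le_mul_of_nonneg_right (hrm t₁ ht₁) ?_) hTt.le
    positivity
  have hrw2 : μ ^ (γ + d) * (T - t₁) ≤ c' / (K' + 1) := by
    have : c * c' / (K' + 1) = c * (c' / (K' + 1)) := by ring
    rw [this] at hrw
    exact le_of_mul_le_mul_left hrw hc
  have hrw3 : K' * μ ^ (γ + d) * (T - t₁) ≤ c' := by
    rw [le_div_iff₀ (by positivity)] at hrw2
    have g2 : 0 ≤ μ ^ (γ + d) * (T - t₁) := by positivity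
    nlinarith
  obtain ⟨B, hB, hBb⟩ := hrate t₁ ht₁ K' μ hθ (fun x v => by
    have := hb' t₁ ht₁ x v
    rwa [Real.rpow_one] at this) hrw3
  obtain ⟨K2, hK2, hb2⟩ := h.decayφ ht₁ N₀
  refine ⟨max (B * μ ^ (2 * N)) K2, fun t ht x v => ?_⟩
  rcases le_total t t₁ with g | g
  · exact (hb2 t ⟨ht.1, g⟩ x v).trans (mul_le_mul_of_nonneg_right (le_max_right _ _) (φ_pos _ v).le)
  · have g1 := hBb t ⟨g, ht.2⟩ x v
    have g2 := Pool.Agent.H43.KS.φs_scale N hθ one_pos v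
    rw [mul_one, φs_one] at g2
    have g3 : φ N v ≤ φ N₀ v := by rw [hNdef]; exact φ_anti N₀ (d + 6) v
    have g4 : 0 ≤ μ ^ (2 * N) := by positivity
    calc f t x v ≤ B * φs N μ v := g1
      _ ≤ B * (μ ^ (2 * N) * φ N₀ v) := by gcongr; exact g2.trans (mul_le_mul_of_nonneg_left g3 g4)
      _ = B * μ ^ (2 * N) * φ N₀ v := by ring
      _ ≤ _ := mul_le_mul_of_nonneg_right (le_max_left _ _) (φ_pos _ v).le

/-- both cases of the criterion -/
theorem critG (hd : 2 ≤ d) {s K γ p : ℝ} (hs0 : 0 < s) (hs1 : s < 1) (hγ0 : 0 ≤ γ) (hγ2 : γ < 2)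
    (hp : γ + 2 * s ≤ p)
    {b : ℝ → ℝ} (hb : IsAng (((d:ℝ) - 1) / 2 + s) K b) {T : ℝ} (hT : 0 < T) {f : ℝ → V d → V d → ℝ} (h : IsSol γ b T f)
    {r θ : ℝ → ℝ} (hθc : ContinuousOn θ (Ico 0 T)) (hθm : MonotoneOn θ (Ico 0 T)) (hθ1 : ∀ t ∈ Ico 0 T, 1 ≤ θ t)
    {c g : ℝ} (hc : 0 < c) (hr0 : ∀ t ∈ Ico 0 T, c ≤ r t) (hg : 0 ≤ g)
    (hg' : 0 < g ∨ ∀ t ∈ Ico 0 T, c * θ t ^ d ≤ r t)
    (hint : IntegrableOn (fun t => r t * θ t ^ (γ + g)) (Ico 0 T))
    (hρ : ∀ t ∈ Ico 0 T, ∀ x, rho f t x ≤ r t)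
    (hE : ∀ t ∈ Ico 0 T, ∀ x, Mp p f t x ≤ r t * θ t ^ p) : Reg T f := by
  rcases hg.eq_or_lt with h0 | h0
  · have hrm : ∀ t ∈ Ico 0 T, c * θ t ^ d ≤ r t := by
      rcases hg' with h1 | h1
      · exact absurd h1 (by rw [← h0]; exact lt_irrefl _)
      · exact h1
    rw [← h0, add_zero] at hint
    have hr0' : ∀ t ∈ Ico 0 T, 0 ≤ r t := fun t ht => hc.le.trans (hr0 t ht)
    rcases le_total p (γ + 2) with hle | hle
    · exact critZ hd hs0 hs1 hγ0 hγ2 hp hle hb hT h hθc hθm hθ1 hc hr0' hrm hint hρ hE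
    · have hint' : IntegrableOn (fun t => 2 * r t * θ t ^ γ) (Ico 0 T) := by
        have h9 : IntegrableOn (fun t => 2 * (r t * θ t ^ γ)) (Ico 0 T) := hint.const_mul 2
        simpa only [mul_assoc] using h9
      refine critZ hd hs0 hs1 hγ0 hγ2 (p := γ + 2) (by linarith) le_rfl hb hT h (r := fun t => 2 * r t)
        hθc hθm hθ1 hc (fun t ht => by have := hr0' t ht; linarith)
        (fun t ht => by have := hr0' t ht; have := hrm t ht; linarith) hint' ?_ ?_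
      · intro t ht x
        have := hr0' t ht
        exact (hρ t ht x).trans (by linarith)
      · intro t ht x
        exact Mp_down (by linarith) hle (by linarith [hθ1 t ht]) h ht x (hρ t ht x) (hE t ht x)
  · exact critA hd hs0 hs1 hγ0 hγ2 hp hb hT h hθc hθm hθ1 hc hr0 h0 hint hρ hE

/-- the localised criterion, both cases -/
theorem critG_loc (hd : 2 ≤ d) {s K γ p : ℝ} (hs0 : 0 < s) (hs1 : s < 1) (hγ0 : 0 ≤ γ) (hγs : γ + 2 * s ≤ 2)
    (hp : γ + 2 * s ≤ p)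
    {b : ℝ → ℝ} (hb : IsAng (((d:ℝ) - 1) / 2 + s) K b) {T : ℝ} (hT : 0 < T) {f : ℝ → V d → V d → ℝ} (h : IsSol γ b T f)
    {r θ : ℝ → ℝ} (hθc : ContinuousOn θ (Ico 0 T)) (hθm : MonotoneOn θ (Ico 0 T)) (hθ1 : ∀ t ∈ Ico 0 T, 1 ≤ θ t)
    {c g : ℝ} (hc : 0 < c) (hr0 : ∀ t ∈ Ico 0 T, c ≤ r t) (hg : 0 ≤ g)
    (hg' : 0 < g ∨ ∀ t ∈ Ico 0 T, c * θ t ^ d ≤ r t)
    (hint : IntegrableOn (fun t => r t * θ t ^ (γ + g)) (Ico 0 T))
    {U : V d → Prop} {B : ℝ} (hU : ∀ t ∈ Ico 0 T, ∀ x, ¬ U x → rho f t x ≤ B ∧ ener f t x ≤ B)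
    {T' : ℝ} (hT' : T' ∈ Ico 0 T)
    (hb' : ∀ t ∈ Ico T' T, ∀ x, U x → rho f t x ≤ r t ∧ Mp p f t x ≤ r t * θ t ^ p) :
    Reg T f := by
  have hγ2 : γ < 2 := by linarith
  have hp0 : 0 < p := by linarith
  -- reduce to `q ≤ 2`
  obtain ⟨q, hq⟩ : ∃ q, q = min p 2 := ⟨_, rfl⟩
  have hq2 : q ≤ 2 := by rw [hq]; exact min_le_right _ _
  have hqp : q ≤ p := by rw [hq]; exact min_le_left _ _
  have hqs : γ + 2 * s ≤ q := by rw [hq]; exact le_min hp hγs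
  have hq0 : 0 < q := by linarith
  obtain ⟨M, hM, hMb⟩ := h.bdd hT'
  set B' := max |B| M with hB'
  have hB'0 : 0 ≤ B' := le_max_of_le_right hM
  have hMB : M ≤ B' := le_max_right _ _
  have hBB : B ≤ B' := (le_abs_self B).trans (le_max_left _ _)
  have key : ∀ t ∈ Ico 0 T, ∀ x, (rho f t x ≤ 2 * B' ∧ Mp q f t x ≤ 2 * B') ∨
      (rho f t x ≤ r t ∧ Mp q f t x ≤ 2 * r t * θ t ^ q) := fun t ht x => by
    have hle := Mp_le hq0.le hq2 h ht x
    rcases le_total t T' with h1 | h1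
    · left
      have := hMb t ⟨ht.1, h1⟩ x
      exact ⟨by linarith [this.1], by linarith [this.1, this.2]⟩
    · by_cases hx : U x
      · right
        have h2 := hb' t ⟨h1, ht.2⟩ x hx
        exact ⟨h2.1, Mp_down hq0.le hqp (by linarith [hθ1 t ht]) h ht x h2.1 h2.2⟩
      · left
        have := hU t ht x hx
        exact ⟨by linarith [this.1], by linarith [this.1, this.2]⟩
  set L : ℝ := 2 + 2 * B' / c with hL
  have hBc : 0 ≤ 2 * B' / c := by positivity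
  have hL1 : 1 ≤ L := by linarith
  have hint' : IntegrableOn (fun t => L * r t * θ t ^ (γ + g)) (Ico 0 T) := by
    have h9 : IntegrableOn (fun t => L * (r t * θ t ^ (γ + g))) (Ico 0 T) := hint.const_mul L
    simpa only [mul_assoc] using h9
  have hrr : ∀ t ∈ Ico 0 T, 2 * r t ≤ L * r t ∧ 2 * B' ≤ L * r t := fun t ht => by
    have h1 := hr0 t ht
    have h2 : 2 * B' ≤ 2 * B' / c * r t := by
      rw [div_mul_eq_mul_div, le_div_iff₀ hc]
      exact mul_le_mul_of_nonneg_left h1 (by linarith)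
    have h3 : 0 ≤ 2 * B' / c * r t := mul_nonneg hBc (by linarith)
    have h4 : L * r t = 2 * r t + 2 * B' / c * r t := by rw [hL]; ring
    constructor
    · linarith
    · linarith
  refine critG hd hs0 hs1 hγ0 hγ2 hqs hb hT h (r := fun t => L * r t) hθc hθm hθ1 hc
    (fun t ht => by have := hr0 t ht; have := (hrr t ht).1; linarith) hg
    (hg'.imp_right fun h1 t ht => by
      have := hr0 t ht; have := (hrr t ht).1; have := h1 t ht; linarith) hint' ?_ ?_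
  · intro t ht x
    have h0 := hrr t ht
    have h3 := hr0 t ht
    rcases key t ht x with h1 | h1
    · exact h1.1.trans h0.2
    · exact h1.1.trans (by linarith)
  · intro t ht x
    have h0 := hrr t ht
    have h2 : 1 ≤ θ t ^ q := Real.one_le_rpow (hθ1 t ht) hq0.le
    have h3 := hr0 t ht
    rcases key t ht x with h1 | h1
    · refine (h1.2.trans h0.2).trans ?_
      exact le_mul_of_one_le_right (by linarith) h2
    · refine h1.2.trans ?_
      exact mul_le_mul_of_nonneg_right h0.1 (by linarith)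

end Pool.Agent.H821.BL
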