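import Pool.Agent.H821.BZ.Main2

/-! Growth estimates for abstract evolutions. -/

set_option autoImplicit false
open MeasureTheory Metric Set Filter Topology
open scoped ENNReal Real InnerProductSpace Pointwise

namespace Pool.Agent.H821.BL

open Pool.Agent.H821.BZ

variable {d : ℕ}

/-- regularity of the densities considered -/
structure IsReg (T : ℝ) (f : ℝ → V d → V d → ℝ) : Prop where
  nonneg : ∀ t ∈ Ico 0 T, ∀ x v, 0 ≤ f t x v
  periodic : ∀ t ∈ Ico 0 T, ∀ (n : Fin d → ℤ) (x v : V d), f t (x + zv n) v = f t x v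
  cont : ContinuousOn (fun p : ℝ × V d × V d => f p.1 p.2.1 p.2.2) (Ico 0 T ×ˢ univ)
  decay : ∀ t₂ ∈ Ico 0 T, ∀ q : ℕ, ∃ C, ∀ t ∈ Icc 0 t₂, ∀ x v : V d, f t x v ≤ C * ((1 + ‖v‖) ^ q)⁻¹
  diff : ∀ t ∈ Ioo 0 T, ∀ x v : V d, DifferentiableAt ℝ (fun p : ℝ × V d => f p.1 p.2 v) (t, x)

section
variable {T : ℝ} {f : ℝ → V d → V d → ℝ}

lemma IsReg.measurable (h : IsReg T f) {t : ℝ} (ht : t ∈ Ico 0 T) (x : V d) : Measurable (f t x) := by
  have h1 : Continuous (fun v : V d => f t x v) := by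
    rw [← continuousOn_univ]
    exact h.cont.comp (f := fun v : V d => (t, x, v)) (s := univ)
      (continuous_const.prodMk (continuous_const.prodMk continuous_id)).continuousOn
      (fun v _ => ⟨ht, mem_univ _⟩)
  exact h1.measurable

lemma IsReg.decayφ (h : IsReg T f) {t₂ : ℝ} (ht : t₂ ∈ Ico 0 T) (N : ℕ) :
    ∃ C, 0 ≤ C ∧ ∀ t ∈ Icc 0 t₂, ∀ x v : V d, f t x v ≤ C * φ N v := by
  obtain ⟨C, hC⟩ := h.decay t₂ ht (2 * N)
  refine ⟨|C|, abs_nonneg _, fun t ht x v => (hC t ht x v).trans ?_⟩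
  calc C * ((1 + ‖v‖) ^ (2 * N))⁻¹ ≤ |C| * ((1 + ‖v‖) ^ (2 * N))⁻¹ :=
        mul_le_mul_of_nonneg_right (le_abs_self C) (by positivity)
    _ ≤ |C| * φ N v := mul_le_mul_of_nonneg_left (φ_lower N v) (abs_nonneg _)

lemma IsReg.timecont (h : IsReg T f) {t₀ : ℝ} (ht₀ : t₀ ∈ Ioo 0 T) (x v : V d) :
    Tendsto (fun t => f t x v) (𝓝[<] t₀) (𝓝 (f t₀ x v)) := by
  have h1 := h.cont (t₀, x, v) ⟨⟨ht₀.1.le, ht₀.2⟩, mem_univ _⟩
  have h2 : ContinuousWithinAt (fun t => f t x v) (Ico 0 T) t₀ :=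
    h1.comp (f := fun t => (t, x, v)) (s := Ico 0 T)
      ((continuous_id.prodMk continuous_const).continuousWithinAt) (fun t ht => ⟨ht, mem_univ _⟩)
  refine h2.mono_left (le_inf inf_le_left ?_)
  rw [le_principal_iff]
  exact mem_of_superset (Ico_mem_nhdsLT ht₀.1) fun t ht => ⟨ht.1, ht.2.trans ht₀.2⟩
end

/-- abstract growth estimate with weights of variable scale -/
theorem growthS {T : ℝ} {f : ℝ → V d → V d → ℝ} (h : IsReg T f) {N : ℕ} {C : ℝ} (hC : 0 ≤ C)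
    {t₁ : ℝ} (ht₁ : t₁ ∈ Ico 0 T) {μ : ℝ → ℝ} (hμc : ContinuousOn μ (Ico t₁ T)) (hμm : MonotoneOn μ (Ico t₁ T))
    (hμ1 : ∀ t ∈ Ico t₁ T, 1 ≤ μ t) {J : ℝ → ℝ} (hJc : ContinuousOn J (Ico t₁ T)) (hJ1 : J t₁ = 0)
    (hJ0 : ∀ t ∈ Ico t₁ T, 0 ≤ J t)
    {q : ℝ → V d → V d → ℝ} (hq : ∀ t x v, 0 ≤ q t x v)
    (htouch : ∀ t ∈ Ioo t₁ T, ∀ (x v : V d) (m : ℝ), (∀ w, f t x w ≤ m * φs N (μ t) w) → f t x v = m * φs N (μ t) v →
      fderiv ℝ (fun p : ℝ × V d => f p.1 p.2 v) (t, x) (1, v) ≤ C * f t x v * q t x v)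
    (hJ : ∀ t₀ ∈ Ioo t₁ T, ∀ x v, ∀ l < q t₀ x v, ∀ᶠ t in 𝓝[<] t₀, l * (t₀ - t) ≤ J t₀ - J t)
    {A : ℝ} (hA : ∀ x v, f t₁ x v ≤ A * φs N (μ t₁) v) :
    ∀ t ∈ Ico t₁ T, ∀ x v, f t x v ≤ A * Real.exp (C * J t) * φs N (μ t) v := by
  intro t ht x v
  have hA0 : 0 ≤ A := by
    have h1 := (h.nonneg t₁ ht₁ 0 0).trans (hA 0 0)
    exact nonneg_of_mul_nonneg_left h1 (φs_pos N _ 0)
  have key : ∀ δ : ℝ, 0 < δ → f t x v ≤ (A + δ) * Real.exp (C * J t + δ * (t - t₁)) * φs N (μ t) v := by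
    intro δ hδ
    set M : ℝ → ℝ := fun t => (A + δ) * Real.exp (C * J t + δ * (t - t₁)) with hM
    have hMc : ContinuousOn M (Ico t₁ T) := by
      refine ContinuousOn.mul continuousOn_const (Real.continuous_exp.comp_continuousOn ?_)
      exact (hJc.const_mul C).add (by fun_prop)
    have hMpos : ∀ t, 0 < M t := fun t => by rw [hM]; positivity
    refine (barrierG (N := N) (B := fun t v => M t * φs N (μ t) v) h.periodic h.cont h.decay h.diff ht₁.1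
      ?_ ?_ ?_ ?_ t ht x v).le
    · have h1 : ContinuousOn (fun p : ℝ × V d => M p.1) (Ico t₁ T ×ˢ (univ : Set (V d))) := by
        have hfst : ContinuousOn (Prod.fst : ℝ × V d → ℝ) (Ico t₁ T ×ˢ (univ : Set (V d))) := continuousOn_fst
        exact hMc.comp hfst (fun p hp => hp.1)
      exact h1.mul (φs_cont N hμc fun t ht => lt_of_lt_of_le one_pos (hμ1 t ht))
    · intro t₂ ht₂
      refine ⟨A + δ, by positivity, fun t ht v => ?_⟩
      have htI : t ∈ Ico t₁ T := ⟨ht.1, ht.2.trans_lt ht₂.2⟩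
      have h1 : A + δ ≤ M t := by
        rw [hM]
        refine le_mul_of_one_le_right (by positivity) (Real.one_le_exp ?_)
        have := hJ0 t htI
        have h2 : 0 ≤ t - t₁ := by linarith [ht.1]
        positivity
      have h2 : ((1 + ‖v‖) ^ (2 * N))⁻¹ ≤ φs N (μ t) v := by
        refine (φ_lower N v).trans ?_
        rw [← φs_one]
        exact φs_mono N one_pos (hμ1 t htI) v
      exact mul_le_mul h1 h2 (by positivity) (hMpos t).le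
    · intro x v
      have hM1 : M t₁ = A + δ := by
        simp only [hM, hJ1, sub_self, mul_zero, add_zero, Real.exp_zero, mul_one]
      simp only [hM1]
      have := φs_pos N (μ t₁) v
      nlinarith [hA x v]
    · intro t₀ ht₀ x₀ v₀ hle heq
      have hM0 := hMpos t₀
      have hφ := φs_pos N (μ t₀) v₀
      set m0 := q t₀ x₀ v₀ with hm0
      have hm00 : 0 ≤ m0 := hq _ _ _
      have ht₀' : t₀ ∈ Ioo 0 T := ⟨ht₁.1.trans_lt ht₀.1, ht₀.2⟩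
      have hD := htouch t₀ ht₀ x₀ v₀ (M t₀) (fun w => hle x₀ w) heq
      refine ⟨M t₀ * (C * m0 + δ / 2) * φs N (μ t₀) v₀, ?_, ?_⟩
      · refine hD.trans_lt ?_
        rw [heq]
        have : 0 < M t₀ * φs N (μ t₀) v₀ * (δ / 2) := by positivity
        have e : M t₀ * (C * m0 + δ / 2) * φs N (μ t₀) v₀ = C * (M t₀ * φs N (μ t₀) v₀) * m0 + M t₀ * φs N (μ t₀) v₀ * (δ / 2) := by ring
        rw [e]; linarith
      · set l := m0 - δ / (4 * (C + 1)) with hl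
        have hlm : l < m0 := by rw [hl]; have : 0 < δ / (4 * (C + 1)) := by positivity
                                linarith
        have hCl : C * m0 + 3 * δ / 4 ≤ C * l + δ := by
          rw [hl]
          have h1 : C * (δ / (4 * (C + 1))) ≤ δ / 4 := by
            rw [mul_div_assoc', div_le_div_iff₀ (by positivity) (by norm_num)]
            nlinarith
          nlinarith
        have hMt : Tendsto M (𝓝[<] t₀) (𝓝 (M t₀)) := (hMc t₀ ⟨ht₀.1.le, ht₀.2⟩).mono_left (nhdsLT_le ht₀)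
        have hlt : M t₀ * (C * m0 + δ / 2) < M t₀ * (C * m0 + 3 * δ / 4) :=
          mul_lt_mul_of_pos_left (by linarith) hM0
        have hev := (hMt.mul_const (C * m0 + 3 * δ / 4)).eventually (lt_mem_nhds hlt)
        filter_upwards [hJ t₀ ht₀ x₀ v₀ l hlm, Ico_mem_nhdsLT ht₀.1, hev] with t h1 h2 h3
        have hty : 0 < t₀ - t := by linarith [h2.2]
        have hMt0 : 0 < M t := hMpos t
        set y := C * (J t₀ - J t) + δ * (t₀ - t) with hy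
        have hyl : (C * m0 + 3 * δ / 4) * (t₀ - t) ≤ y := by
          rw [hy]
          nlinarith [mul_le_mul_of_nonneg_left h1 hC, mul_le_mul_of_nonneg_right hCl hty.le]
        have hMr : M t₀ = M t * Real.exp y := by
          rw [hM, hy]; simp only
          rw [mul_assoc (A + δ), ← Real.exp_add]; congr 2; ring
        have hey := Real.add_one_le_exp y
        have hgap : M t * y ≤ M t₀ - M t := by rw [hMr]; nlinarith
        have h4 : M t * ((C * m0 + 3 * δ / 4) * (t₀ - t)) ≤ M t * y := mul_le_mul_of_nonneg_left hyl hMt0.le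
        have h5 : M t₀ * (C * m0 + δ / 2) * (t₀ - t) ≤ M t₀ - M t := by
          nlinarith [mul_le_mul_of_nonneg_right h3.le hty.le]
        have htI : t ∈ Ico t₁ T := ⟨h2.1, h2.2.trans ht₀.2⟩
        have hμ' : φs N (μ t) v₀ ≤ φs N (μ t₀) v₀ :=
          φs_mono N (lt_of_lt_of_le one_pos (hμ1 t htI)) (hμm htI ⟨ht₀.1.le, ht₀.2⟩ h2.2.le) v₀
        calc M t₀ * (C * m0 + δ / 2) * φs N (μ t₀) v₀ * (t₀ - t) = (M t₀ * (C * m0 + δ / 2) * (t₀ - t)) * φs N (μ t₀) v₀ := by ring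
          _ ≤ (M t₀ - M t) * φs N (μ t₀) v₀ := mul_le_mul_of_nonneg_right h5 hφ.le
          _ = M t₀ * φs N (μ t₀) v₀ - M t * φs N (μ t₀) v₀ := by ring
          _ ≤ M t₀ * φs N (μ t₀) v₀ - M t * φs N (μ t) v₀ := by
              have := mul_le_mul_of_nonneg_left hμ' hMt0.le
              linarith
  have hlim : Tendsto (fun δ : ℝ => (A + δ) * Real.exp (C * J t + δ * (t - t₁)) * φs N (μ t) v) (𝓝[>] 0)
      (𝓝 ((A + 0) * Real.exp (C * J t + 0 * (t - t₁)) * φs N (μ t) v)) := by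
    refine tendsto_nhdsWithin_of_tendsto_nhds (Continuous.tendsto ?_ 0)
    fun_prop
  rw [add_zero, zero_mul, add_zero] at hlim
  refine ge_of_tendsto hlim ?_
  filter_upwards [self_mem_nhdsWithin] with δ hδ using key δ hδ

section
variable {γ a T t₁ : ℝ} {f : ℝ → V d → V d → ℝ} {μ : ℝ → ℝ} {N : ℕ}

lemma LS_bdd (ha : 0 ≤ a) (hMB : MomB d (min γ 0) (max γ 0 + a) N) (h : IsReg T f) (ht₁ : t₁ ∈ Ico 0 T)
    (hμm : MonotoneOn μ (Ico t₁ T)) (hμ1 : ∀ t ∈ Ico t₁ T, 1 ≤ μ t) :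
    ∀ t₂ ∈ Ico t₁ T, ∃ L : ℝ, 0 ≤ L ∧ ∀ t ∈ Icc t₁ t₂, LS γ a μ f t ≤ ENNReal.ofReal L := by
  intro t₂ ht₂
  obtain ⟨K1, hK1, hmom⟩ := hMB
  obtain ⟨C, hC, hCb⟩ := h.decayφ (t₂ := t₂) ⟨ht₁.1.trans ht₂.1, ht₂.2⟩ N
  refine ⟨μ t₂ ^ (γ - min γ 0) * (K1 * C), ?_, fun t ht => iSup_le fun x => iSup_le fun v => ?_⟩
  · have : 0 ≤ μ t₂ := by linarith [hμ1 t₂ ht₂]
    positivity
  · have htI : t ∈ Ico t₁ T := ⟨ht.1, ht.2.trans_lt ht₂.2⟩
    have ht0 : t ∈ Ico 0 T := ⟨ht₁.1.trans ht.1, htI.2⟩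
    have hμt := hμ1 t htI
    have ha' : 0 ≤ max γ 0 + a := by have := le_max_right γ 0; linarith
    refine (momS_le (min_le_right _ _) ha' hμt (h.nonneg t ht0 x) v).trans ?_
    rw [ENNReal.ofReal_mul (by have := hμ1 t₂ ht₂; positivity)]
    refine mul_le_mul' (ENNReal.ofReal_le_ofReal ?_) (hmom (f t x) C hC (hCb t ⟨ht0.1, ht.2⟩ x) v)
    refine Real.rpow_le_rpow (by linarith) (hμm htI ht₂ ht.2) ?_
    have := min_le_left γ 0; linarith

/-- the scaled moments are continuous from the left -/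
lemma momS_left [Nontrivial (V d)] (ha : 0 ≤ a) (hMB : MomB d (min γ 0) (max γ 0 + a) N) (h : IsReg T f) (ht₁ : t₁ ∈ Ico 0 T)
    (hμc : ContinuousOn μ (Ico t₁ T)) (hμm : MonotoneOn μ (Ico t₁ T)) (hμ1 : ∀ t ∈ Ico t₁ T, 1 ≤ μ t)
    {t₀ : ℝ} (ht₀ : t₀ ∈ Ioo t₁ T) (x v : V d) :
    Tendsto (fun t => momS γ (min γ 0) (max γ 0 + a) (μ t) (f t x) v) (𝓝[<] t₀)
      (𝓝 (momS γ (min γ 0) (max γ 0 + a) (μ t₀) (f t₀ x) v)) := by
  obtain ⟨K1, hK1, hmom⟩ := hMB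
  have ht₀0 : t₀ ∈ Ioo 0 T := ⟨ht₁.1.trans_lt ht₀.1, ht₀.2⟩
  obtain ⟨m, hm, hmle⟩ := h.decayφ (t₂ := t₀) ⟨ht₀0.1.le, ht₀.2⟩ N
  have hIco : Ico t₁ t₀ ∈ 𝓝[<] t₀ := Ico_mem_nhdsLT ht₀.1
  have hμ0 : 1 ≤ μ t₀ := hμ1 t₀ ⟨ht₀.1.le, ht₀.2⟩
  have ha' : 0 ≤ max γ 0 + a := by have := le_max_right γ 0; linarith
  have hμt : Tendsto μ (𝓝[<] t₀) (𝓝 (μ t₀)) := (hμc t₀ ⟨ht₀.1.le, ht₀.2⟩).mono_left (nhdsLT_le ht₀)
  unfold momS
  refine tendsto_lintegral_filter_of_dominated_convergence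
    (fun w => ENNReal.ofReal ((μ t₀ ^ (γ - min γ 0)) * ((m * φ N w) * (‖w - v‖ ^ (min γ 0) + (1 + ‖w‖) ^ (max γ 0 + a))))) ?_ ?_ ?_ ?_
  · filter_upwards [hIco] with t ht
    refine (Measurable.mul (h.measurable ⟨ht₁.1.trans ht.1, ht.2.trans ht₀.2⟩ x) ?_).ennreal_ofReal
    fun_prop
  · filter_upwards [hIco] with t ht
    refine Eventually.of_forall fun w => ENNReal.ofReal_le_ofReal ?_
    have htI : t ∈ Ico t₁ T := ⟨ht.1, ht.2.trans ht₀.2⟩
    have hμt1 := hμ1 t htI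
    have hμp : 0 < μ t := by linarith
    have hfw := h.nonneg t ⟨ht₁.1.trans ht.1, htI.2⟩ x w
    have h1 : (‖w - v‖ / μ t) ^ (min γ 0) = μ t ^ (-(min γ 0)) * ‖w - v‖ ^ (min γ 0) := by
      rw [Real.div_rpow (norm_nonneg _) hμp.le, Real.rpow_neg hμp.le]; field_simp
    have h2 : (1 + ‖w‖ / μ t) ^ (max γ 0 + a) ≤ μ t ^ (-(min γ 0)) * (1 + ‖w‖) ^ (max γ 0 + a) := by
      have h3 : (1 + ‖w‖ / μ t) ^ (max γ 0 + a) ≤ (1 + ‖w‖) ^ (max γ 0 + a) := by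
        refine Real.rpow_le_rpow (by positivity) ?_ ha'
        have := div_le_self (norm_nonneg w) hμt1; linarith
      have h4 : 1 ≤ μ t ^ (-(min γ 0)) := Real.one_le_rpow hμt1 (by have := min_le_right γ 0; linarith)
      have h5 : 0 ≤ (1 + ‖w‖) ^ (max γ 0 + a) := by positivity
      nlinarith
    have h6 : 0 ≤ f t x w * μ t ^ γ := mul_nonneg hfw (by positivity)
    have h7 : μ t ^ (γ - min γ 0) ≤ μ t₀ ^ (γ - min γ 0) :=
      Real.rpow_le_rpow hμp.le (hμm htI ⟨ht₀.1.le, ht₀.2⟩ ht.2.le) (by have := min_le_left γ 0; linarith)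
    have hG : 0 ≤ ‖w - v‖ ^ (min γ 0) + (1 + ‖w‖) ^ (max γ 0 + a) := by positivity
    calc f t x w * (μ t ^ γ * ((‖w - v‖ / μ t) ^ (min γ 0) + (1 + ‖w‖ / μ t) ^ (max γ 0 + a)))
        = (f t x w * μ t ^ γ) * ((‖w - v‖ / μ t) ^ (min γ 0) + (1 + ‖w‖ / μ t) ^ (max γ 0 + a)) := by ring
      _ ≤ (f t x w * μ t ^ γ) * (μ t ^ (-(min γ 0)) * ‖w - v‖ ^ (min γ 0) + μ t ^ (-(min γ 0)) * (1 + ‖w‖) ^ (max γ 0 + a)) := by
          rw [h1]
          exact mul_le_mul_of_nonneg_left (by linarith) h6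
      _ = μ t ^ (γ - min γ 0) * (f t x w * (‖w - v‖ ^ (min γ 0) + (1 + ‖w‖) ^ (max γ 0 + a))) := by
          rw [sub_eq_add_neg γ (min γ 0), Real.rpow_add hμp]; ring
      _ ≤ μ t₀ ^ (γ - min γ 0) * ((m * φ N w) * (‖w - v‖ ^ (min γ 0) + (1 + ‖w‖) ^ (max γ 0 + a))) := by
          refine mul_le_mul h7 (mul_le_mul_of_nonneg_right (hmle t ⟨ht₁.1.trans ht.1, ht.2.le⟩ x w) hG)
            (mul_nonneg hfw hG) (by positivity)
  · have h1 : ∫⁻ w : V d, ENNReal.ofReal ((μ t₀ ^ (γ - min γ 0)) * ((m * φ N w) * (‖w - v‖ ^ (min γ 0) + (1 + ‖w‖) ^ (max γ 0 + a)))) =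
        ENNReal.ofReal (μ t₀ ^ (γ - min γ 0)) * mom (min γ 0) (max γ 0 + a) (fun w => m * φ N w) v := by
      unfold mom
      rw [← lintegral_const_mul' _ _ ENNReal.ofReal_ne_top]
      refine lintegral_congr fun w => ?_
      rw [ENNReal.ofReal_mul (by positivity)]
    rw [h1]
    exact ENNReal.mul_ne_top ENNReal.ofReal_ne_top
      (ne_top_of_le_ne_top ENNReal.ofReal_ne_top (hmom (fun w => m * φ N w) m hm (fun w => le_rfl) v))
  · have hne : ∀ᵐ w : V d, w ≠ v := by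
      rw [ae_iff]; simp
    refine hne.mono fun w hw => ?_
    have hμ0' : 0 < μ t₀ := by linarith
    refine ENNReal.tendsto_ofReal (Tendsto.mul (h.timecont ht₀0 x w) (Tendsto.mul ?_ (Tendsto.add ?_ ?_)))
    · exact hμt.rpow_const (Or.inl hμ0'.ne')
    · refine Tendsto.rpow_const (tendsto_const_nhds.div hμt hμ0'.ne') (Or.inl ?_)
      have : 0 < ‖w - v‖ := norm_pos_iff.2 (sub_ne_zero.2 hw)
      positivity
    · refine Tendsto.rpow_const (tendsto_const_nhds.add (tendsto_const_nhds.div hμt hμ0'.ne')) (Or.inl ?_)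
      positivity
end

/-- growth with variable scale -/
theorem growth_LS [Nontrivial (V d)] {γ a T : ℝ} {f : ℝ → V d → V d → ℝ} {N : ℕ} (ha : 0 ≤ a)
    (hMB : MomB d (min γ 0) (max γ 0 + a) N) (h : IsReg T f) {C : ℝ} (hC : 0 ≤ C)
    (ht : TouchAll C γ a N T f) {t₁ : ℝ} (ht₁ : t₁ ∈ Ico 0 T) {μ : ℝ → ℝ} (hμc : ContinuousOn μ (Ico t₁ T))
    (hμm : MonotoneOn μ (Ico t₁ T)) (hμ1 : ∀ t ∈ Ico t₁ T, 1 ≤ μ t) {A : ℝ} (hA : ∀ x v, f t₁ x v ≤ A * φs N (μ t₁) v) :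
    ∀ t ∈ Ico t₁ T, ∀ x v, f t x v ≤ A * Real.exp (C * (∫⁻ τ in Ico t₁ t, LS γ a μ f τ).toReal) * φs N (μ t) v := by
  have hL := LS_bdd ha hMB h ht₁ hμm hμ1
  refine growthS (J := JJ (LS γ a μ f) t₁) (q := fun t x v => (momS γ (min γ 0) (max γ 0 + a) (μ t) (f t x) v).toReal)
    h hC ht₁ hμc hμm hμ1 (JJ_cont hL) (by unfold JJ; simp) (fun _ _ => ENNReal.toReal_nonneg)
    (fun _ _ _ => ENNReal.toReal_nonneg) ?_ ?_ hA
  · intro t ht' x v m hle hv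
    exact ht t ⟨ht₁.1.trans_lt ht'.1, ht'.2⟩ x v m (μ t) (hμ1 t ⟨ht'.1.le, ht'.2⟩) hle hv
  · intro t₀ ht₀ x v l hl
    exact JJ_lower hL (m := fun t => momS γ (min γ 0) (max γ 0 + a) (μ t) (f t x) v) (fun t => le_iSup₂_of_le x v le_rfl) ht₀
      (momS_left ha hMB h ht₁ hμc hμm hμ1 ht₀ x v) hl

lemma IsReg.integrable {T : ℝ} {f : ℝ → V d → V d → ℝ} (h : IsReg T f) {t : ℝ} (ht : t ∈ Ico 0 T) (x : V d) :
    Integrable (f t x) ∧ Integrable (fun w => f t x w * ‖w‖ ^ 2) := by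
  have hn : (d:ℝ) < 2 * ((d + 1 : ℕ) : ℝ) := by push_cast; linarith [(by positivity : (0:ℝ) ≤ d)]
  have hφi := integrable_φ (d := d) hn
  obtain ⟨m, hm, hmle⟩ := h.decayφ ht (d + 1 + 1)
  have hfm := h.measurable ht x
  have hf0 := h.nonneg t ht x
  have key : ∀ w, f t x w * (1 + ‖w‖ ^ 2) ≤ m * φ (d + 1) w := fun w => by
    rw [← φ_succ (d + 1) w, ← mul_assoc]
    exact mul_le_mul_of_nonneg_right (hmle t ⟨ht.1, le_rfl⟩ x w) (by positivity)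
  constructor
  · refine Integrable.mono' (hφi.const_mul m) hfm.aestronglyMeasurable (Eventually.of_forall fun w => ?_)
    rw [Real.norm_eq_abs, abs_of_nonneg (hf0 w)]
    have := key w
    have h1 := mul_nonneg (hf0 w) (sq_nonneg ‖w‖)
    linarith
  · refine Integrable.mono' (hφi.const_mul m) ?_ (Eventually.of_forall fun w => ?_)
    · exact (hfm.mul (measurable_norm.pow_const 2)).aestronglyMeasurable
    · have h1 := mul_nonneg (hf0 w) (sq_nonneg ‖w‖)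
      rw [Real.norm_eq_abs, abs_of_nonneg h1]
      have := key w
      have h2 := hf0 w
      linarith

end Pool.Agent.H821.BL
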