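import Pool.Agent.H821.BL.Reg
import Pool.Agent.H821.BZ.Main4

/-! Soft potentials: one step. -/

set_option autoImplicit false
open MeasureTheory Metric Set Filter Topology
open scoped ENNReal Real InnerProductSpace Pointwise

namespace Pool.Agent.H821.BL

open Pool.Agent.H821.BZ

variable {d : ℕ}

/-- the constant of the singular convolution -/
noncomputable def WW (d : ℕ) (γ : ℝ) : ℝ := ∫ u : V d, ‖u‖ ^ γ * Real.exp (-1 * ‖u‖ ^ 2)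

lemma WW_nonneg (γ : ℝ) : 0 ≤ WW d γ := integral_nonneg fun w => by positivity

lemma int_scale {γ R : ℝ} (hR : 0 < R) :
    ∫ u : V d, ‖u‖ ^ γ * Real.exp (-(R ^ 2)⁻¹ * ‖u‖ ^ 2) = R ^ ((d:ℝ) + γ) * WW d γ := by
  have h1 := Measure.integral_comp_smul (volume : Measure (V d)) (fun u : V d => ‖u‖ ^ γ * Real.exp (-1 * ‖u‖ ^ 2)) R⁻¹
  have h2 : ∀ u : V d, ‖R⁻¹ • u‖ ^ γ * Real.exp (-1 * ‖R⁻¹ • u‖ ^ 2) =
      R ^ (-γ) * (‖u‖ ^ γ * Real.exp (-(R ^ 2)⁻¹ * ‖u‖ ^ 2)) := by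
    intro u
    rw [norm_smul, norm_inv, Real.norm_eq_abs, abs_of_pos hR, Real.mul_rpow (by positivity) (norm_nonneg _),
      Real.inv_rpow hR.le, ← Real.rpow_neg hR.le]
    have : -1 * (R⁻¹ * ‖u‖) ^ 2 = -(R ^ 2)⁻¹ * ‖u‖ ^ 2 := by rw [mul_pow, inv_pow]; ring
    rw [this]; ring
  simp only [h2] at h1
  rw [integral_const_mul] at h1
  have h3 : |((R⁻¹) ^ Module.finrank ℝ (V d))⁻¹| = R ^ (d:ℝ) := by
    rw [finrank_euclideanSpace, Fintype.card_fin, Real.rpow_natCast, inv_pow, inv_inv, abs_of_pos (by positivity)]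
  rw [h3, smul_eq_mul] at h1
  have h4 : R ^ γ * R ^ (-γ) = 1 := by rw [← Real.rpow_add hR]; simp
  calc ∫ u : V d, ‖u‖ ^ γ * Real.exp (-(R ^ 2)⁻¹ * ‖u‖ ^ 2)
      = (R ^ γ * R ^ (-γ)) * ∫ u : V d, ‖u‖ ^ γ * Real.exp (-(R ^ 2)⁻¹ * ‖u‖ ^ 2) := by rw [h4, one_mul]
    _ = R ^ γ * (R ^ (d:ℝ) * WW d γ) := by rw [mul_assoc, h1]; rfl
    _ = R ^ ((d:ℝ) + γ) * WW d γ := by rw [Real.rpow_add hR]; ring

/-- the scaled moment for soft potentials -/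
lemma momS_soft {γ μ F R : ℝ} (hγ : γ ≤ 0) (hγd : 0 < d + γ) (hμ : 0 < μ) (hR : 0 < R) {f : V d → ℝ}
    (hf0 : ∀ w, 0 ≤ f w) (hF : ∀ w, f w ≤ F) (hf1 : Integrable f)
    (hf2 : Integrable (fun w => f w * ‖w‖ ^ 2)) (v : V d) [Nontrivial (V d)] :
    momS γ γ 2 μ f v ≤ ENNReal.ofReal (Real.exp 1 * F * (R ^ ((d:ℝ) + γ) * WW d γ) + R ^ γ * (∫ w, f w) +
      μ ^ γ * (2 * ∫ w, f w) + 2 * (μ ^ γ * (μ ^ 2)⁻¹) * ∫ w, f w * ‖w‖ ^ 2) := by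
  have hF0 : 0 ≤ F := (hf0 0).trans (hF 0)
  have hb : 0 < (R ^ 2)⁻¹ := by positivity
  have hgi := integrable_norm_rpow_exp (d := d) (q := γ) (b := (R ^ 2)⁻¹) hγd hb
  have hgv : Integrable (fun w : V d => ‖w - v‖ ^ γ * Real.exp (-(R ^ 2)⁻¹ * ‖w - v‖ ^ 2)) := hgi.comp_sub_right v
  have hint : Integrable (fun w : V d => (Real.exp 1 * F) * (‖w - v‖ ^ γ * Real.exp (-(R ^ 2)⁻¹ * ‖w - v‖ ^ 2)) +
      (R ^ γ + 2 * μ ^ γ) * f w + 2 * (μ ^ γ * (μ ^ 2)⁻¹) * (f w * ‖w‖ ^ 2)) :=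
    ((hgv.const_mul _).add (hf1.const_mul _)).add (hf2.const_mul _)
  have hval : ∫ w : V d, ((Real.exp 1 * F) * (‖w - v‖ ^ γ * Real.exp (-(R ^ 2)⁻¹ * ‖w - v‖ ^ 2)) +
      (R ^ γ + 2 * μ ^ γ) * f w + 2 * (μ ^ γ * (μ ^ 2)⁻¹) * (f w * ‖w‖ ^ 2)) =
      Real.exp 1 * F * (R ^ ((d:ℝ) + γ) * WW d γ) + R ^ γ * (∫ w, f w) +
      μ ^ γ * (2 * ∫ w, f w) + 2 * (μ ^ γ * (μ ^ 2)⁻¹) * ∫ w, f w * ‖w‖ ^ 2 := by
    have i12 : Integrable (fun w : V d => (Real.exp 1 * F) * (‖w - v‖ ^ γ * Real.exp (-(R ^ 2)⁻¹ * ‖w - v‖ ^ 2)) +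
      (R ^ γ + 2 * μ ^ γ) * f w) := (hgv.const_mul _).add (hf1.const_mul _)
    rw [integral_add i12 (hf2.const_mul _), integral_add (hgv.const_mul _) (hf1.const_mul _), integral_const_mul,
      integral_const_mul, integral_const_mul,
      integral_sub_right_eq_self (fun u : V d => ‖u‖ ^ γ * Real.exp (-(R ^ 2)⁻¹ * ‖u‖ ^ 2)) v, int_scale hR]
    ring
  rw [← hval, ofReal_integral_eq_lintegral_ofReal hint (Filter.Eventually.of_forall fun w => by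
    have := hf0 w
    simp only [Pi.zero_apply]; positivity)]
  unfold momS
  refine lintegral_mono fun w => ENNReal.ofReal_le_ofReal ?_
  have hw := norm_nonneg w
  have h0 := hf0 w
  have hu := norm_nonneg (w - v)
  have h1 : (1 + ‖w‖ / μ) ^ (2:ℝ) ≤ 2 + 2 * ((μ ^ 2)⁻¹ * ‖w‖ ^ 2) := by
    have e1 : (1 + ‖w‖ / μ) ^ (2:ℝ) = (1 + ‖w‖ / μ) ^ 2 := by norm_cast
    have e2 : (μ ^ 2)⁻¹ * ‖w‖ ^ 2 = (‖w‖ / μ) ^ 2 := by rw [div_pow]; field_simp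
    rw [e1, e2]
    nlinarith [sq_nonneg (1 - ‖w‖ / μ)]
  have h2 : 0 ≤ f w * μ ^ γ := by positivity
  have h3 : μ ^ γ * (‖w - v‖ / μ) ^ γ = ‖w - v‖ ^ γ := by
    rw [Real.div_rpow hu hμ.le]; field_simp
  have h4 : f w * ‖w - v‖ ^ γ ≤ (Real.exp 1 * F) * (‖w - v‖ ^ γ * Real.exp (-(R ^ 2)⁻¹ * ‖w - v‖ ^ 2)) + R ^ γ * f w := by
    have hug : 0 ≤ ‖w - v‖ ^ γ := by positivity
    rcases le_total ‖w - v‖ R with h | h
    · have h5 : 1 ≤ Real.exp 1 * Real.exp (-(R ^ 2)⁻¹ * ‖w - v‖ ^ 2) := by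
        rw [← Real.exp_add]
        refine Real.one_le_exp ?_
        have : (R ^ 2)⁻¹ * ‖w - v‖ ^ 2 ≤ 1 := by
          rw [inv_mul_le_iff₀ (by positivity), mul_one]
          exact pow_le_pow_left₀ hu h 2
        linarith
      have h6 : f w * ‖w - v‖ ^ γ ≤ F * ‖w - v‖ ^ γ := mul_le_mul_of_nonneg_right (hF w) hug
      have h7 : F * ‖w - v‖ ^ γ ≤ F * ‖w - v‖ ^ γ * (Real.exp 1 * Real.exp (-(R ^ 2)⁻¹ * ‖w - v‖ ^ 2)) :=
        le_mul_of_one_le_right (by positivity) h5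
      have h8 : 0 ≤ R ^ γ * f w := by positivity
      calc f w * ‖w - v‖ ^ γ ≤ F * ‖w - v‖ ^ γ * (Real.exp 1 * Real.exp (-(R ^ 2)⁻¹ * ‖w - v‖ ^ 2)) := h6.trans h7
        _ = (Real.exp 1 * F) * (‖w - v‖ ^ γ * Real.exp (-(R ^ 2)⁻¹ * ‖w - v‖ ^ 2)) := by ring
        _ ≤ _ := by linarith
    · have h5 : ‖w - v‖ ^ γ ≤ R ^ γ := Real.rpow_le_rpow_of_nonpos hR h hγ
      have h6 : 0 ≤ (Real.exp 1 * F) * (‖w - v‖ ^ γ * Real.exp (-(R ^ 2)⁻¹ * ‖w - v‖ ^ 2)) := by positivity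
      nlinarith [mul_le_mul_of_nonneg_left h5 h0]
  calc f w * (μ ^ γ * ((‖w - v‖ / μ) ^ γ + (1 + ‖w‖ / μ) ^ (2:ℝ)))
      = f w * (μ ^ γ * (‖w - v‖ / μ) ^ γ) + (f w * μ ^ γ) * (1 + ‖w‖ / μ) ^ (2:ℝ) := by ring
    _ ≤ ((Real.exp 1 * F) * (‖w - v‖ ^ γ * Real.exp (-(R ^ 2)⁻¹ * ‖w - v‖ ^ 2)) + R ^ γ * f w) +
        (f w * μ ^ γ) * (2 + 2 * ((μ ^ 2)⁻¹ * ‖w‖ ^ 2)) := by
        rw [h3]
        exact add_le_add h4 (mul_le_mul_of_nonneg_left h1 h2)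
    _ = _ := by ring

/-- abstract one step estimate, soft potentials -/
theorem step_soft (hd : 2 ≤ d) {γ : ℝ} (hγ : γ < 0) (hγd : 0 < d + γ) {T : ℝ} {f : ℝ → V d → V d → ℝ} (h : IsReg T f)
    {t₁ : ℝ} (ht₁ : t₁ ∈ Ico 0 T) (hT1 : T - t₁ ≤ 1) {α ω a ℓ ε C0 C1 : ℝ}
    (h0 : (1 + γ / d) * α - γ / d * ω < 1)
    (hε : 0 ≤ ε) (h1 : a + γ * ε < 1) (h2 : a + 2 * ℓ - (2 - γ) * ε < 1)
    (hC0 : 0 ≤ C0) (hC1 : 0 ≤ C1)
    (hF : ∀ t ∈ Ico t₁ T, ∀ x v, f t x v ≤ C0 * (T - t) ^ (-ω))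
    (hρ0 : ∀ t ∈ Ico t₁ T, ∀ x, rho f t x ≤ C0 * (T - t) ^ (-α))
    (hρ : ∀ t ∈ Ico t₁ T, ∀ x, rho f t x ≤ C1 * (T - t) ^ (-a))
    (hE : ∀ t ∈ Ico t₁ T, ∀ x, ener f t x ≤ C1 * (T - t) ^ (-(a + 2 * ℓ)))
    {N : ℕ} (hN : (d:ℝ) + 6 ≤ 2 * N) {C : ℝ} (hC : 0 ≤ C) (htouch : TouchAll C γ 2 N T f) :
    ∃ K', 0 ≤ K' ∧ ∀ t ∈ Ico t₁ T, ∀ x v, f t x v ≤ K' * φs N ((T - t) ^ (-ε)) v := by
  have : Nontrivial (Fin d) := Fin.nontrivial_iff_two_le.2 hd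
  have : Nonempty (Fin d) := inferInstance
  have : Nontrivial (V d) := inferInstance
  have hd2 : (2:ℝ) ≤ d := by exact_mod_cast hd
  have hd0 : (0:ℝ) < d := by linarith
  have hmin : min γ 0 = γ := min_eq_left hγ.le
  have hmax : max γ 0 + 2 = 2 := by rw [max_eq_right hγ.le]; ring
  have hMB : MomB d (min γ 0) (max γ 0 + 2) N := by
    rw [hmin, hmax]
    exact momB_all hd hγ.le hγd (by norm_num) hN
  set μ : ℝ → ℝ := fun t => (T - t) ^ (-ε) with hμ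
  have hpos : ∀ t ∈ Ico t₁ T, 0 < T - t := fun t ht => by linarith [ht.2]
  have hle1 : ∀ t ∈ Ico t₁ T, T - t ≤ 1 := fun t ht => by linarith [ht.1]
  have hμc : ContinuousOn μ (Ico t₁ T) := by
    rw [hμ]
    refine ContinuousOn.rpow_const (by fun_prop) fun t ht => Or.inl (hpos t ht).ne'
  have hμm : MonotoneOn μ (Ico t₁ T) := by
    intro t ht t' ht' htt
    simp only [hμ]
    exact Real.rpow_le_rpow_of_nonpos (hpos t' ht') (by linarith) (by linarith)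
  have hμ1 : ∀ t ∈ Ico t₁ T, 1 ≤ μ t := fun t ht => by
    simp only [hμ]
    exact Real.one_le_rpow_of_pos_of_le_one_of_nonpos (hpos t ht) (hle1 t ht) (by linarith)
  obtain ⟨A, hA, hAb⟩ := h.decayφ ht₁ N
  have hA' : ∀ x v, f t₁ x v ≤ A * φs N (μ t₁) v := fun x v => by
    refine (hAb t₁ ⟨ht₁.1, le_rfl⟩ x v).trans (mul_le_mul_of_nonneg_left ?_ hA)
    rw [← φs_one]
    exact φs_mono N one_pos (hμ1 t₁ ⟨le_rfl, ht₁.2⟩) v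
  have hg := growth_LS (by norm_num : (0:ℝ) ≤ 2) hMB h hC htouch ht₁ hμc hμm hμ1 hA'
  -- the bound of the moments
  set κ0 := (1 + γ / d) * α - γ / d * ω with hκ0
  set κ := max κ0 (max (a + γ * ε) (a + 2 * ℓ - (2 - γ) * ε)) with hκ
  have hκ1 : κ < 1 := max_lt h0 (max_lt h1 h2)
  have hk0 : κ0 ≤ κ := le_max_left _ _
  have hk1 : a + γ * ε ≤ κ := (le_max_left _ _).trans (le_max_right _ _)
  have hk2 : a + 2 * ℓ - (2 - γ) * ε ≤ κ := (le_max_right _ _).trans (le_max_right _ _)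
  set D := Real.exp 1 * C0 * WW d γ + C0 + 2 * C1 + 2 * C1 with hD
  have hW := WW_nonneg (d := d) γ
  have hD0 : 0 ≤ D := by positivity
  have hLS : ∀ t ∈ Ico t₁ T, LS γ 2 μ f t ≤ ENNReal.ofReal D * ENNReal.ofReal ((T - t) ^ (-κ)) := by
    intro t ht
    have ht0 : t ∈ Ico 0 T := ⟨ht₁.1.trans ht.1, ht.2⟩
    refine iSup_le fun x => iSup_le fun v => ?_
    rw [hmin, hmax]
    obtain ⟨i1, i2⟩ := h.integrable ht0 x
    have hy := hpos t ht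
    have hy1 := hle1 t ht
    have hμt : 0 < μ t := lt_of_lt_of_le one_pos (hμ1 t ht)
    set R := (T - t) ^ ((ω - α) / d) with hR
    have hR0 : 0 < R := by positivity
    refine (momS_soft hγ.le hγd hμt hR0 (h.nonneg t ht0 x) (hF t ht x) i1 i2 v).trans ?_
    rw [← ENNReal.ofReal_mul (by positivity)]
    refine ENNReal.ofReal_le_ofReal ?_
    have e1 : μ t ^ γ = (T - t) ^ (-(γ * ε)) := by
      simp only [hμ]; rw [← Real.rpow_mul hy.le]; congr 1; ring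
    have e2 : (μ t ^ 2)⁻¹ = (T - t) ^ (2 * ε) := by
      simp only [hμ]
      rw [pow_rpow hy, ← Real.rpow_neg hy.le]; congr 1; push_cast; ring
    have e3 : (T - t) ^ (-ω) * R ^ ((d:ℝ) + γ) = (T - t) ^ (-κ0) := by
      rw [hR, ← Real.rpow_mul hy.le, ← Real.rpow_add hy]; congr 1; rw [hκ0]; field_simp; ring
    have e4 : R ^ γ * (T - t) ^ (-α) = (T - t) ^ (-κ0) := by
      rw [hR, ← Real.rpow_mul hy.le, ← Real.rpow_add hy]; congr 1; rw [hκ0]; field_simp; ring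
    have e5 : (T - t) ^ (-κ0) ≤ (T - t) ^ (-κ) := Real.rpow_le_rpow_of_exponent_ge hy hy1 (by linarith)
    have hr0 := hρ0 t ht x
    have hr := hρ t ht x
    have he := hE t ht x
    unfold rho at hr hr0
    unfold ener at he
    rw [e1, e2]
    have p1 : 0 ≤ (T - t) ^ (-(γ * ε)) := by positivity
    have p2 : 0 ≤ (T - t) ^ (2 * ε) := by positivity
    have p3 : 0 ≤ R ^ γ := by positivity
    have b1 : (T - t) ^ (-(γ * ε)) * (T - t) ^ (-a) ≤ (T - t) ^ (-κ) := by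
      rw [← Real.rpow_add hy]
      exact Real.rpow_le_rpow_of_exponent_ge hy hy1 (by linarith)
    have b2 : ((T - t) ^ (-(γ * ε)) * (T - t) ^ (2 * ε)) * (T - t) ^ (-(a + 2 * ℓ)) ≤ (T - t) ^ (-κ) := by
      rw [← Real.rpow_add hy, ← Real.rpow_add hy]
      refine Real.rpow_le_rpow_of_exponent_ge hy hy1 ?_
      nlinarith
    have c1 : Real.exp 1 * (C0 * (T - t) ^ (-ω)) * (R ^ ((d:ℝ) + γ) * WW d γ) =
        Real.exp 1 * C0 * WW d γ * (T - t) ^ (-κ0) := by rw [← e3]; ring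
    have c2 : R ^ γ * ∫ w, f t x w ≤ C0 * (T - t) ^ (-κ0) := by
      calc R ^ γ * ∫ w, f t x w ≤ R ^ γ * (C0 * (T - t) ^ (-α)) := mul_le_mul_of_nonneg_left hr0 p3
        _ = C0 * (T - t) ^ (-κ0) := by rw [← e4]; ring
    have c3 : (T - t) ^ (-(γ * ε)) * (2 * ∫ w, f t x w) ≤ 2 * C1 * (T - t) ^ (-κ) := by
      calc (T - t) ^ (-(γ * ε)) * (2 * ∫ w, f t x w) ≤ (T - t) ^ (-(γ * ε)) * (2 * (C1 * (T - t) ^ (-a))) := by gcongr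
        _ = 2 * C1 * ((T - t) ^ (-(γ * ε)) * (T - t) ^ (-a)) := by ring
        _ ≤ _ := by gcongr
    have c4 : 2 * ((T - t) ^ (-(γ * ε)) * (T - t) ^ (2 * ε)) * ∫ w, f t x w * ‖w‖ ^ 2 ≤ 2 * C1 * (T - t) ^ (-κ) := by
      calc 2 * ((T - t) ^ (-(γ * ε)) * (T - t) ^ (2 * ε)) * ∫ w, f t x w * ‖w‖ ^ 2
          ≤ 2 * ((T - t) ^ (-(γ * ε)) * (T - t) ^ (2 * ε)) * (C1 * (T - t) ^ (-(a + 2 * ℓ))) := by gcongr
        _ = 2 * C1 * (((T - t) ^ (-(γ * ε)) * (T - t) ^ (2 * ε)) * (T - t) ^ (-(a + 2 * ℓ))) := by ring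
        _ ≤ _ := by gcongr
    have c5 : Real.exp 1 * C0 * WW d γ * (T - t) ^ (-κ0) ≤ Real.exp 1 * C0 * WW d γ * (T - t) ^ (-κ) := by gcongr
    have c6 : C0 * (T - t) ^ (-κ0) ≤ C0 * (T - t) ^ (-κ) := by gcongr
    rw [c1, hD]
    linarith
  set Tot := ENNReal.ofReal D * ∫⁻ τ in Ico t₁ T, ENNReal.ofReal ((T - τ) ^ (-κ)) with hTot
  have hTtop : Tot ≠ ⊤ := ENNReal.mul_ne_top ENNReal.ofReal_ne_top (int_rpow hκ1 ht₁.2.le)
  refine ⟨A * Real.exp (C * Tot.toReal), by positivity, fun t ht x v => (hg t ht x v).trans ?_⟩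
  have hle : (∫⁻ τ in Ico t₁ t, LS γ 2 μ f τ).toReal ≤ Tot.toReal := by
    refine ENNReal.toReal_mono hTtop ?_
    calc ∫⁻ τ in Ico t₁ t, LS γ 2 μ f τ ≤ ∫⁻ τ in Ico t₁ T, LS γ 2 μ f τ :=
          lintegral_mono_set (Ico_subset_Ico_right ht.2.le)
      _ ≤ ∫⁻ τ in Ico t₁ T, ENNReal.ofReal D * ENNReal.ofReal ((T - τ) ^ (-κ)) :=
          setLIntegral_mono' measurableSet_Ico hLS
      _ = Tot := by rw [lintegral_const_mul' _ _ ENNReal.ofReal_ne_top]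
  have hφ := (φs_pos N (μ t) v).le
  gcongr

end Pool.Agent.H821.BL
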