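import Pool.Agent.H821.BL.Soft
import Pool.Agent.H821.BZ.Fin

/-! Soft potentials: the rates theorem for abstract evolutions. -/

set_option autoImplicit false
open MeasureTheory Metric Set Filter Topology
open scoped ENNReal Real InnerProductSpace Pointwise

namespace Pool.Agent.H821.BL

open Pool.Agent.H821.BZ

variable {d : ℕ}

/-- the touching estimate holds for all large powers -/
def TouchEv (γ T : ℝ) (f : ℝ → V d → V d → ℝ) : Prop :=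
  ∀ N : ℕ, (d:ℝ) + 6 ≤ 2 * N → ∃ C : ℝ, 0 ≤ C ∧ TouchAll C γ 2 N T f

lemma int_φs {N : ℕ} {μ : ℝ} (hμ : 0 < μ) : ∫ w : V d, φs N μ w = μ ^ (d:ℝ) * ∫ w : V d, φ N w := by
  have h1 := Measure.integral_comp_smul (volume : Measure (V d)) (fun u : V d => φ N u) μ⁻¹
  have h3 : |((μ⁻¹) ^ Module.finrank ℝ (V d))⁻¹| = μ ^ (d:ℝ) := by
    rw [finrank_euclideanSpace, Fintype.card_fin, Real.rpow_natCast, inv_pow, inv_inv, abs_of_pos (by positivity)]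
  rw [h3, smul_eq_mul] at h1
  exact h1

lemma integrable_φs {N : ℕ} (hN : (d:ℝ) < 2 * N) {μ : ℝ} (hμ : 0 < μ) : Integrable (fun w : V d => φs N μ w) := by
  have := (integrable_φ (d := d) hN).comp_smul (R := μ⁻¹) (by positivity)
  exact this

/-- improved rates -/
theorem step2_soft (hd : 2 ≤ d) {γ : ℝ} (hγ : γ < 0) (hγd : 0 < d + γ) {T : ℝ} {f : ℝ → V d → V d → ℝ} (h : IsReg T f)
    (htouch : TouchEv γ T f)
    {t₁ : ℝ} (ht₁ : t₁ ∈ Ico 0 T) (hT1 : T - t₁ ≤ 1) {α ω a ℓ ε η C0 C1 : ℝ} (hα : 0 ≤ α)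
    (h0 : (1 + γ / d) * α - γ / d * ω < 1)
    (hε : 0 ≤ ε) (hη : 0 < η) (h1 : a + γ * ε < 1) (h2 : a + 2 * ℓ - (2 - γ) * ε < 1)
    (hC0 : 0 ≤ C0) (hC1 : 0 ≤ C1)
    (hF : ∀ t ∈ Ico t₁ T, ∀ x v, f t x v ≤ C0 * (T - t) ^ (-ω))
    (hρ0 : ∀ t ∈ Ico t₁ T, ∀ x, rho f t x ≤ C0 * (T - t) ^ (-α))
    (hρ : ∀ t ∈ Ico t₁ T, ∀ x, rho f t x ≤ C1 * (T - t) ^ (-a))
    (hE : ∀ t ∈ Ico t₁ T, ∀ x, ener f t x ≤ C1 * (T - t) ^ (-(a + 2 * ℓ))) :
    ∃ C2, 0 ≤ C2 ∧ ∀ t ∈ Ico t₁ T, ∀ x, rho f t x ≤ C2 * (T - t) ^ (-(min α (d * (ε + η)))) ∧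
      ener f t x ≤ C2 * (T - t) ^ (-(min α (d * (ε + η)) + 2 * (ε + η))) := by
  have hd0 : (0:ℝ) ≤ d := by positivity
  set n := d + 3 with hn
  have hn2 : (d:ℝ) < 2 * (n : ℝ) := by rw [hn]; push_cast; linarith
  obtain ⟨N', hN'⟩ := exists_nat_ge ((n + 1) * ε / η)
  have hN'η : ((n:ℝ) + 1) * ε ≤ N' * η := by rwa [div_le_iff₀ hη] at hN'
  have hNN : (d:ℝ) + 6 ≤ 2 * ((n + 1 + N' : ℕ) : ℝ) := by
    have : (0:ℝ) ≤ N' := by positivity
    rw [hn]; push_cast; linarith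
  have hN2 : (d:ℝ) < 2 * ((n + 1 + N' : ℕ) : ℝ) := by linarith
  obtain ⟨C, hC, hCt⟩ := htouch (n + 1 + N') hNN
  obtain ⟨K', hK', hb'⟩ := step_soft hd hγ hγd h ht₁ hT1 h0 hε h1 h2 hC0 hC1 hF hρ0 hρ hE hNN hC hCt
  set P := ∫ w : V d, φ n w with hP
  have hP0 : 0 ≤ P := integral_nonneg fun w => (φ_pos n w).le
  set P' := ∫ w : V d, φ (n + 1 + N') w with hP'
  have hP'0 : 0 ≤ P' := integral_nonneg fun w => (φ_pos _ w).le
  set m := min α (d * (ε + η)) with hm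
  have hm0 : 0 ≤ m := le_min hα (by positivity)
  set C3 := max C0 (K' * P') with hC3
  have hC30 : 0 ≤ C3 := le_max_of_le_left hC0
  -- the mass
  have hmass : ∀ t ∈ Ico t₁ T, ∀ x, rho f t x ≤ C3 * (T - t) ^ (-m) := by
    intro t ht x
    have hy : 0 < T - t := by linarith [ht.2]
    have hy1 : T - t ≤ 1 := by linarith [ht.1]
    have ht0 : t ∈ Ico 0 T := ⟨ht₁.1.trans ht.1, ht.2⟩
    rcases le_total α (d * (ε + η)) with hc | hc
    · rw [hm, min_eq_left hc]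
      exact (hρ0 t ht x).trans (mul_le_mul_of_nonneg_right (le_max_left _ _) (by positivity))
    · rw [hm, min_eq_right hc]
      obtain ⟨i1, i2⟩ := h.integrable ht0 x
      have hμ : 0 < (T - t) ^ (-ε) := by positivity
      have h3 : rho f t x ≤ ∫ w : V d, K' * φs (n + 1 + N') ((T - t) ^ (-ε)) w :=
        integral_mono i1 ((integrable_φs hN2 hμ).const_mul _) (hb' t ht x)
      rw [integral_const_mul, int_φs hμ, ← Real.rpow_mul hy.le] at h3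
      have h4 : (T - t) ^ (-ε * d) ≤ (T - t) ^ (-(d * (ε + η))) :=
        Real.rpow_le_rpow_of_exponent_ge hy hy1 (by nlinarith [mul_nonneg hd0 hη.le])
      calc rho f t x ≤ K' * ((T - t) ^ (-ε * d) * P') := h3
        _ ≤ K' * ((T - t) ^ (-(d * (ε + η))) * P') := by gcongr
        _ = (K' * P') * (T - t) ^ (-(d * (ε + η))) := by ring
        _ ≤ _ := mul_le_mul_of_nonneg_right (le_max_right _ _) (by positivity)
  refine ⟨C3 + K' * 2 ^ n * P, by positivity, fun t ht x => ⟨?_, ?_⟩⟩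
  · have hy : 0 < T - t := by linarith [ht.2]
    refine (hmass t ht x).trans (mul_le_mul_of_nonneg_right ?_ (by positivity))
    have : 0 ≤ K' * 2 ^ n * P := by positivity
    linarith
  have ht0 : t ∈ Ico 0 T := ⟨ht₁.1.trans ht.1, ht.2⟩
  have hy : 0 < T - t := by linarith [ht.2]
  have hy1 : T - t ≤ 1 := by linarith [ht.1]
  obtain ⟨i1, i2⟩ := h.integrable ht0 x
  have hR1 : 1 ≤ (T - t) ^ (-(ε + η)) := Real.one_le_rpow_of_pos_of_le_one_of_nonpos hy hy1 (by linarith)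
  have htl := tail (n := n) (N' := N') hn2 (h.nonneg t ht0 x) i1 hR1 (by positivity : 0 < (T - t) ^ (-ε)) hK' (hb' t ht x)
  have hr := hmass t ht x
  unfold rho at hr
  unfold ener
  refine htl.trans ?_
  have e1 : ((T - t) ^ (-(ε + η))) ^ 2 = (T - t) ^ (-(2 * (ε + η))) := by
    rw [pow_rpow hy]; congr 1; push_cast; ring
  have e2 : (((T - t) ^ (-ε)) ^ 2) ^ (n + 1 + N') * ((((T - t) ^ (-(ε + η))) ^ 2) ^ N')⁻¹ ≤ 1 := by
    rw [← pow_mul, ← pow_mul, pow_rpow hy, pow_rpow hy, ← Real.rpow_neg hy.le, ← Real.rpow_add hy]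
    refine Real.rpow_le_one hy.le hy1 ?_
    push_cast; nlinarith
  have e3 : 1 ≤ (T - t) ^ (-(m + 2 * (ε + η))) := Real.one_le_rpow_of_pos_of_le_one_of_nonpos hy hy1 (by linarith)
  have e4 : (T - t) ^ (-(2 * (ε + η))) * (T - t) ^ (-m) = (T - t) ^ (-(m + 2 * (ε + η))) := by
    rw [← Real.rpow_add hy]; congr 1; ring
  calc ((T - t) ^ (-(ε + η))) ^ 2 * (∫ w, f t x w) + K' * 2 ^ n * (((T - t) ^ (-ε)) ^ 2) ^ (n + 1 + N') *
        ((((T - t) ^ (-(ε + η))) ^ 2) ^ N')⁻¹ * P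
      = (T - t) ^ (-(2 * (ε + η))) * (∫ w, f t x w) + K' * 2 ^ n * P * ((((T - t) ^ (-ε)) ^ 2) ^ (n + 1 + N') *
        ((((T - t) ^ (-(ε + η))) ^ 2) ^ N')⁻¹) := by rw [e1]; ring
    _ ≤ (T - t) ^ (-(2 * (ε + η))) * (C3 * (T - t) ^ (-m)) + K' * 2 ^ n * P * 1 := by gcongr
    _ = C3 * (T - t) ^ (-(m + 2 * (ε + η))) + K' * 2 ^ n * P * 1 := by rw [← e4]; ring
    _ ≤ C3 * (T - t) ^ (-(m + 2 * (ε + η))) + K' * 2 ^ n * P * (T - t) ^ (-(m + 2 * (ε + η))) := by gcongr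
    _ = _ := by ring

/-- the induction on the energy rate -/
theorem soft_aux (hd : 2 ≤ d) {γ : ℝ} (hγ : γ < 0) (hγd : 0 < d + γ) {T : ℝ} {f : ℝ → V d → V d → ℝ} (h : IsReg T f)
    (htouch : TouchEv γ T f)
    {t₁ : ℝ} (ht₁ : t₁ ∈ Ico 0 T) (hT1 : T - t₁ ≤ 1) {α ω δ C0 : ℝ} (hα : 0 ≤ α) (hω : 0 ≤ ω) (hδ : 0 < δ)
    (h0 : (1 + γ / d) * α - γ / d * ω = 1 - δ) (hC0 : 0 ≤ C0)
    (hF : ∀ t ∈ Ico t₁ T, ∀ x v, f t x v ≤ C0 * (T - t) ^ (-ω))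
    (hρ0 : ∀ t ∈ Ico t₁ T, ∀ x, rho f t x ≤ C0 * (T - t) ^ (-α)) (k : ℕ) :
    ∀ ℓ : ℝ, 0 ≤ ℓ → ℓ ≤ δ / (2 * (d + 2)) + k * (δ / (4 * (d + 2))) →
      (∃ C1, 0 ≤ C1 ∧ ∀ t ∈ Ico t₁ T, ∀ x, rho f t x ≤ C1 * (T - t) ^ (-(min α (d * ℓ))) ∧
        ener f t x ≤ C1 * (T - t) ^ (-(min α (d * ℓ) + 2 * ℓ))) → Reg T f := by
  have hd2 : (2:ℝ) ≤ d := by exact_mod_cast hd
  have hd0 : (0:ℝ) < d := by linarith
  set g := δ / (2 * ((d:ℝ) + 2)) with hg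
  have hg0 : 0 < g := by positivity
  have hg1 : ((d:ℝ) + 2) * g = δ / 2 := by rw [hg]; field_simp
  have hg2 : δ / (4 * ((d:ℝ) + 2)) = g / 2 := by rw [hg]; field_simp; ring
  rw [hg2]
  have hq : 0 ≤ -(γ / d) * ω := mul_nonneg (by rw [neg_nonneg]; exact div_nonpos_of_nonpos_of_nonneg hγ.le hd0.le) hω
  have key : ∀ ℓ : ℝ, 0 ≤ ℓ → min α (d * ℓ) + γ * ℓ ≤ 1 - δ := fun ℓ hℓ => by
    have hw1 : 0 ≤ 1 + γ / d := by
      rw [← div_self hd0.ne', ← add_div]; positivity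
    have hw2 : 0 ≤ -(γ / d) := by rw [neg_nonneg]; exact div_nonpos_of_nonpos_of_nonneg hγ.le hd0.le
    have a1 := mul_le_mul_of_nonneg_left (min_le_left α (d * ℓ)) hw1
    have a2 := mul_le_mul_of_nonneg_left (min_le_right α (d * ℓ)) hw2
    have a3 : -(γ / d) * (d * ℓ) = -(γ * ℓ) := by field_simp
    rw [a3] at a2
    nlinarith
  have hγg : -(γ * g) ≤ d * g := by nlinarith
  have base : ∀ ℓ : ℝ, 0 ≤ ℓ → ℓ ≤ g →
      (∃ C1, 0 ≤ C1 ∧ ∀ t ∈ Ico t₁ T, ∀ x, rho f t x ≤ C1 * (T - t) ^ (-(min α (d * ℓ))) ∧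
        ener f t x ≤ C1 * (T - t) ^ (-(min α (d * ℓ) + 2 * ℓ))) → Reg T f := by
    intro ℓ hℓ h2 hE N
    obtain ⟨C1, hC1, hE⟩ := hE
    have hN : (d:ℝ) + 6 ≤ 2 * ((N + (d + 6) : ℕ) : ℝ) := by
      push_cast; linarith [(by positivity : (0:ℝ) ≤ d), (by positivity : (0:ℝ) ≤ N)]
    obtain ⟨C, hC, hCt⟩ := htouch (N + (d + 6)) hN
    have k1 := key ℓ hℓ
    have k2 : -(γ * ℓ) ≤ -(γ * g) := by nlinarith
    obtain ⟨K', hK', hb'⟩ := step_soft hd hγ hγd h ht₁ hT1 (ε := 0) (ℓ := ℓ) (α := α) (ω := ω) (a := min α (d * ℓ))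
      (by linarith) le_rfl (by nlinarith) (by nlinarith) hC0 hC1 hF hρ0 (fun t ht x => (hE t ht x).1)
      (fun t ht x => (hE t ht x).2) hN hC hCt
    obtain ⟨C, hC, hCb⟩ := h.decayφ ht₁ N
    refine ⟨max K' C, fun t ht x v => ?_⟩
    have hφ := (φ_pos N v).le
    rcases le_total t t₁ with h3 | h3
    · exact (hCb t ⟨ht.1, h3⟩ x v).trans (mul_le_mul_of_nonneg_right (le_max_right _ _) hφ)
    · have h4 := hb' t ⟨h3, ht.2⟩ x v
      rw [neg_zero, Real.rpow_zero, φs_one] at h4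
      exact (h4.trans (mul_le_mul_of_nonneg_left (φ_anti N (d + 6) v) hK')).trans
        (mul_le_mul_of_nonneg_right (le_max_left _ _) hφ)
  induction k with
  | zero => intro ℓ hℓ h2; exact base ℓ hℓ (by simpa using h2)
  | succ k ih =>
    intro ℓ hℓ h2 hE
    by_cases hc : ℓ ≤ g
    · exact base ℓ hℓ hc hE
    · push Not at hc
      obtain ⟨C1, hC1, hE⟩ := hE
      have k1 := key ℓ hℓ
      obtain ⟨C2, hC2, hE2⟩ := step2_soft hd hγ hγd h htouch ht₁ hT1 (ε := ℓ - g) (η := g / 2) (ℓ := ℓ) (ω := ω)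
        (a := min α (d * ℓ)) hα (by linarith) (by linarith) (by positivity) (by nlinarith) (by nlinarith) hC0 hC1 hF hρ0
        (fun t ht x => (hE t ht x).1) (fun t ht x => (hE t ht x).2)
      refine ih (ℓ - g / 2) (by linarith) (by push_cast at h2; linarith) ⟨C2, hC2, ?_⟩
      intro t ht x
      have := hE2 t ht x
      rwa [show ℓ - g + g / 2 = ℓ - g / 2 by ring] at this

/-- soft potentials: no blow-up below the critical rates -/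
theorem rates_soft (hd : 2 ≤ d) {γ : ℝ} (hγ : γ < 0) (hγd : 0 < d + γ) {T : ℝ} (hT : 0 < T) {f : ℝ → V d → V d → ℝ}
    (h : IsReg T f) (htouch : TouchEv γ T f) {α β' ω C0 : ℝ} (hα : 0 ≤ α) (hω : 0 ≤ ω)
    (hrate : (1 + γ / d) * α - γ / d * ω < 1)
    (hF : ∀ t ∈ Ico 0 T, ∀ x v, f t x v ≤ C0 * (T - t) ^ (-ω))
    (hρ : ∀ t ∈ Ico 0 T, ∀ x, rho f t x ≤ C0 * (T - t) ^ (-α))
    (hE : ∀ t ∈ Ico 0 T, ∀ x, ener f t x ≤ C0 * (T - t) ^ (-β')) : Reg T f := by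
  have hd2 : (2:ℝ) ≤ d := by exact_mod_cast hd
  have hd0 : (0:ℝ) < d := by linarith
  set t₁ := max 0 (T - 1) with ht₁def
  have ht₁ : t₁ ∈ Ico 0 T := ⟨le_max_left _ _, max_lt hT (by linarith)⟩
  have hT1 : T - t₁ ≤ 1 := by have := le_max_right 0 (T - 1); rw [← ht₁def] at this; linarith
  set ℓ := max β' 0 / 2 + α / d with hℓ
  have hβ0 : 0 ≤ max β' 0 := le_max_right _ _
  have hβ1 : β' ≤ max β' 0 := le_max_left _ _
  have hαd : 0 ≤ α / d := by positivity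
  have hℓ0 : 0 ≤ ℓ := by positivity
  have hmin : min α (d * ℓ) = α := by
    refine min_eq_left ?_
    have e : (d:ℝ) * ℓ = d * (max β' 0 / 2) + α := by rw [hℓ]; field_simp
    have : 0 ≤ (d:ℝ) * (max β' 0 / 2) := by positivity
    linarith
  set δ := 1 - ((1 + γ / d) * α - γ / d * ω) with hδ
  have hδ0 : 0 < δ := by linarith
  have hsub : ∀ t ∈ Ico t₁ T, t ∈ Ico 0 T := fun t ht => ⟨ht₁.1.trans ht.1, ht.2⟩
  obtain ⟨k, hk⟩ := exists_nat_ge ((ℓ - δ / (2 * (d + 2))) / (δ / (4 * (d + 2))))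
  rw [div_le_iff₀ (by positivity)] at hk
  have hle : ∀ t ∈ Ico t₁ T, ∀ p : ℝ, C0 * (T - t) ^ p ≤ |C0| * (T - t) ^ p := fun t ht p => by
    have hy : 0 < T - t := by linarith [ht.2]
    exact mul_le_mul_of_nonneg_right (le_abs_self _) (by positivity)
  refine soft_aux hd hγ hγd h htouch ht₁ hT1 (C0 := |C0|) (ω := ω) hα hω hδ0 (by rw [hδ]; ring) (abs_nonneg _)
    (fun t ht x v => (hF t (hsub t ht) x v).trans (hle t ht _)) (fun t ht x => (hρ t (hsub t ht) x).trans (hle t ht _))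
    k ℓ hℓ0 (by linarith) ⟨|C0|, abs_nonneg _, fun t ht x => ?_⟩
  rw [hmin]
  have hy : 0 < T - t := by linarith [ht.2]
  have hy1 : T - t ≤ 1 := by linarith [ht.1]
  refine ⟨(hρ t (hsub t ht) x).trans (hle t ht _), ((hE t (hsub t ht) x).trans (hle t ht _)).trans ?_⟩
  refine mul_le_mul_of_nonneg_left ?_ (abs_nonneg _)
  refine Real.rpow_le_rpow_of_exponent_ge hy hy1 ?_
  rw [hℓ]; linarith

end Pool.Agent.H821.BL
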